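import Pool.Agent.H53.Touched

/-!
# Graphs without claws and co-claws; contraction steps
-/

namespace Pool.Agent.H53

variable {V V' W : Type}

/-- The target property. -/
def NoCC (H : SimpleGraph V) : Prop := ¬ HasClaw H ∧ ¬ HasCoclaw H

/-- Obstructions for sparse graphs: triangles and stars with three leaves. -/
def ObS (H : SimpleGraph V) (a b c d : V) : Prop :=
  (H.Adj a b ∧ H.Adj a c ∧ H.Adj b c) ∨
  (H.Adj a b ∧ H.Adj a c ∧ H.Adj a d ∧ b ≠ c ∧ b ≠ d ∧ c ≠ d)

/-- Obstructions for dense graphs: the complementary ones. -/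
def ObD (H : SimpleGraph V) (a b c d : V) : Prop :=
  (a ≠ b ∧ a ≠ c ∧ b ≠ c ∧ ¬ H.Adj a b ∧ ¬ H.Adj a c ∧ ¬ H.Adj b c) ∨
  (a ≠ b ∧ a ≠ c ∧ a ≠ d ∧ b ≠ c ∧ b ≠ d ∧ c ≠ d ∧ ¬ H.Adj a b ∧ ¬ H.Adj a c ∧ ¬ H.Adj a d)

/-- Sparse graphs. -/
def PSp (H : SimpleGraph V) : Prop := ∀ a b c d, ¬ ObS H a b c d

/-- Dense graphs. -/
def PDn (H : SimpleGraph V) : Prop := ∀ a b c d, ¬ ObD H a b c d

theorem PSp.noCC {H : SimpleGraph V} (h : PSp H) : NoCC H := by
  constructor
  · rintro ⟨c, x, y, z, h1, h2, h3, h4, h5, h6, h7, h8, h9⟩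
    exact h c x y z (Or.inr ⟨h1, h2, h3, h4, h5, h6⟩)
  · rintro ⟨d, x, y, z, n1, n2, n3, h4, h5, h6, h7, h8, h9⟩
    exact h x y z x (Or.inl ⟨h7, h8, h9⟩)

theorem PDn.noCC {H : SimpleGraph V} (h : PDn H) : NoCC H := by
  constructor
  · rintro ⟨c, x, y, z, h1, h2, h3, h4, h5, h6, h7, h8, h9⟩
    exact h x y z x (Or.inl ⟨h4, h5, h6, h7, h8, h9⟩)
  · rintro ⟨d, x, y, z, n1, n2, n3, h4, h5, h6, h7, h8, h9⟩
    exact h d x y z (Or.inr ⟨n1, n2, n3, h7.ne, h8.ne, h9.ne, h4, h5, h6⟩)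

theorem r33 (H : SimpleGraph V) (s : Finset V) (hs : 6 ≤ s.card) :
    (∃ a ∈ s, ∃ b ∈ s, ∃ c ∈ s, H.Adj a b ∧ H.Adj a c ∧ H.Adj b c) ∨
    (∃ a ∈ s, ∃ b ∈ s, ∃ c ∈ s, a ≠ b ∧ a ≠ c ∧ b ≠ c ∧
      ¬ H.Adj a b ∧ ¬ H.Adj a c ∧ ¬ H.Adj b c) := by
  classical
  obtain ⟨v, hv⟩ : s.Nonempty := Finset.card_pos.1 (by omega)
  have h1 : (s.erase v).card = s.card - 1 := Finset.card_erase_of_mem hv
  have h2 := Finset.card_filter_add_card_filter_not (s := s.erase v) (fun w => H.Adj v w)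
  rcases Nat.lt_or_ge 2 ((s.erase v).filter (fun w => H.Adj v w)).card with h | h
  · obtain ⟨a, ha, b, hb, c, hc, hab, hac, hbc⟩ := Finset.two_lt_card.1 h
    simp only [Finset.mem_filter, Finset.mem_erase] at ha hb hc
    by_cases e1 : H.Adj a b
    · exact Or.inl ⟨v, hv, a, ha.1.2, b, hb.1.2, ha.2, hb.2, e1⟩
    by_cases e2 : H.Adj a c
    · exact Or.inl ⟨v, hv, a, ha.1.2, c, hc.1.2, ha.2, hc.2, e2⟩
    by_cases e3 : H.Adj b c
    · exact Or.inl ⟨v, hv, b, hb.1.2, c, hc.1.2, hb.2, hc.2, e3⟩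
    exact Or.inr ⟨a, ha.1.2, b, hb.1.2, c, hc.1.2, hab, hac, hbc, e1, e2, e3⟩
  · have h3 : 2 < ((s.erase v).filter (fun w => ¬ H.Adj v w)).card := by omega
    obtain ⟨a, ha, b, hb, c, hc, hab, hac, hbc⟩ := Finset.two_lt_card.1 h3
    simp only [Finset.mem_filter, Finset.mem_erase] at ha hb hc
    by_cases e1 : H.Adj a b
    · by_cases e2 : H.Adj a c
      · by_cases e3 : H.Adj b c
        · exact Or.inl ⟨a, ha.1.2, b, hb.1.2, c, hc.1.2, e1, e2, e3⟩
        · exact Or.inr ⟨v, hv, b, hb.1.2, c, hc.1.2, hb.1.1.symm, hc.1.1.symm, hbc, hb.2, hc.2, e3⟩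
      · exact Or.inr ⟨v, hv, a, ha.1.2, c, hc.1.2, ha.1.1.symm, hc.1.1.symm, hac, ha.2, hc.2, e2⟩
    · exact Or.inr ⟨v, hv, a, ha.1.2, b, hb.1.2, ha.1.1.symm, hb.1.1.symm, hab, ha.2, hb.2, e1⟩

/-- Large graphs without claws and co-claws are sparse or dense. -/
theorem NoCC.sparse_or_dense [Fintype V] {H : SimpleGraph V} (h : NoCC H)
    (hc : 52 ≤ Fintype.card V) : PSp H ∨ PDn H := by
  classical
  by_cases ht : ∃ a b c, H.Adj a b ∧ H.Adj a c ∧ H.Adj b c
  · right
    obtain ⟨t1, t2, t3, t12, t13, t23⟩ := ht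
    by_cases hi : ∃ a b c, a ≠ b ∧ a ≠ c ∧ b ≠ c ∧ ¬ H.Adj a b ∧ ¬ H.Adj a c ∧ ¬ H.Adj b c
    · exfalso
      obtain ⟨i1, i2, i3, n12, n13, n23, i12, i13, i23⟩ := hi
      set T : Finset V := {t1, t2, t3} with hT
      set I : Finset V := {i1, i2, i3} with hI
      have hT3 : T.card ≤ 3 := Finset.card_le_three
      have hI3 : I.card ≤ 3 := Finset.card_le_three
      let f : V × V → Finset V := fun p =>
        Finset.univ.filter (fun v => H.Adj p.1 v ∧ p.2 ≠ v ∧ ¬ H.Adj p.2 v)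
      have hf : ∀ p ∈ T ×ˢ I, (f p).card ≤ 5 := by
        intro p _
        by_contra hcon
        rcases r33 H (f p) (by omega) with ⟨a, ha, b, hb, c, hc, e1, e2, e3⟩ |
          ⟨a, ha, b, hb, c, hc, n1, n2, n3, e1, e2, e3⟩
        · simp only [f, Finset.mem_filter, Finset.mem_univ, true_and] at ha hb hc
          exact h.2 ⟨p.2, a, b, c, ha.2.1, hb.2.1, hc.2.1, ha.2.2, hb.2.2, hc.2.2, e1, e2, e3⟩
        · simp only [f, Finset.mem_filter, Finset.mem_univ, true_and] at ha hb hc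
          exact h.1 ⟨p.1, a, b, c, ha.1, hb.1, hc.1, n1, n2, n3, e1, e2, e3⟩
      have hsub : (Finset.univ : Finset V) ⊆ (T ∪ I) ∪ (T ×ˢ I).biUnion f := by
        intro v _
        by_cases hvT : v ∈ T
        · simp [hvT]
        by_cases hvI : v ∈ I
        · simp [hvI]
        rw [Finset.mem_union]
        right
        have e1 : ∃ t ∈ T, H.Adj t v := by
          by_contra hcon
          simp only [not_exists, not_and] at hcon
          simp only [hT, Finset.mem_insert, Finset.mem_singleton, not_or] at hvT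
          exact h.2 ⟨v, t1, t2, t3, hvT.1, hvT.2.1, hvT.2.2,
            fun h' => hcon t1 (by simp [hT]) h'.symm, fun h' => hcon t2 (by simp [hT]) h'.symm,
            fun h' => hcon t3 (by simp [hT]) h'.symm, t12, t13, t23⟩
        have e2 : ∃ i ∈ I, ¬ H.Adj i v := by
          by_contra hcon
          simp only [not_exists, not_and, not_not] at hcon
          exact h.1 ⟨v, i1, i2, i3, (hcon i1 (by simp [hI])).symm, (hcon i2 (by simp [hI])).symm,
            (hcon i3 (by simp [hI])).symm, n12, n13, n23, i12, i13, i23⟩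
        obtain ⟨t, ht, htv⟩ := e1
        obtain ⟨i, hi, hiv⟩ := e2
        rw [Finset.mem_biUnion]
        refine ⟨(t, i), Finset.mem_product.2 ⟨ht, hi⟩, ?_⟩
        simp only [f, Finset.mem_filter, Finset.mem_univ, true_and]
        refine ⟨htv, ?_, hiv⟩
        rintro rfl
        exact hvI hi
      have h1 := Finset.card_le_card hsub
      have h2 := Finset.card_union_le (T ∪ I) ((T ×ˢ I).biUnion f)
      have h3 := Finset.card_union_le T I
      have h4 := Finset.card_biUnion_le_card_mul (T ×ˢ I) f 5 hf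
      rw [Finset.card_product] at h4
      have h5 : T.card * I.card ≤ 3 * 3 := Nat.mul_le_mul hT3 hI3
      rw [Finset.card_univ] at h1
      omega
    · intro a b c d hob
      rcases hob with hob | ⟨n1, n2, n3, n4, n5, n6, e1, e2, e3⟩
      · exact hi ⟨a, b, c, hob⟩
      · have k1 : H.Adj b c := by
          by_contra hcon
          exact hi ⟨a, b, c, n1, n2, n4, e1, e2, hcon⟩
        have k2 : H.Adj b d := by
          by_contra hcon
          exact hi ⟨a, b, d, n1, n3, n5, e1, e3, hcon⟩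
        have k3 : H.Adj c d := by
          by_contra hcon
          exact hi ⟨a, c, d, n2, n3, n6, e2, e3, hcon⟩
        exact h.2 ⟨a, b, c, d, n1, n2, n3, e1, e2, e3, k1, k2, k3⟩
  · left
    intro a b c d hob
    rcases hob with hob | ⟨e1, e2, e3, n1, n2, n3⟩
    · exact ht ⟨a, b, c, hob⟩
    · have k1 : ¬ H.Adj b c := fun hcon => ht ⟨a, b, c, e1, e2, hcon⟩
      have k2 : ¬ H.Adj b d := fun hcon => ht ⟨a, b, d, e1, e3, hcon⟩
      have k3 : ¬ H.Adj c d := fun hcon => ht ⟨a, c, d, e2, e3, hcon⟩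
      exact h.1 ⟨a, b, c, d, e1, e2, e3, n1, n2, n3, k1, k2, k3⟩

/-! ### Contractions, up to renaming -/

/-- `H'` is obtained from `H` by contracting `ab` (into `a`); its vertices are mapped to those of
`H` by `ι`. -/
structure IsContr (H : SimpleGraph V) (a b : V) (H' : SimpleGraph V') (ι : V' → V) : Prop where
  inj : Function.Injective ι
  ran : ∀ v, (∃ x, ι x = v) ↔ v ≠ b
  adj : ∀ x y, H'.Adj x y ↔ x ≠ y ∧
    (H.Adj (ι x) (ι y) ∨ (ι x = a ∧ H.Adj b (ι y)) ∨ (ι y = a ∧ H.Adj b (ι x)))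

section contr

variable {H : SimpleGraph V} {a b : V} {H' : SimpleGraph V'} {ι : V' → V}

theorem IsContr.ne (h : IsContr H a b H' ι) (x : V') : ι x ≠ b := (h.ran _).1 ⟨x, rfl⟩

theorem IsContr.iso (h : IsContr H a b H' ι) : Nonempty (H' ≃g contractEdge H a b) := by
  refine ⟨⟨Equiv.ofBijective (fun x => ⟨ι x, h.ne x⟩) ⟨?_, ?_⟩, ?_⟩⟩
  · intro x y hxy
    exact h.inj (congrArg Subtype.val hxy)
  · rintro ⟨v, hv⟩
    obtain ⟨x, rfl⟩ := (h.ran v).2 hv
    exact ⟨x, rfl⟩
  · intro x y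
    rw [h.adj]
    simp only [contractEdge, Equiv.ofBijective_apply, ne_eq, Subtype.mk.injEq, h.inj.eq_iff]

/-- The retraction. -/
theorem IsContr.retract (h : IsContr H a b H' ι) (hab : H.Adj a b) :
    ∃ r : V → V', (∀ x, r (ι x) = x) ∧ (ι (r b) = a) ∧ (∀ v, v ≠ b → ι (r v) = v) := by
  classical
  have h1 : ∀ v, ∃ x, ι x = if v = b then a else v := by
    intro v
    rw [h.ran]
    split_ifs with hv
    · exact hab.ne
    · exact hv
  choose r hr using h1
  refine ⟨r, ?_, by rw [hr, if_pos rfl], fun v hv => by rw [hr, if_neg hv]⟩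
  intro x
  apply h.inj
  rw [hr, if_neg (h.ne x)]

theorem IsContr.step (h : IsContr H a b H' ι) {r : V → V'}
    (hr2 : ι (r b) = a) (hr3 : ∀ v, v ≠ b → ι (r v) = v) {x y : V} (hxy : H.Adj x y) :
    r x = r y ∨ H'.Adj (r x) (r y) := by
  by_cases hrr : r x = r y
  · exact Or.inl hrr
  right
  rw [h.adj]
  refine ⟨hrr, ?_⟩
  by_cases hx : x = b
  · subst hx
    rw [hr2, hr3 _ hxy.ne']
    exact Or.inr (Or.inl ⟨rfl, hxy⟩)
  · by_cases hy : y = b
    · subst hy
      rw [hr2, hr3 _ hx]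
      exact Or.inr (Or.inr ⟨rfl, hxy.symm⟩)
    · rw [hr3 _ hx, hr3 _ hy]
      exact Or.inl hxy

theorem IsContr.card [Fintype V] [Fintype V'] (h : IsContr H a b H' ι) :
    Fintype.card V = Fintype.card V' + 1 := by
  classical
  obtain ⟨e⟩ := h.iso
  have h1 := Fintype.card_congr e.toEquiv
  have h2 : Fintype.card {w : V // w ≠ b} = Fintype.card V - 1 := by
    have := Fintype.card_subtype_compl (fun w : V => w = b)
    rw [Fintype.card_subtype_eq] at this
    exact this
  have : 0 < Fintype.card V := Fintype.card_pos_iff.2 ⟨b⟩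
  omega

/-- Transport of witness structures. -/
theorem IsContr.witness (h : IsContr H a b H' ι) (hab : H.Adj a b) {c : V → W}
    (hs : Function.Surjective c) (hc : Conn H c) (hcab : c a = c b) :
    Function.Surjective (fun x => c (ι x)) ∧ Conn H' (fun x => c (ι x)) ∧
      quot H' (fun x => c (ι x)) = quot H c := by
  obtain ⟨r, hr1, hr2, hr3⟩ := h.retract hab
  have fr : ∀ x, c (ι (r x)) = c x := by
    intro x
    by_cases hx : x = b
    · rw [hx, hr2, hcab]
    · rw [hr3 _ hx]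
  refine ⟨?_, ?_, ?_⟩
  · intro w
    obtain ⟨x, hx⟩ := hs w
    exact ⟨r x, by rw [← hx]; exact fr x⟩
  · have path : ∀ x y, Relation.ReflTransGen (fun a b => H.Adj a b ∧ c a = c b) x y →
        Relation.ReflTransGen (fun a b => H'.Adj a b ∧ c (ι a) = c (ι b)) (r x) (r y) := by
      intro x y hxy
      induction hxy with
      | refl => exact Relation.ReflTransGen.refl
      | tail _ h2 ih2 =>
          rcases h.step hr2 hr3 h2.1 with h3 | h3
          · rw [← h3]; exact ih2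
          · exact ih2.tail ⟨h3, by rw [fr, fr]; exact h2.2⟩
    intro x y hxy
    have := path (ι x) (ι y) (hc _ _ hxy)
    rwa [hr1, hr1] at this
  · ext u v
    simp only [quot]
    constructor
    · rintro ⟨huv, x, y, rfl, rfl, hxy⟩
      refine ⟨huv, ?_⟩
      rw [h.adj] at hxy
      rcases hxy.2 with h1 | ⟨h1, h2⟩ | ⟨h1, h2⟩
      · exact ⟨ι x, ι y, rfl, rfl, h1⟩
      · exact ⟨b, ι y, by rw [h1, hcab], rfl, h2⟩
      · exact ⟨ι x, b, rfl, by rw [h1, hcab], h2.symm⟩
    · rintro ⟨huv, x, y, rfl, rfl, hxy⟩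
      refine ⟨huv, r x, r y, fr x, fr y, ?_⟩
      rcases h.step hr2 hr3 hxy with h3 | h3
      · exact absurd (by rw [← fr x, ← fr y, h3]) huv
      · exact h3

end contr

/-- A touched vertex has a neighbour in its fibre. -/
theorem touched_edge {H : SimpleGraph V} {c : V → W} (hc : Conn H c) {y : V} (hy : Touched c y) :
    ∃ z, H.Adj y z ∧ c y = c z := by
  obtain ⟨u, hu, huy⟩ := hy
  rcases Relation.ReflTransGen.cases_head (hc y u huy.symm) with h | ⟨z, hz, _⟩
  · exact absurd h.symm hu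
  · exact ⟨z, hz⟩

theorem ObS.touched {H : SimpleGraph V} {f : V → W} (hq : PSp (quot H f)) {a b c d : V}
    (h : ObS H a b c d) : Touched f a ∨ Touched f b ∨ Touched f c ∨ Touched f d := by
  by_contra hcon
  simp only [not_or] at hcon
  obtain ⟨ha, hb, hc, hd⟩ := hcon
  refine hq (f a) (f b) (f c) (f d) ?_
  rcases h with ⟨h1, h2, h3⟩ | ⟨h1, h2, h3, n1, n2, n3⟩
  · left
    rw [quot_adj_untouched ha hb, quot_adj_untouched ha hc, quot_adj_untouched hb hc]
    exact ⟨h1, h2, h3⟩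
  · right
    rw [quot_adj_untouched ha hb, quot_adj_untouched ha hc, quot_adj_untouched ha hd]
    exact ⟨h1, h2, h3, ne_of_untouched hb n1, ne_of_untouched hb n2, ne_of_untouched hc n3⟩

theorem ObD.touched {H : SimpleGraph V} {f : V → W} (hq : PDn (quot H f)) {a b c d : V}
    (h : ObD H a b c d) : Touched f a ∨ Touched f b ∨ Touched f c ∨ Touched f d := by
  by_contra hcon
  simp only [not_or] at hcon
  obtain ⟨ha, hb, hc, hd⟩ := hcon
  refine hq (f a) (f b) (f c) (f d) ?_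
  rcases h with ⟨n1, n2, n3, h1, h2, h3⟩ | ⟨n1, n2, n3, n4, n5, n6, h1, h2, h3⟩
  · left
    rw [quot_adj_untouched ha hb, quot_adj_untouched ha hc, quot_adj_untouched hb hc]
    exact ⟨ne_of_untouched ha n1, ne_of_untouched ha n2, ne_of_untouched hb n3, h1, h2, h3⟩
  · right
    rw [quot_adj_untouched ha hb, quot_adj_untouched ha hc, quot_adj_untouched ha hd]
    exact ⟨ne_of_untouched ha n1, ne_of_untouched ha n2, ne_of_untouched ha n3,
      ne_of_untouched hb n4, ne_of_untouched hb n5, ne_of_untouched hc n6, h1, h2, h3⟩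

/-- Degrees of contractible graphs. -/
theorem sparse_degree [Fintype V] [Fintype W] {H : SimpleGraph V} {f : V → W} {j : ℕ}
    (hs : Function.Surjective f) (hk : Fintype.card V ≤ Fintype.card W + j)
    (hq : PSp (quot H f)) (y : V) (N : Finset V) (hN : ∀ v ∈ N, H.Adj y v) :
    N.card ≤ (j + 1) * 3 := by
  classical
  refine (Finset.card_le_mul_card_image (f := f) N (j + 1) ?_).trans
    (Nat.mul_le_mul_left _ ?_)
  · intro w hw
    obtain ⟨x, hx, rfl⟩ := Finset.mem_image.1 hw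
    set s := N.filter (fun v => f v = f x) with hs'
    have hxs : x ∈ s := Finset.mem_filter.2 ⟨hx, rfl⟩
    have h1 := fiber_card hs hk x (s.erase x) (by simp) (by
      intro v hv
      exact (Finset.mem_filter.1 (Finset.mem_of_mem_erase hv)).2)
    rw [Finset.card_erase_of_mem hxs] at h1
    omega
  · have hsub : N.image f ⊆ insert (f y) (Finset.univ.filter (fun w => (quot H f).Adj (f y) w)) := by
      intro w hw
      obtain ⟨x, hx, rfl⟩ := Finset.mem_image.1 hw
      by_cases h : f x = f y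
      · simp [h]
      · rw [Finset.mem_insert, Finset.mem_filter]
        exact Or.inr ⟨Finset.mem_univ _, quot_adj_of_adj (hN x hx) (fun h' => h h'.symm)⟩
    have h2 : (Finset.univ.filter (fun w => (quot H f).Adj (f y) w)).card ≤ 2 := by
      by_contra hcon
      obtain ⟨a, ha, b, hb, c, hc, hab, hac, hbc⟩ := Finset.two_lt_card.1 (Nat.lt_of_not_le hcon)
      simp only [Finset.mem_filter, Finset.mem_univ, true_and] at ha hb hc
      exact hq (f y) a b c (Or.inr ⟨ha, hb, hc, hab, hac, hbc⟩)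
    have h3 := Finset.card_le_card hsub
    have h4 := Finset.card_insert_le (f y) (Finset.univ.filter (fun w => (quot H f).Adj (f y) w))
    omega

end Pool.Agent.H53
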