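import Pool.Agent.H53.Abs

/-!
# The search steps for dense targets
-/

namespace Pool.Agent.H53

variable {V V' W : Type}

/-- Number of elements with a property. -/
noncomputable def cnt [Fintype V] (p : V → Prop) : ℕ := by
  classical exact (Finset.univ.filter p).card

theorem cnt_le [Fintype V] {p q : V → Prop} (h : ∀ v, p v → q v) : cnt p ≤ cnt q := by
  classical
  exact Finset.card_le_card fun v hv => by
    simp only [Finset.mem_filter, Finset.mem_univ, true_and] at hv ⊢
    exact h v hv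

theorem cnt_map_succ [Fintype V] [Fintype V'] {p' : V' → Prop} {p : V → Prop} {ι : V' → V}
    (hι : Function.Injective ι) (a : V) (h : ∀ x, p' x → p (ι x) ∨ ι x = a) :
    cnt p' ≤ cnt p + 1 := by
  classical
  unfold cnt
  rw [← Finset.card_image_of_injective _ hι]
  refine (Finset.card_le_card (t := insert a (Finset.univ.filter p)) ?_).trans
    (Finset.card_insert_le _ _)
  intro v hv
  obtain ⟨x, hx, rfl⟩ := Finset.mem_image.1 hv
  simp only [Finset.mem_filter, Finset.mem_univ, true_and, Finset.mem_insert] at hx ⊢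
  exact (h x hx).symm

theorem cnt_map_le [Fintype V] [Fintype V'] {p' : V' → Prop} {p : V → Prop} {ι : V' → V}
    (hι : Function.Injective ι) (h : ∀ x, p' x → p (ι x)) : cnt p' ≤ cnt p := by
  classical
  unfold cnt
  rw [← Finset.card_image_of_injective _ hι]
  refine Finset.card_le_card ?_
  intro v hv
  obtain ⟨x, hx, rfl⟩ := Finset.mem_image.1 hv
  simp only [Finset.mem_filter, Finset.mem_univ, true_and] at hx ⊢
  exact h x hx

theorem cnt_map_lt [Fintype V] [Fintype V'] {p' : V' → Prop} {p : V → Prop} {ι : V' → V}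
    (hι : Function.Injective ι) (h : ∀ x, p' x → p (ι x)) (y : V) (hy : p y)
    (hy' : ∀ x, p' x → ι x ≠ y) : cnt p' + 1 ≤ cnt p := by
  classical
  unfold cnt
  have hmem : y ∈ Finset.univ.filter p := by simp [hy]
  have h1 : (Finset.univ.filter p').image ι ⊆ (Finset.univ.filter p).erase y := by
    intro v hv
    obtain ⟨x, hx, rfl⟩ := Finset.mem_image.1 hv
    simp only [Finset.mem_filter, Finset.mem_univ, true_and, Finset.mem_erase] at hx ⊢
    exact ⟨hy' x hx, h x hx⟩
  have h2 := Finset.card_le_card h1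
  rw [Finset.card_image_of_injective _ hι, Finset.card_erase_of_mem hmem] at h2
  have := Finset.card_pos.2 ⟨y, hmem⟩
  omega

theorem cnt_lt [Fintype V] {p q : V → Prop} (h : ∀ v, p v → q v) (y : V) (hy : q y)
    (hy' : ¬ p y) : cnt p + 1 ≤ cnt q :=
  cnt_map_lt (ι := fun v : V => v) (fun _ _ h => h) h y hy (by rintro x hx rfl; exact hy' hx)

/-- The potential of a set of marks. -/
noncomputable def phi [Fintype V] [Fintype W] (f : V → W) (M : Set V) : ℕ :=
  cnt (fun v => Touched f v ∧ v ∉ M) + cnt (fun v => ¬ Touched f v ∧ v ∈ M) +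
    2 * (Fintype.card V - Fintype.card W)

theorem phi_mark [Fintype V] [Fintype W] {f : V → W} {M : Set V} {y : V} (hy : Touched f y)
    (hM : y ∉ M) : phi f (insert y M) + 1 ≤ phi f M := by
  have h1 : cnt (fun v => Touched f v ∧ v ∉ insert y M) + 1 ≤
      cnt (fun v => Touched f v ∧ v ∉ M) := by
    refine cnt_lt ?_ y ⟨hy, hM⟩ ?_
    · intro v hv
      exact ⟨hv.1, fun h => hv.2 (Set.mem_insert_of_mem _ h)⟩
    · intro h
      exact h.2 (Set.mem_insert _ _)
  have h2 : cnt (fun v => ¬ Touched f v ∧ v ∈ insert y M) ≤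
      cnt (fun v => ¬ Touched f v ∧ v ∈ M) := by
    apply cnt_le
    rintro v ⟨h, rfl | h'⟩
    · exact absurd hy h
    · exact ⟨h, h'⟩
  simp only [phi]
  omega

theorem phi_unmark [Fintype V] [Fintype W] {f : V → W} {M : Set V} {y : V} (hy : ¬ Touched f y)
    (hM : y ∈ M) : phi f (M \ {y}) + 1 ≤ phi f M := by
  have h1 : cnt (fun v => Touched f v ∧ v ∉ M \ {y}) ≤ cnt (fun v => Touched f v ∧ v ∉ M) := by
    apply cnt_le
    intro v hv
    refine ⟨hv.1, fun h => hv.2 ⟨h, ?_⟩⟩
    rintro rfl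
    exact hy hv.1
  have h2 : cnt (fun v => ¬ Touched f v ∧ v ∈ M \ {y}) + 1 ≤
      cnt (fun v => ¬ Touched f v ∧ v ∈ M) := by
    refine cnt_lt ?_ y ⟨hy, hM⟩ ?_
    · intro v hv
      exact ⟨hv.1, hv.2.1⟩
    · intro h
      exact h.2.2 rfl
  simp only [phi]
  omega

theorem phi_contr [Fintype V] [Fintype V'] [Fintype W] {H : SimpleGraph V} {a b : V}
    {H' : SimpleGraph V'} {ι : V' → V} (h : IsContr H a b H' ι) (hab : H.Adj a b) {f : V → W}
    (hs : Function.Surjective (fun x => f (ι x))) (hfab : f a = f b) (M : Set V) :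
    phi (fun x => f (ι x)) (ι ⁻¹' M) + 1 ≤ phi f M := by
  have hcard := h.card
  have hle := Fintype.card_le_of_surjective _ hs
  have ht : ∀ x, Touched (fun x => f (ι x)) x → Touched f (ι x) := by
    rintro x ⟨u, hu, huv⟩
    exact ⟨ι u, fun h' => hu (h.inj h'), huv⟩
  have h1 : cnt (fun x => Touched (fun x => f (ι x)) x ∧ x ∉ ι ⁻¹' M) ≤
      cnt (fun v => Touched f v ∧ v ∉ M) :=
    cnt_map_le h.inj fun x hx => ⟨ht x hx.1, hx.2⟩
  have h2 : cnt (fun x => ¬ Touched (fun x => f (ι x)) x ∧ x ∈ ι ⁻¹' M) ≤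
      cnt (fun v => ¬ Touched f v ∧ v ∈ M) + 1 := by
    refine cnt_map_succ h.inj a fun x hx => ?_
    by_cases hT : Touched f (ι x)
    · right
      obtain ⟨u, hu, huv⟩ := hT
      by_contra hxa
      by_cases hub : u = b
      · obtain ⟨a', ha'⟩ := (h.ran a).2 hab.ne
        refine hx.1 ⟨a', ?_, ?_⟩
        · rintro rfl; exact hxa ha'
        · show f (ι a') = f (ι x)
          rw [ha', hfab, ← hub, huv]
      · obtain ⟨u', rfl⟩ := (h.ran u).2 hub
        exact hx.1 ⟨u', fun h' => hu (by rw [h']), huv⟩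
    · left; exact ⟨hT, hx.2⟩
  simp only [phi]
  omega

theorem phi_empty [Fintype V] [Fintype W] {f : V → W} {k : ℕ}
    (hs : Function.Surjective f) (hk : Fintype.card V ≤ Fintype.card W + k) :
    phi f (∅ : Set V) ≤ 4 * k := by
  classical
  have h1 : cnt (fun v => Touched f v ∧ v ∉ (∅ : Set V)) ≤ 2 * k :=
    touched_card hs hk _ (fun v hv => (@Finset.mem_filter _ _ (_) _ _ |>.1 hv).2.1)
  have h2 : cnt (fun v => ¬ Touched f v ∧ v ∈ (∅ : Set V)) = 0 := by
    simp [cnt]
  simp only [phi]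
  omega

/-- Situation of the first phase: `H` can be contracted into a dense graph, with at most `j`
contractions, and the potential of the marks is at most `p`. -/
def G1 [Fintype V] (H : SimpleGraph V) (M : Set V) (p j : ℕ) : Prop :=
  ∃ (W : Type) (_ : Fintype W) (f : V → W), Function.Surjective f ∧ Conn H f ∧
    Fintype.card V ≤ Fintype.card W + j ∧ PDn (quot H f) ∧ phi f M ≤ p

/-- Situation of the second phase. -/
def D2 [Fintype V] (H : SimpleGraph V) (M : Set V) (j : ℕ) : Prop :=
  (∀ a b c d, a ∉ M → b ∉ M → c ∉ M → d ∉ M → ¬ ObD H a b c d) ∧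
  cnt (fun v => v ∈ M) ≤ j ∧
  ∀ m ∈ M, ∃ u, u ∉ M ∧ Relation.ReflTransGen H.Adj m u

/-- The first phase: either it is finished, or a mark can be removed, or two marked vertices can
be merged, or, for every obstruction among the unmarked vertices, one of its vertices can be
marked. -/
theorem G1.step [Fintype V] {H : SimpleGraph V} {M : Set V} {p j : ℕ} (h : G1 H M p j) :
    D2 H M j ∨
    (∃ y ∈ M, ∃ p', p = p' + 1 ∧ G1 H (M \ {y}) p' j) ∨
    (∃ a ∈ M, ∃ b ∈ M, H.Adj a b ∧ ∃ p' j', p = p' + 1 ∧ j = j' + 1 ∧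
      ∀ (V' : Type) [Fintype V'] (H' : SimpleGraph V') (ι : V' → V), IsContr H a b H' ι →
        G1 H' (ι ⁻¹' M) p' j') ∨
    ((∃ a b c d, a ∉ M ∧ b ∉ M ∧ c ∉ M ∧ d ∉ M ∧ ObD H a b c d) ∧
      ∀ a b c d, a ∉ M → b ∉ M → c ∉ M → d ∉ M → ObD H a b c d →
        ∃ y, (y = a ∨ y = b ∨ y = c ∨ y = d) ∧ ∃ p', p = p' + 1 ∧ G1 H (insert y M) p' j) := by
  classical
  obtain ⟨W, hW, f, hs, hc, hk, hq, hp⟩ := h
  by_cases hfull : ∃ w, ∀ v, f v = w → v ∈ M
  · obtain ⟨w, hw⟩ := hfull
    obtain ⟨v, rfl⟩ := hs w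
    by_cases hv : Touched f v
    · right; right; left
      obtain ⟨z, hz, hfz⟩ := touched_edge hc hv
      refine ⟨v, hw v rfl, z, hw z hfz.symm, hz, p - 1, j - 1, ?_, ?_, ?_⟩
      · have h1 : 0 < 2 * (Fintype.card V - Fintype.card W) := by
          have hlt : Fintype.card W < Fintype.card V := by
            refine lt_of_le_of_ne (Fintype.card_le_of_surjective f hs) ?_
            intro heq
            have := ((Fintype.bijective_iff_surjective_and_card f).2 ⟨hs, heq.symm⟩).1
            exact hz.ne (this hfz)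
          omega
        simp only [phi] at hp
        omega
      · have hlt : Fintype.card W < Fintype.card V := by
          refine lt_of_le_of_ne (Fintype.card_le_of_surjective f hs) ?_
          intro heq
          have := ((Fintype.bijective_iff_surjective_and_card f).2 ⟨hs, heq.symm⟩).1
          exact hz.ne (this hfz)
        omega
      · intro V' _ H' ι hι
        obtain ⟨e1, e2, e3⟩ := hι.witness hz hs hc hfz
        have h1 := hι.card
        have h2 := phi_contr hι hz e1 hfz M
        refine ⟨W, hW, fun x => f (ι x), e1, e2, by omega, by rw [e3]; exact hq, by omega⟩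
    · right; left
      have h1 := phi_unmark hv (hw v rfl)
      exact ⟨v, hw v rfl, p - 1, by omega, W, hW, f, hs, hc, hk, hq, by omega⟩
  · simp only [not_exists, not_forall] at hfull
    by_cases hob : ∃ a b c d, a ∉ M ∧ b ∉ M ∧ c ∉ M ∧ d ∉ M ∧ ObD H a b c d
    · right; right; right
      refine ⟨hob, ?_⟩
      intro a b c d ha hb hc' hd ho
      have key : ∀ y, y ∉ M → Touched f y → ∃ p', p = p' + 1 ∧ G1 H (insert y M) p' j := by
        intro y hy hT
        have h1 := phi_mark hT hy
        exact ⟨p - 1, by omega, W, hW, f, hs, hc, hk, hq, by omega⟩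
      rcases ho.touched hq with hT | hT | hT | hT
      · exact ⟨a, Or.inl rfl, key a ha hT⟩
      · exact ⟨b, Or.inr (Or.inl rfl), key b hb hT⟩
      · exact ⟨c, Or.inr (Or.inr (Or.inl rfl)), key c hc' hT⟩
      · exact ⟨d, Or.inr (Or.inr (Or.inr rfl)), key d hd hT⟩
    · left
      refine ⟨fun a b c d ha hb hc hd ho => hob ⟨a, b, c, d, ha, hb, hc, hd, ho⟩, ?_, ?_⟩
      · have h1 : Fintype.card W ≤ (Finset.univ.filter (fun v => v ∉ M)).card := by
          have : Finset.univ ⊆ (Finset.univ.filter (fun v => v ∉ M)).image f := by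
            intro w _
            obtain ⟨v, hv, hvM⟩ := hfull w
            exact Finset.mem_image.2 ⟨v, by simp [hvM], hv⟩
          exact (Finset.card_le_card this).trans Finset.card_image_le
        have h2 := Finset.card_filter_add_card_filter_not (s := (Finset.univ : Finset V))
          (fun v => v ∈ M)
        rw [Finset.card_univ] at h2
        have h3 : cnt (fun v => v ∈ M) = (Finset.univ.filter (fun v => v ∈ M)).card := rfl
        omega
      · intro m hm
        obtain ⟨u, hu, huM⟩ := hfull (f m)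
        refine ⟨u, huM, ?_⟩
        have := hc m u hu.symm
        refine Relation.ReflTransGen.mono ?_ _ _ this
        exact fun a b h => h.1

theorem D2.edge [Fintype V] {H : SimpleGraph V} {M : Set V} {j : ℕ} (h : D2 H M j)
    (hne : M.Nonempty) : ∃ m ∈ M, ∃ u, u ∉ M ∧ H.Adj u m := by
  obtain ⟨m, hm⟩ := hne
  obtain ⟨u, hu, hpath⟩ := h.2.2 m hm
  by_contra hcon
  have : ∀ v, Relation.ReflTransGen H.Adj m v → v ∈ M := by
    intro v hv
    induction hv with
    | refl => exact hm
    | @tail p q _ h2 ih =>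
        by_contra hq
        exact hcon ⟨p, ih, q, hq, h2.symm⟩
  exact hu (this u hpath)

theorem D2.step [Fintype V] [Fintype V'] {H : SimpleGraph V} {M : Set V} {j : ℕ} (h : D2 H M j)
    {m u : V} (hm : m ∈ M) (hadj : H.Adj u m) {H' : SimpleGraph V'} {ι : V' → V}
    (hι : IsContr H u m H' ι) : ∃ j', j = j' + 1 ∧ D2 H' (ι ⁻¹' M) j' := by
  classical
  obtain ⟨h1, h2, h3⟩ := h
  have h4 : cnt (fun x => x ∈ ι ⁻¹' M) + 1 ≤ cnt (fun v => v ∈ M) :=
    cnt_map_lt hι.inj (fun x hx => hx) m hm (fun x _ => hι.ne x)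
  refine ⟨j - 1, by omega, ?_, ?_, ?_⟩
  · intro a b c d ha hb hc hd hob
    apply h1 (ι a) (ι b) (ι c) (ι d) ha hb hc hd
    have key : ∀ x y, ¬ H'.Adj x y → x ≠ y → ¬ H.Adj (ι x) (ι y) := by
      intro x y hn hne hA
      exact hn ((hι.adj x y).2 ⟨hne, Or.inl hA⟩)
    have inj : ∀ {x y}, x ≠ y → ι x ≠ ι y := fun hne h' => hne (hι.inj h')
    rcases hob with ⟨n1, n2, n3, e1, e2, e3⟩ | ⟨n1, n2, n3, n4, n5, n6, e1, e2, e3⟩
    · exact Or.inl ⟨inj n1, inj n2, inj n3, key _ _ e1 n1, key _ _ e2 n2, key _ _ e3 n3⟩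
    · exact Or.inr ⟨inj n1, inj n2, inj n3, inj n4, inj n5, inj n6, key _ _ e1 n1,
        key _ _ e2 n2, key _ _ e3 n3⟩
  · omega
  · intro x hx
    obtain ⟨w, hw, hpath⟩ := h3 (ι x) hx
    obtain ⟨r, hr1, hr2, hr3⟩ := hι.retract hadj
    have hwm : w ≠ m := by rintro rfl; exact hw hm
    refine ⟨r w, ?_, ?_⟩
    · show ι (r w) ∉ M
      rw [hr3 _ hwm]; exact hw
    · have key : ∀ p q, Relation.ReflTransGen H.Adj p q →
          Relation.ReflTransGen H'.Adj (r p) (r q) := by
        intro p q hpq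
        induction hpq with
        | refl => exact Relation.ReflTransGen.refl
        | tail _ h2 ih =>
            rcases hι.step hr2 hr3 h2 with h3 | h3
            · rw [← h3]; exact ih
            · exact ih.tail h3
      have := key _ _ hpath
      rwa [hr1] at this

theorem D2.done [Fintype V] {H : SimpleGraph V} {M : Set V} {j : ℕ} (h : D2 H M j)
    (hne : ¬ M.Nonempty) : NoCC H := by
  have hM : ∀ v, v ∉ M := fun v hv => hne ⟨v, hv⟩
  exact PDn.noCC fun a b c d => h.1 a b c d (hM a) (hM b) (hM c) (hM d)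

end Pool.Agent.H53
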