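import Pool.Agent.H53.ListGraph
import Pool.Agent.H53.Dense

/-!
# The search algorithm on lists
-/

namespace Pool.Agent.H53

/-- A graph: list of vertices, list of adjacent pairs. -/
abbrev LG := List ℕ × List (ℕ × ℕ)

/-- A search state: graph, marked vertices, number of contractions made. -/
abbrev SS := LG × List ℕ × ℕ

/-- Membership. -/
def memB (l : List ℕ) (a : ℕ) : Bool := l.any (fun x => x == a)

theorem memB_iff {l : List ℕ} {a : ℕ} : memB l a = true ↔ a ∈ l := by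
  simp [memB]

/-- Adjacency. -/
def ladj (g : LG) (a b : ℕ) : Bool :=
  (memB g.1 a && memB g.1 b) && (!(a == b) &&
    g.2.any (fun p => (p.1 == a && p.2 == b) || (p.1 == b && p.2 == a)))

theorem ladj_iff {g : LG} {a b : ℕ} : ladj g a b = true ↔ a ∈ g.1 ∧ b ∈ g.1 ∧ a ≠ b ∧
    ((a, b) ∈ g.2 ∨ (b, a) ∈ g.2) := by
  simp only [ladj, Bool.and_eq_true, memB_iff, Bool.not_eq_true', List.any_eq_true,
    Bool.or_eq_true, beq_iff_eq, beq_eq_false_iff_ne, and_assoc]
  refine and_congr_right fun _ => and_congr_right fun _ => and_congr_right fun _ => ?_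
  constructor
  · rintro ⟨⟨p, q⟩, hp, ⟨rfl, rfl⟩ | ⟨rfl, rfl⟩⟩
    · exact Or.inl hp
    · exact Or.inr hp
  · rintro (h | h)
    · exact ⟨_, h, Or.inl ⟨rfl, rfl⟩⟩
    · exact ⟨_, h, Or.inr ⟨rfl, rfl⟩⟩

theorem ladj_symm {g : LG} {a b : ℕ} (h : ladj g a b = true) : ladj g b a = true := by
  rw [ladj_iff] at h ⊢
  exact ⟨h.2.1, h.1, h.2.2.1.symm, h.2.2.2.symm⟩

/-- The graph of the lists. -/
def gr (g : LG) : SimpleGraph {v // v ∈ g.1} where
  Adj x y := ladj g x.1 y.1 = true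
  symm := ⟨fun _ _ h => ladj_symm h⟩
  loopless := ⟨fun _ h => (ladj_iff.1 h).2.2.1 rfl⟩

/-- Renaming. -/
def ren (a b x : ℕ) : ℕ := if x = b then a else x

/-- Contraction. -/
def lcontr (g : LG) (a b : ℕ) : LG :=
  (g.1.filter (fun x => !(x == b)), g.2.map (fun p => (ren a b p.1, ren a b p.2)))

theorem mem_lcontr {g : LG} {a b x : ℕ} : x ∈ (lcontr g a b).1 ↔ x ∈ g.1 ∧ x ≠ b := by
  simp [lcontr]

/-- The inclusion of the vertices after contraction. -/
def linc (g : LG) (a b : ℕ) (x : {v // v ∈ (lcontr g a b).1}) : {v // v ∈ g.1} :=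
  ⟨x.1, (mem_lcontr.1 x.2).1⟩

theorem lcontr_isContr {g : LG} {a b : ℕ} (ha : a ∈ g.1) (hb : b ∈ g.1) (hab : a ≠ b) :
    IsContr (gr g) ⟨a, ha⟩ ⟨b, hb⟩ (gr (lcontr g a b)) (linc g a b) where
  inj x y h := by
    have h1 : (linc g a b x).1 = (linc g a b y).1 := congrArg Subtype.val h
    exact Subtype.ext h1
  ran v := by
    constructor
    · rintro ⟨x, rfl⟩ h
      exact (mem_lcontr.1 x.2).2 (congrArg Subtype.val h)
    · intro hv
      exact ⟨⟨v.1, mem_lcontr.2 ⟨v.2, fun h => hv (Subtype.ext h)⟩⟩, rfl⟩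
  adj x y := by
    obtain ⟨x, hx⟩ := x
    obtain ⟨y, hy⟩ := y
    have hx' := mem_lcontr.1 hx
    have hy' := mem_lcontr.1 hy
    have hren : ∀ p z, z ≠ b → (ren a b p = z ↔ p = z ∨ (z = a ∧ p = b)) := by
      intro p z hz
      unfold ren
      split_ifs with h
      · subst h
        constructor
        · intro h; exact Or.inr ⟨h.symm, rfl⟩
        · rintro (h | h)
          · exact absurd h.symm hz
          · exact h.1.symm
      · constructor
        · intro h; exact Or.inl h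
        · rintro (h' | h')
          · exact h'
          · exact absurd h'.2 h
    show ladj (lcontr g a b) x y = true ↔ _ ∧ (ladj g x y = true ∨ (_ ∧ ladj g b y = true) ∨
      (_ ∧ ladj g b x = true))
    simp only [ladj_iff, linc, Subtype.mk.injEq, ne_eq]
    constructor
    · rintro ⟨-, -, hne, h⟩
      refine ⟨hne, ?_⟩
      have key : ∀ x y, x ≠ b → y ≠ b → (x, y) ∈ (lcontr g a b).2 → x ≠ y →
          (x, y) ∈ g.2 ∨ (x = a ∧ (b, y) ∈ g.2) ∨ (y = a ∧ (x, b) ∈ g.2) := by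
        intro x y hx hy hxy hne
        simp only [lcontr, List.mem_map, Prod.mk.injEq] at hxy
        obtain ⟨⟨p, q⟩, hpq, e1, e2⟩ := hxy
        rw [hren _ _ hx] at e1
        rw [hren _ _ hy] at e2
        simp only at e1 e2
        rcases e1 with e1 | ⟨e1, e1'⟩
        · rcases e2 with e2 | ⟨e2, e2'⟩
          · left; rw [← e1, ← e2]; exact hpq
          · right; right; refine ⟨e2, ?_⟩; rw [← e1, ← e2']; exact hpq
        · rcases e2 with e2 | ⟨e2, e2'⟩
          · right; left; refine ⟨e1, ?_⟩; rw [← e2, ← e1']; exact hpq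
          · exact absurd (e1.trans e2.symm) hne
      rcases h with h | h
      · rcases key x y hx'.2 hy'.2 h hne with h1 | ⟨h1, h2⟩ | ⟨h1, h2⟩
        · exact Or.inl ⟨hx'.1, hy'.1, hne, Or.inl h1⟩
        · exact Or.inr (Or.inl ⟨h1, hb, hy'.1, hy'.2.symm, Or.inl h2⟩)
        · exact Or.inr (Or.inr ⟨h1, hb, hx'.1, hx'.2.symm, Or.inr h2⟩)
      · rcases key y x hy'.2 hx'.2 h (fun h => hne h.symm) with h1 | ⟨h1, h2⟩ | ⟨h1, h2⟩
        · exact Or.inl ⟨hx'.1, hy'.1, hne, Or.inr h1⟩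
        · exact Or.inr (Or.inr ⟨h1, hb, hx'.1, hx'.2.symm, Or.inl h2⟩)
        · exact Or.inr (Or.inl ⟨h1, hb, hy'.1, hy'.2.symm, Or.inr h2⟩)
    · rintro ⟨hne, h⟩
      refine ⟨hx, hy, hne, ?_⟩
      have key : ∀ p q x y, (p, q) ∈ g.2 → ren a b p = x → ren a b q = y →
          (x, y) ∈ (lcontr g a b).2 := by
        rintro p q x y hpq rfl rfl
        exact List.mem_map.2 ⟨(p, q), hpq, rfl⟩
      have rb : ren a b b = a := by simp [ren]
      have rx : ren a b x = x := by simp [ren, hx'.2]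
      have ry : ren a b y = y := by simp [ren, hy'.2]
      rcases h with ⟨-, -, -, h | h⟩ | ⟨h0, -, -, -, h | h⟩ | ⟨h0, -, -, -, h | h⟩
      · exact Or.inl (key _ _ _ _ h rx ry)
      · exact Or.inr (key _ _ _ _ h ry rx)
      · exact Or.inl (key _ _ _ _ h (rb.trans h0.symm) ry)
      · exact Or.inr (key _ _ _ _ h ry (rb.trans h0.symm))
      · exact Or.inr (key _ _ _ _ h (rb.trans h0.symm) rx)
      · exact Or.inl (key _ _ _ _ h rx (rb.trans h0.symm))

/-! ### Tests -/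

/-- Sparse obstructions. -/
def obsB (g : LG) (a b c d : ℕ) : Bool :=
  (ladj g a b && (ladj g a c && ladj g b c)) ||
  ((ladj g a b && (ladj g a c && ladj g a d)) && (!(b == c) && (!(b == d) && !(c == d))))

/-- Dense obstructions. -/
def obdB (g : LG) (a b c d : ℕ) : Bool :=
  ((!(a == b) && (!(a == c) && !(b == c))) &&
    (!(ladj g a b) && (!(ladj g a c) && !(ladj g b c)))) ||
  (((!(a == b) && (!(a == c) && !(a == d))) && (!(b == c) && (!(b == d) && !(c == d)))) &&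
    (!(ladj g a b) && (!(ladj g a c) && !(ladj g a d))))

/-- Claws. -/
def clawB (g : LG) (a b c d : ℕ) : Bool :=
  ((ladj g a b && (ladj g a c && ladj g a d)) && (!(b == c) && (!(b == d) && !(c == d)))) &&
    (!(ladj g b c) && (!(ladj g b d) && !(ladj g c d)))

/-- Co-claws. -/
def coclawB (g : LG) (a b c d : ℕ) : Bool :=
  ((!(a == b) && (!(a == c) && !(a == d))) && (!(ladj g a b) && (!(ladj g a c) && !(ladj g a d)))) &&
    (ladj g b c && (ladj g b d && ladj g c d))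

/-- The final test. -/
def noccB (g : LG) : Bool :=
  g.1.all fun a => g.1.all fun b => g.1.all fun c => g.1.all fun d =>
    !(clawB g a b c d || coclawB g a b c d)

theorem obsB_iff {g : LG} (a b c d : {v // v ∈ g.1}) :
    obsB g a.1 b.1 c.1 d.1 = true ↔ ObS (gr g) a b c d := by
  simp only [obsB, ObS, Bool.and_eq_true, Bool.or_eq_true, Bool.not_eq_true',
    beq_eq_false_iff_ne, gr, ne_eq, Subtype.ext_iff, and_assoc]

theorem obdB_iff {g : LG} (a b c d : {v // v ∈ g.1}) :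
    obdB g a.1 b.1 c.1 d.1 = true ↔ ObD (gr g) a b c d := by
  simp only [obdB, ObD, Bool.and_eq_true, Bool.or_eq_true, Bool.not_eq_true',
    beq_eq_false_iff_ne, gr, ne_eq, Subtype.ext_iff, and_assoc, Bool.not_eq_true]

theorem noccB_iff {g : LG} : noccB g = true ↔ NoCC (gr g) := by
  simp only [noccB, List.all_eq_true, Bool.not_eq_true', Bool.or_eq_false_iff]
  constructor
  · intro h
    constructor
    · rintro ⟨c, x, y, z, h1, h2, h3, h4, h5, h6, h7, h8, h9⟩
      have := (h c.1 c.2 x.1 x.2 y.1 y.2 z.1 z.2).1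
      rw [Bool.eq_false_iff] at this
      apply this
      simp only [clawB, Bool.and_eq_true, Bool.not_eq_true', beq_eq_false_iff_ne, ne_eq]
      simp only [gr, ne_eq, Subtype.ext_iff, Bool.not_eq_true] at h1 h2 h3 h4 h5 h6 h7 h8 h9
      exact ⟨⟨⟨h1, h2, h3⟩, h4, h5, h6⟩, h7, h8, h9⟩
    · rintro ⟨c, x, y, z, h1, h2, h3, h4, h5, h6, h7, h8, h9⟩
      have := (h c.1 c.2 x.1 x.2 y.1 y.2 z.1 z.2).2
      rw [Bool.eq_false_iff] at this
      apply this
      simp only [coclawB, Bool.and_eq_true, Bool.not_eq_true', beq_eq_false_iff_ne, ne_eq]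
      simp only [gr, ne_eq, Subtype.ext_iff, Bool.not_eq_true] at h1 h2 h3 h4 h5 h6 h7 h8 h9
      exact ⟨⟨⟨h1, h2, h3⟩, h4, h5, h6⟩, h7, h8, h9⟩
  · intro h a ha b hb c hc d hd
    constructor
    · rw [Bool.eq_false_iff]
      intro hcl
      apply h.1
      simp only [clawB, Bool.and_eq_true, Bool.not_eq_true', beq_eq_false_iff_ne, ne_eq] at hcl
      obtain ⟨⟨⟨h1, h2, h3⟩, h4, h5, h6⟩, h7, h8, h9⟩ := hcl
      refine ⟨⟨a, ha⟩, ⟨b, hb⟩, ⟨c, hc⟩, ⟨d, hd⟩, ?_⟩
      simp only [gr, ne_eq, Subtype.mk.injEq, Bool.not_eq_true]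
      exact ⟨h1, h2, h3, h4, h5, h6, h7, h8, h9⟩
    · rw [Bool.eq_false_iff]
      intro hcl
      apply h.2
      simp only [coclawB, Bool.and_eq_true, Bool.not_eq_true', beq_eq_false_iff_ne, ne_eq] at hcl
      obtain ⟨⟨⟨h1, h2, h3⟩, h4, h5, h6⟩, h7, h8, h9⟩ := hcl
      refine ⟨⟨a, ha⟩, ⟨b, hb⟩, ⟨c, hc⟩, ⟨d, hd⟩, ?_⟩
      simp only [gr, ne_eq, Subtype.mk.injEq, Bool.not_eq_true]
      exact ⟨h1, h2, h3, h4, h5, h6, h7, h8, h9⟩

/-- All quadruples of elements of a list passing a test. -/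
def quads (l : List ℕ) (t : ℕ → ℕ → ℕ → ℕ → Bool) : List (ℕ × ℕ × ℕ × ℕ) :=
  l.flatMap fun a => l.flatMap fun b => l.flatMap fun c =>
    (l.filter (fun d => t a b c d)).map fun d => (a, b, c, d)

theorem mem_quads {l : List ℕ} {t : ℕ → ℕ → ℕ → ℕ → Bool} {q : ℕ × ℕ × ℕ × ℕ} :
    q ∈ quads l t ↔ q.1 ∈ l ∧ q.2.1 ∈ l ∧ q.2.2.1 ∈ l ∧ q.2.2.2 ∈ l ∧
      t q.1 q.2.1 q.2.2.1 q.2.2.2 = true := by
  obtain ⟨a, b, c, d⟩ := q
  simp only [quads, List.mem_flatMap, List.mem_map, List.mem_filter, Prod.mk.injEq]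
  constructor
  · rintro ⟨a', ha, b', hb, c', hc, d', ⟨hd, ht⟩, rfl, rfl, rfl, rfl⟩
    exact ⟨ha, hb, hc, hd, ht⟩
  · rintro ⟨ha, hb, hc, hd, ht⟩
    exact ⟨a, ha, b, hb, c, hc, d, ⟨hd, ht⟩, rfl, rfl, rfl, rfl⟩

/-- The elements of the first quadruple passing a test. -/
def firstQ (l : List ℕ) (t : ℕ → ℕ → ℕ → ℕ → Bool) : List ℕ :=
  ((quads l t).take 1).flatMap fun q => [q.1, q.2.1, q.2.2.1, q.2.2.2]

theorem firstQ_spec {l : List ℕ} {t : ℕ → ℕ → ℕ → ℕ → Bool}
    (h : ∃ a b c d, a ∈ l ∧ b ∈ l ∧ c ∈ l ∧ d ∈ l ∧ t a b c d = true) :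
    ∃ a b c d, a ∈ l ∧ b ∈ l ∧ c ∈ l ∧ d ∈ l ∧ t a b c d = true ∧
      a ∈ firstQ l t ∧ b ∈ firstQ l t ∧ c ∈ firstQ l t ∧ d ∈ firstQ l t := by
  obtain ⟨a, b, c, d, ha, hb, hc, hd, ht⟩ := h
  have h1 : (a, b, c, d) ∈ quads l t := mem_quads.2 ⟨ha, hb, hc, hd, ht⟩
  cases hq : quads l t with
  | nil => rw [hq] at h1; simp at h1
  | cons q rest =>
      have hqm : q ∈ quads l t := by rw [hq]; simp
      obtain ⟨a', b', c', d'⟩ := q
      obtain ⟨k1, k2, k3, k4, k5⟩ := mem_quads.1 hqm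
      refine ⟨a', b', c', d', k1, k2, k3, k4, k5, ?_⟩
      simp [firstQ, hq]

theorem firstQ_length (l : List ℕ) (t : ℕ → ℕ → ℕ → ℕ → Bool) : (firstQ l t).length ≤ 4 := by
  unfold firstQ
  cases quads l t with
  | nil => simp
  | cons q rest => simp

theorem firstQ_mem {l : List ℕ} {t : ℕ → ℕ → ℕ → ℕ → Bool} {x : ℕ} (h : x ∈ firstQ l t) :
    x ∈ l := by
  simp only [firstQ, List.mem_flatMap] at h
  obtain ⟨q, hq, hx⟩ := h
  obtain ⟨k1, k2, k3, k4, k5⟩ := mem_quads.1 (List.mem_of_mem_take hq)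
  simp only [List.mem_cons, List.not_mem_nil, or_false] at hx
  rcases hx with rfl | rfl | rfl | rfl <;> assumption

/-! ### The search -/

/-- Contraction of a pair. -/
def doC (s : SS) (p : ℕ × ℕ) : SS :=
  (lcontr s.1 p.1 p.2, s.2.1.filter (fun x => !(x == p.2)), s.2.2 + 1)

/-- The unmarked vertices. -/
def unm (s : SS) : List ℕ := s.1.1.filter (fun v => !(memB s.2.1 v))

/-- Candidates for contraction at special vertices. -/
def cS (k : ℕ) (s : SS) : List (ℕ × ℕ) :=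
  (s.1.1.take (k + 51) ++ firstQ s.1.1 (obsB s.1)).flatMap fun a =>
    ((s.1.1.filter (fun b => ladj s.1 a b)).take (3 * k + 51)).map fun b => (a, b)

/-- Candidates for contraction: pairs of marked vertices. -/
def cM (s : SS) : List (ℕ × ℕ) :=
  s.2.1.flatMap fun a => (s.2.1.filter (fun b => ladj s.1 a b)).map fun b => (a, b)

/-- Candidates for contraction: a marked vertex and its first unmarked neighbour. -/
def cA (s : SS) : List (ℕ × ℕ) :=
  s.2.1.flatMap fun m =>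
    ((s.1.1.filter (fun u => !(memB s.2.1 u) && ladj s.1 u m)).take 1).map fun u => (u, m)

/-- The successors of a state. -/
def nexts (k : ℕ) (s : SS) : List SS :=
  (cS k s ++ (cM s ++ cA s)).map (doC s) ++
    ((firstQ (unm s) (obdB s.1)).map (fun y => (s.1, y :: s.2.1, s.2.2)) ++
      s.2.1.map (fun y => (s.1, s.2.1.filter (fun x => !(x == y)), s.2.2)))

/-- Accepting states. -/
def accB (k : ℕ) (s : SS) : Bool := decide (s.2.2 ≤ k) && noccB s.1

/-- One round of the search. -/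
def rnd (k : ℕ) (S : List SS) : List SS := S ++ S.flatMap (nexts k)

/-- The initial graph. -/
def iniG (n : ℕ) (A : List (List Bool)) : LG :=
  (List.range n, (List.range n).flatMap fun i =>
    ((List.range n).filter (fun j => look A i j)).map fun j => (i, j))

/-- The algorithm. -/
def alg (x : RawI) : Bool :=
  ((rnd x.2.2)^[5 * x.2.2] [(iniG x.1 x.2.1, [], 0)]).any (accB x.2.2)

end Pool.Agent.H53
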