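import Pool.Agent.H53.AlgSound

/-!
# Completeness of the search
-/

namespace Pool.Agent.H53

/-- An accepting state can be reached within the given number of rounds. -/
def Acc (k : ℕ) : ℕ → SS → Prop
  | 0, s => accB k s = true
  | i + 1, s => accB k s = true ∨ ∃ s' ∈ nexts k s, Acc k i s'

theorem Acc.of_acc {k : ℕ} {s : SS} (h : accB k s = true) (i : ℕ) : Acc k i s := by
  cases i with
  | zero => exact h
  | succ i => exact Or.inl h

theorem Acc.succ {k i : ℕ} {s : SS} (h : Acc k i s) : Acc k (i + 1) s := by
  induction i generalizing s with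
  | zero => exact Or.inl h
  | succ i ih =>
      rcases h with h | ⟨s', hs', h⟩
      · exact Or.inl h
      · exact Or.inr ⟨s', hs', ih h⟩

theorem Acc.mono {k i i' : ℕ} (hi : i ≤ i') {s : SS} (h : Acc k i s) : Acc k i' s := by
  induction hi with
  | refl => exact h
  | step _ ih => exact ih.succ

theorem Acc.run {k i : ℕ} {s : SS} (h : Acc k i s) {S : List SS} (hs : s ∈ S) :
    ∃ s' ∈ (rnd k)^[i] S, accB k s' = true := by
  induction i generalizing s S with
  | zero => exact ⟨s, hs, h⟩
  | succ i ih =>
      rw [Function.iterate_succ_apply]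
      rcases h with h | ⟨s', hs', h⟩
      · exact ih (Acc.of_acc h i) (List.mem_append_left _ hs)
      · exact ih h (List.mem_append_right _ (List.mem_flatMap.2 ⟨s, hs, hs'⟩))

theorem accB_iff {k : ℕ} {s : SS} : accB k s = true ↔ s.2.2 ≤ k ∧ NoCC (gr s.1) := by
  rw [accB, Bool.and_eq_true, decide_eq_true_eq, noccB_iff]

/-! ### Small graphs -/

theorem small_acc {k j : ℕ} : ∀ {s : SS}, s.1.1.length ≤ k + 51 → CanContract P2 j (gr s.1) →
    s.2.2 + j ≤ k → Acc k j s := by
  induction j with
  | zero =>
      intro s hl h hj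
      exact accB_iff.2 ⟨hj, (P2_iff _).1 (canContract_zero.1 h)⟩
  | succ j ih =>
      intro s hl h hj
      rcases canContract_succ.1 h with h | ⟨⟨a, ha⟩, ⟨b, hb⟩, hab, h⟩
      · exact Or.inl (accB_iff.2 ⟨by omega, (P2_iff _).1 h⟩)
      · right
        have hne : a ≠ b := (ladj_iff.1 hab).2.2.1
        refine ⟨doC s (a, b), ?_, ih ?_ ?_ ?_⟩
        · rw [nexts, List.mem_append]
          left
          refine List.mem_map.2 ⟨(a, b), ?_, rfl⟩
          rw [List.mem_append]
          left
          rw [cS, List.mem_flatMap]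
          refine ⟨a, ?_, ?_⟩
          · rw [List.mem_append, List.take_of_length_le hl]
            exact Or.inl ha
          · refine List.mem_map.2 ⟨b, ?_, rfl⟩
            rw [List.take_of_length_le ((List.length_filter_le _ _).trans (by omega))]
            exact List.mem_filter.2 ⟨hb, hab⟩
        · exact (List.length_filter_le _ _).trans hl
        · obtain ⟨e⟩ := (lcontr_isContr ha hb hne).iso
          exact CanContract.iso P2_inv e.symm h
        · show s.2.2 + 1 + j ≤ k
          omega

/-! ### Sparse targets -/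

theorem sparse_acc {k j : ℕ} : ∀ {s : SS}, s.1.1.Nodup →
    (∃ (W : Type) (_ : Fintype W) (f : {v // v ∈ s.1.1} → W), Function.Surjective f ∧
      Conn (gr s.1) f ∧ Fintype.card {v // v ∈ s.1.1} ≤ Fintype.card W + j ∧
      PSp (quot (gr s.1) f)) → s.2.2 + j ≤ k → Acc k j s := by
  classical
  induction j with
  | zero =>
      rintro s hnd ⟨W, hW, f, hs, hc, hk, hq⟩ hj
      refine accB_iff.2 ⟨hj, PSp.noCC ?_⟩
      intro a b c d hob
      have hinj : Function.Injective f :=
        ((Fintype.bijective_iff_surjective_and_card f).2 ⟨hs, le_antisymm hk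
          (Fintype.card_le_of_surjective f hs)⟩).1
      have hT : ∀ v, ¬ Touched f v := by
        rintro v ⟨u, hu, huv⟩
        exact hu (hinj huv)
      rcases hob.touched hq with h | h | h | h <;> exact hT _ h
  | succ j ih =>
      rintro s hnd ⟨W, hW, f, hs, hc, hk, hq⟩ hj
      by_cases hps : PSp (gr s.1)
      · exact Or.inl (accB_iff.2 ⟨by omega, hps.noCC⟩)
      · right
        have hex : ∃ a b c d, a ∈ s.1.1 ∧ b ∈ s.1.1 ∧ c ∈ s.1.1 ∧ d ∈ s.1.1 ∧
            obsB s.1 a b c d = true := by
          simp only [PSp, not_forall, not_not] at hps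
          obtain ⟨a, b, c, d, hob⟩ := hps
          exact ⟨a.1, b.1, c.1, d.1, a.2, b.2, c.2, d.2, (obsB_iff a b c d).2 hob⟩
        obtain ⟨a, b, c, d, ha, hb, hc', hd, ht, ka, kb, kc, kd⟩ := firstQ_spec hex
        have hob := (obsB_iff ⟨a, ha⟩ ⟨b, hb⟩ ⟨c, hc'⟩ ⟨d, hd⟩).1 ht
        obtain ⟨y, hyq, hyT⟩ : ∃ y : {v // v ∈ s.1.1}, y.1 ∈ firstQ s.1.1 (obsB s.1) ∧
            Touched f y := by
          rcases hob.touched hq with h | h | h | h
          · exact ⟨_, ka, h⟩
          · exact ⟨_, kb, h⟩
          · exact ⟨_, kc, h⟩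
          · exact ⟨_, kd, h⟩
        obtain ⟨z, hz, hfz⟩ := touched_edge hc hyT
        obtain ⟨y, hy⟩ := y
        obtain ⟨z, hz'⟩ := z
        have hyz : ladj s.1 y z = true := hz
        have hne : y ≠ z := (ladj_iff.1 hyz).2.2.1
        have hcon := lcontr_isContr hy hz' hne
        obtain ⟨e1, e2, e3⟩ := hcon.witness hz hs hc hfz
        have e4 := hcon.card
        refine ⟨doC s (y, z), ?_, ih ?_ ?_ ?_⟩
        · rw [nexts, List.mem_append]
          left
          refine List.mem_map.2 ⟨(y, z), ?_, rfl⟩
          rw [List.mem_append]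
          left
          rw [cS, List.mem_flatMap]
          refine ⟨y, List.mem_append_right _ hyq, ?_⟩
          refine List.mem_map.2 ⟨z, ?_, rfl⟩
          have hlen : (s.1.1.filter (fun b => ladj s.1 y b)).length ≤ 3 * k + 51 := by
            let N : Finset {v // v ∈ s.1.1} := Finset.univ.filter (fun v => ladj s.1 y v.1 = true)
            have h1 : N.card ≤ (j + 1 + 1) * 3 := sparse_degree hs hk hq ⟨y, hy⟩ N (by
              intro v hv
              exact (Finset.mem_filter.1 hv).2)
            have h2 : (s.1.1.filter (fun b => ladj s.1 y b)).toFinset = N.image Subtype.val := by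
              ext v
              simp only [List.mem_toFinset, List.mem_filter, Finset.mem_image, N,
                Finset.mem_filter, Finset.mem_univ, true_and]
              constructor
              · rintro ⟨hv, hadj⟩
                exact ⟨⟨v, hv⟩, hadj, rfl⟩
              · rintro ⟨w, hw, rfl⟩
                exact ⟨w.2, hw⟩
            have h3 := List.toFinset_card_of_nodup (hnd.filter (fun b => ladj s.1 y b))
            rw [h2, Finset.card_image_of_injective _ Subtype.val_injective] at h3
            omega
          rw [List.take_of_length_le hlen]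
          exact List.mem_filter.2 ⟨hz', hyz⟩
        · exact hnd.filter _
        · exact ⟨W, hW, _, e1, e2, by
            have : Fintype.card {v // v ∈ (doC s (y, z)).1.1} =
              Fintype.card {v // v ∈ (lcontr s.1 y z).1} := rfl
            omega, by
            have h5 : PSp (quot (gr (lcontr s.1 y z)) (fun x => f (linc s.1 y z x))) := by
              rw [e3]; exact hq
            exact h5⟩
        · show s.2.2 + 1 + j ≤ k
          omega

/-! ### Dense targets -/

/-- The marks, as a set of vertices. -/
def marks (s : SS) : Set {v // v ∈ s.1.1} := {v | v.1 ∈ s.2.1}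

theorem marks_doC (s : SS) (a b : ℕ) :
    marks (doC s (a, b)) = linc s.1 a b ⁻¹' marks s := by
  ext x
  have hx := (mem_lcontr.1 x.2).2
  show x.1 ∈ s.2.1.filter (fun y => !(y == b)) ↔ x.1 ∈ s.2.1
  simp [hx]

theorem D2.acc {k j : ℕ} : ∀ {s : SS}, D2 (gr s.1) (marks s) j → s.2.2 + j ≤ k → Acc k j s := by
  induction j with
  | zero =>
      intro s h hj
      by_cases hne : (marks s).Nonempty
      · obtain ⟨m, hm, u, hu, hadj⟩ := h.edge hne
        obtain ⟨j', hj', _⟩ := h.step hm hadj
          (lcontr_isContr u.2 m.2 (fun h' => hadj.ne (Subtype.ext h')))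
        omega
      · exact accB_iff.2 ⟨hj, h.done hne⟩
  | succ j ih =>
      intro s h hj
      by_cases hne : (marks s).Nonempty
      · right
        obtain ⟨m, hm, u, hu, hadj⟩ := h.edge hne
        obtain ⟨m, hm'⟩ := m
        obtain ⟨u, hu'⟩ := u
        have hadj' : ladj s.1 u m = true := hadj
        cases hq : s.1.1.filter (fun u => !(memB s.2.1 u) && ladj s.1 u m) with
        | nil =>
            exfalso
            have : u ∈ s.1.1.filter (fun u => !(memB s.2.1 u) && ladj s.1 u m) := by
              rw [List.mem_filter, Bool.and_eq_true, Bool.not_eq_true', Bool.eq_false_iff,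
                ne_eq, memB_iff]
              exact ⟨hu', hu, hadj'⟩
            rw [hq] at this
            simp at this
        | cons w rest =>
            have hw : w ∈ s.1.1.filter (fun u => !(memB s.2.1 u) && ladj s.1 u m) := by
              rw [hq]; simp
            rw [List.mem_filter, Bool.and_eq_true, Bool.not_eq_true', Bool.eq_false_iff,
              ne_eq, memB_iff] at hw
            obtain ⟨hw1, hw2, hw3⟩ := hw
            have hne' : w ≠ m := (ladj_iff.1 hw3).2.2.1
            obtain ⟨j', hj', hD⟩ := h.step (m := ⟨m, hm'⟩) (u := ⟨w, hw1⟩) hm hw3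
              (lcontr_isContr hw1 hm' hne')
            have hjj : j' = j := by omega
            subst hjj
            refine ⟨doC s (w, m), ?_, ih ?_ ?_⟩
            · rw [nexts, List.mem_append]
              left
              refine List.mem_map.2 ⟨(w, m), ?_, rfl⟩
              rw [List.mem_append, List.mem_append]
              right; right
              rw [cA, List.mem_flatMap]
              refine ⟨m, hm, ?_⟩
              rw [hq]
              simp
            · rw [marks_doC]; exact hD
            · show s.2.2 + 1 + j' ≤ k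
              omega
      · exact Or.inl (accB_iff.2 ⟨by omega, h.done hne⟩)

theorem G1.acc {k p : ℕ} : ∀ {j : ℕ} {s : SS}, G1 (gr s.1) (marks s) p j → s.2.2 + j ≤ k →
    Acc k (p + j) s := by
  induction p with
  | zero =>
      intro j s h hj
      rcases h.step with h | ⟨_, _, p', hp, _⟩ | ⟨_, _, _, _, _, p', _, hp, _⟩ |
        ⟨⟨a, b, c, d, ha, hb, hc, hd, hob⟩, h⟩
      · exact (h.acc hj).mono (by omega)
      · omega
      · omega
      · obtain ⟨_, _, p', hp, _⟩ := h a b c d ha hb hc hd hob
        omega
  | succ p ih =>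
      intro j s h hj
      rcases h.step with h2 | ⟨y, hy, p', hp, h2⟩ | ⟨a, ha, b, hb, hab, p', j', hp, hj', h2⟩ |
        ⟨⟨a, b, c, d, ha, hb, hc, hd, hob⟩, h2⟩
      · exact (h2.acc hj).mono (by omega)
      · have hpp : p' = p := by omega
        subst hpp
        have hy' : y.1 ∈ s.2.1 := hy
        have e : p' + 1 + j = p' + j + 1 := by omega
        rw [e]
        right
        refine ⟨(s.1, s.2.1.filter (fun x => !(x == y.1)), s.2.2), ?_, ih ?_ hj⟩
        · rw [nexts, List.mem_append, List.mem_append]
          right; right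
          exact List.mem_map.2 ⟨y.1, hy', rfl⟩
        · have : marks (s.1, s.2.1.filter (fun x => !(x == y.1)), s.2.2) = marks s \ {y} := by
            ext x
            show x.1 ∈ s.2.1.filter (fun x => !(x == y.1)) ↔ x.1 ∈ s.2.1 ∧ x ∉ ({y} : Set _)
            rw [List.mem_filter, Set.mem_singleton_iff, Subtype.ext_iff]
            simp
          rw [this]; exact h2
      · have hpp : p' = p := by omega
        subst hpp
        subst hj'
        obtain ⟨a, ha'⟩ := a
        obtain ⟨b, hb'⟩ := b
        have hab' : ladj s.1 a b = true := hab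
        have hne : a ≠ b := (ladj_iff.1 hab').2.2.1
        refine Acc.mono (i := p' + j' + 1) (by omega) ?_
        right
        refine ⟨doC s (a, b), ?_, ih ?_ ?_⟩
        · rw [nexts, List.mem_append]
          left
          refine List.mem_map.2 ⟨(a, b), ?_, rfl⟩
          rw [List.mem_append, List.mem_append]
          right; left
          rw [cM, List.mem_flatMap]
          refine ⟨a, ha, ?_⟩
          refine List.mem_map.2 ⟨b, ?_, rfl⟩
          exact List.mem_filter.2 ⟨hb, hab'⟩
        · rw [marks_doC]
          exact h2 _ _ _ (lcontr_isContr ha' hb' hne)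
        · show s.2.2 + 1 + j' ≤ k
          omega
      · have hmem : ∀ x : {v // v ∈ s.1.1}, x ∉ marks s ↔ x.1 ∈ unm s := by
          intro x
          show ¬ (x.1 ∈ s.2.1) ↔ _
          rw [unm, List.mem_filter, Bool.not_eq_true', Bool.eq_false_iff, ne_eq, memB_iff]
          exact ⟨fun h => ⟨x.2, h⟩, fun h => h.2⟩
        have hsub : ∀ {x}, x ∈ unm s → x ∈ s.1.1 := fun h => (List.mem_filter.1 h).1
        have hex : ∃ a b c d, a ∈ unm s ∧ b ∈ unm s ∧ c ∈ unm s ∧ d ∈ unm s ∧
            obdB s.1 a b c d = true :=
          ⟨a.1, b.1, c.1, d.1, (hmem _).1 ha, (hmem _).1 hb, (hmem _).1 hc, (hmem _).1 hd,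
            (obdB_iff a b c d).2 hob⟩
        obtain ⟨a, b, c, d, ha, hb, hc', hd, ht, ka, kb, kc, kd⟩ := firstQ_spec hex
        obtain ⟨y, hyq, p', hp, hG⟩ := h2 ⟨a, hsub ha⟩ ⟨b, hsub hb⟩ ⟨c, hsub hc'⟩ ⟨d, hsub hd⟩
          ((hmem _).2 ha) ((hmem _).2 hb) ((hmem _).2 hc') ((hmem _).2 hd)
          ((obdB_iff ⟨a, hsub ha⟩ ⟨b, hsub hb⟩ ⟨c, hsub hc'⟩ ⟨d, hsub hd⟩).1 ht)
        have hpp : p' = p := by omega
        subst hpp
        have hyf : y.1 ∈ firstQ (unm s) (obdB s.1) := by
          rcases hyq with h | h | h | h <;> rw [h]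
          · exact ka
          · exact kb
          · exact kc
          · exact kd
        refine Acc.mono (i := p' + j + 1) (by omega) ?_
        right
        refine ⟨(s.1, y.1 :: s.2.1, s.2.2), ?_, ih ?_ hj⟩
        · rw [nexts, List.mem_append, List.mem_append]
          right; left
          exact List.mem_map.2 ⟨y.1, hyf, rfl⟩
        · have : marks (s.1, y.1 :: s.2.1, s.2.2) = insert y (marks s) := by
            ext x
            show x.1 ∈ y.1 :: s.2.1 ↔ x = y ∨ x.1 ∈ s.2.1
            rw [List.mem_cons, Subtype.ext_iff]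
          rw [this]; exact hG

/-! ### The main theorem -/

theorem alg_complete {x : RawI} (h : CanContract P2 x.2.2 (gr (iniG x.1 x.2.1))) :
    alg x = true := by
  set s0 : SS := (iniG x.1 x.2.1, [], 0) with hs0
  have hacc : Acc x.2.2 (5 * x.2.2) s0 := by
    by_cases hn : x.1 ≤ x.2.2 + 51
    · refine (small_acc (s := s0) (k := x.2.2) (j := x.2.2) ?_ h (by simp [hs0])).mono (by omega)
      show (List.range x.1).length ≤ _
      rw [List.length_range]
      exact hn
    · obtain ⟨W, hW, f, hs, hc, hk, hq⟩ := h.witness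
      rw [P2_iff] at hq
      have hcard : Fintype.card {v // v ∈ s0.1.1} = x.1 := by
        have e : {v // v ∈ s0.1.1} ≃ Fin x.1 :=
          ⟨fun v => ⟨v.1, List.mem_range.1 v.2⟩, fun v => ⟨v.1, List.mem_range.2 v.2⟩,
            fun _ => rfl, fun _ => rfl⟩
        rw [Fintype.card_congr e, Fintype.card_fin]
      have hcard' : Fintype.card {v // v ∈ (iniG x.1 x.2.1).1} = x.1 := hcard
      rcases hq.sparse_or_dense (by omega) with hq | hq
      · exact (sparse_acc (s := s0) (k := x.2.2) (j := x.2.2) List.nodup_range
          ⟨W, hW, f, hs, hc, hk, hq⟩ (by simp [hs0])).mono (by omega)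
      · have hG : G1 (gr s0.1) (marks s0) (4 * x.2.2) x.2.2 := by
          refine ⟨W, hW, f, hs, hc, hk, hq, ?_⟩
          have hm : marks s0 = ∅ := by
            ext v
            simp [marks, hs0]
          rw [hm]
          exact phi_empty hs hk
        exact (hG.acc (by simp [hs0])).mono (by omega)
  obtain ⟨s', hs', hacc'⟩ := hacc.run (S := [s0]) (by simp)
  rw [alg, List.any_eq_true]
  exact ⟨s', hs', hacc'⟩

theorem alg_correct (x : Instance) : alg (raw x) = true ↔ FreeContraction₂ claw coclaw x := by
  obtain ⟨e⟩ := iniG_iso x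
  constructor
  · intro h
    exact CanContract.iso P2_inv e (alg_sound h)
  · intro h
    exact alg_complete (CanContract.iso P2_inv e.symm h)

end Pool.Agent.H53
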