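import Pool.Agent.H53.AlgTime

/-!
# Sizes of the search states, and the polynomial bound with padding
-/

namespace Pool.Agent.H53

/-- Size invariant of states. -/
structure Bd (n i : ℕ) (s : SS) : Prop where
  v1 : s.1.1.length ≤ n
  v2 : ∀ v ∈ s.1.1, v < n
  e1 : s.1.2.length ≤ n * n
  e2 : ∀ p ∈ s.1.2, p.1 < n ∧ p.2 < n
  m1 : s.2.1.length ≤ i
  m2 : ∀ v ∈ s.2.1, v < n
  c1 : s.2.2 ≤ i

theorem Bd.mono {n i j : ℕ} {s : SS} (h : Bd n i s) (hij : i ≤ j) : Bd n j s :=
  ⟨h.v1, h.v2, h.e1, h.e2, h.m1.trans hij, h.m2, h.c1.trans hij⟩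

/-- Bound on the size of a state. -/
def szB (n i : ℕ) : ℕ :=
  (n * (2 * n + 1 + 1) + 1 + (n * n * (4 * n + 3 + 1) + 1) + 1) +
    (i * (2 * n + 1 + 1) + 1 + (2 * i + 1) + 1) + 1

theorem sz_list_nat {l : List ℕ} {n m : ℕ} (h : ∀ v ∈ l, v < n) (hl : l.length ≤ m) :
    sz l ≤ m * (2 * n + 1 + 1) + 1 := by
  refine (sz_le_of_forall (M := 2 * n + 1) ?_).trans ?_
  · intro v hv
    have := h v hv
    rw [sz_nat]; omega
  · exact Nat.add_le_add (Nat.mul_le_mul_right _ hl) le_rfl

theorem Bd.size {n i : ℕ} {s : SS} (h : Bd n i s) : sz s ≤ szB n i := by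
  have h1 : sz s.1.1 ≤ n * (2 * n + 1 + 1) + 1 := sz_list_nat h.v2 h.v1
  have h2 : sz s.1.2 ≤ n * n * (4 * n + 3 + 1) + 1 := by
    refine (sz_le_of_forall (M := 4 * n + 3) ?_).trans ?_
    · intro p hp
      have := h.e2 p hp
      rw [sz_pair, sz_nat, sz_nat]; omega
    · exact Nat.add_le_add (Nat.mul_le_mul_right _ h.e1) le_rfl
  have h3 : sz s.2.1 ≤ i * (2 * n + 1 + 1) + 1 := sz_list_nat h.m2 h.m1
  have h4 : sz s.2.2 ≤ 2 * i + 1 := by
    have := h.c1
    rw [sz_nat]; omega
  have h5 : sz s = sz s.1.1 + sz s.1.2 + 1 + (sz s.2.1 + sz s.2.2 + 1) + 1 := rfl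
  rw [h5, szB]
  omega

theorem Bd.nexts {n i k : ℕ} {s s' : SS} (h : Bd n i s) (hs : s' ∈ nexts k s) :
    Bd n (i + 1) s' := by
  rw [H53.nexts, List.mem_append, List.mem_append] at hs
  rcases hs with hs | hs | hs
  · obtain ⟨p, hp, rfl⟩ := List.mem_map.1 hs
    have hadj := ladj_iff.1 (cand_adj hp)
    have hp1 := h.v2 _ hadj.1
    have hren : ∀ x, x < n → ren p.1 p.2 x < n := by
      intro x hx
      unfold ren
      split_ifs
      · exact hp1
      · exact hx
    refine ⟨(List.length_filter_le _ _).trans h.v1, ?_, ?_, ?_,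
      (List.length_filter_le _ _).trans (h.m1.trans (Nat.le_succ _)), ?_, ?_⟩
    · intro v hv
      exact h.v2 v (List.mem_filter.1 hv).1
    · show (s.1.2.map _).length ≤ n * n
      rw [List.length_map]; exact h.e1
    · intro q hq
      obtain ⟨q', hq', rfl⟩ := List.mem_map.1 (show q ∈ s.1.2.map _ from hq)
      exact ⟨hren _ (h.e2 _ hq').1, hren _ (h.e2 _ hq').2⟩
    · intro v hv
      exact h.m2 v (List.mem_filter.1 hv).1
    · exact Nat.succ_le_succ h.c1
  · obtain ⟨y, hy, rfl⟩ := List.mem_map.1 hs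
    have hy' : y ∈ s.1.1 := (List.mem_filter.1 (firstQ_mem hy)).1
    refine ⟨h.v1, h.v2, h.e1, h.e2, Nat.succ_le_succ h.m1, ?_, h.c1.trans (Nat.le_succ _)⟩
    intro v hv
    rcases List.mem_cons.1 hv with rfl | hv
    · exact h.v2 _ hy'
    · exact h.m2 v hv
  · obtain ⟨y, hy, rfl⟩ := List.mem_map.1 hs
    refine ⟨h.v1, h.v2, h.e1, h.e2,
      (List.length_filter_le _ _).trans (h.m1.trans (Nat.le_succ _)), ?_,
      h.c1.trans (Nat.le_succ _)⟩
    intro v hv
    exact h.m2 v (List.mem_filter.1 hv).1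

theorem length_flatMap_le {α β : Type} {l : List α} {f : α → List β} {c : ℕ}
    (h : ∀ a ∈ l, (f a).length ≤ c) : (l.flatMap f).length ≤ l.length * c := by
  induction l with
  | nil => simp
  | cons a l ih =>
      rw [List.flatMap_cons, List.length_append, List.length_cons, Nat.succ_mul]
      have h1 := h a (List.mem_cons_self ..)
      have h2 := ih fun b hb => h b (List.mem_cons_of_mem _ hb)
      omega

/-- Bound on the number of successors. -/
def nB (k m : ℕ) : ℕ := ((k + 55) * (3 * k + 51) + (m * m + m)) + (4 + m)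

theorem nexts_length {k m : ℕ} {s : SS} (h : s.2.1.length ≤ m) :
    (nexts k s).length ≤ nB k m := by
  have h1 : (cS k s).length ≤ (k + 55) * (3 * k + 51) := by
    refine (length_flatMap_le (c := 3 * k + 51) ?_).trans (Nat.mul_le_mul_right _ ?_)
    · intro a _
      rw [List.length_map]
      exact List.length_take_le _ _
    · have := firstQ_length s.1.1 (obsB s.1)
      have := List.length_take_le (k + 51) s.1.1
      rw [List.length_append]
      omega
  have h2 : (cM s).length ≤ m * m := by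
    refine (length_flatMap_le (c := m) ?_).trans (Nat.mul_le_mul_right _ h)
    intro a _
    rw [List.length_map]
    exact (List.length_filter_le _ _).trans h
  have h3 : (cA s).length ≤ m := by
    refine (length_flatMap_le (c := 1) ?_).trans (by omega)
    intro a _
    rw [List.length_map]
    exact List.length_take_le _ _
  have h4 := firstQ_length (unm s) (obdB s.1)
  simp only [nexts, List.length_append, List.length_map, nB]
  omega

/-- Bound on the number of states. -/
def nS (k : ℕ) : ℕ := (1 + nB k (5 * k)) ^ (5 * k)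

theorem rnd_bound {n k : ℕ} {s0 : SS} (h0 : Bd n 0 s0) (i : ℕ) (hi : i ≤ 5 * k) :
    (∀ s ∈ (rnd k)^[i] [s0], Bd n i s) ∧
      ((rnd k)^[i] [s0]).length ≤ (1 + nB k (5 * k)) ^ i := by
  induction i with
  | zero =>
      refine ⟨?_, by simp⟩
      intro s hs
      have : s = s0 := by simpa using hs
      rw [this]; exact h0
  | succ i ih =>
      obtain ⟨ih1, ih2⟩ := ih (by omega)
      rw [Function.iterate_succ_apply']
      constructor
      · intro s hs
        rw [rnd, List.mem_append, List.mem_flatMap] at hs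
        rcases hs with hs | ⟨s1, hs1, hs⟩
        · exact (ih1 s hs).mono (Nat.le_succ _)
        · exact (ih1 s1 hs1).nexts hs
      · rw [rnd, List.length_append]
        have h1 : (((rnd k)^[i] [s0]).flatMap (nexts k)).length ≤
            ((rnd k)^[i] [s0]).length * nB k (5 * k) := by
          apply length_flatMap_le
          intro s hs
          exact nexts_length ((ih1 s hs).m1.trans (by omega))
        have h2 : ((rnd k)^[i] [s0]).length * (1 + nB k (5 * k)) ≤
            (1 + nB k (5 * k)) ^ i * (1 + nB k (5 * k)) := Nat.mul_le_mul_right _ ih2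
        rw [pow_succ]
        have h3 : ((rnd k)^[i] [s0]).length * (1 + nB k (5 * k)) =
          ((rnd k)^[i] [s0]).length + ((rnd k)^[i] [s0]).length * nB k (5 * k) := by ring
        omega

theorem iniG_bd (n : ℕ) (A : List (List Bool)) : Bd n 0 (iniG n A, [], 0) := by
  refine ⟨?_, ?_, ?_, ?_, ?_, ?_, ?_⟩
  · show (List.range n).length ≤ n
    rw [List.length_range]
  · intro v hv
    exact List.mem_range.1 hv
  · refine (length_flatMap_le (c := n) ?_).trans ?_
    · intro i _
      rw [List.length_map]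
      exact (List.length_filter_le _ _).trans (by rw [List.length_range])
    · rw [List.length_range]
  · intro p hp
    simp only [iniG, List.mem_flatMap, List.mem_map, List.mem_filter, List.mem_range] at hp
    obtain ⟨i, hi, j, ⟨hj, _⟩, rfl⟩ := hp
    exact ⟨hi, hj⟩
  · exact le_rfl
  · intro v hv
    simp at hv
  · exact le_rfl

/-- Padded inputs. -/
abbrev Padded := {a : RawI × ℕ // nS a.1.2.2 ≤ a.2}

/-- The bound on the size of the search, for padded inputs. -/
def qB (m : ℕ) : ℕ := m * (szB m (5 * m) + 1) + 1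

theorem qB_PB : PB qB := by
  unfold qB szB
  have i := PB.id
  have c : ∀ k, PB (fun _ => k) := PB.const
  have h1 : PB (fun m => 2 * m + 1 + 1) := (((c 2).mul i).add (c 1)).add (c 1)
  have h2 : PB (fun m => 4 * m + 3 + 1) := (((c 4).mul i).add (c 3)).add (c 1)
  have h3 : PB (fun m => 5 * m) := (c 5).mul i
  exact (i.mul ((((((i.mul h1).add (c 1)).add (((i.mul i).mul h2).add (c 1))).add (c 1)).add
    ((((h3.mul h1).add (c 1)).add (((c 2).mul h3).add (c 1))).add (c 1))).add (c 1)
    |>.add (c 1))).add (c 1)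

theorem szB_mono {n n' i i' : ℕ} (h : n ≤ n') (h' : i ≤ i') : szB n i ≤ szB n' i' := by
  unfold szB
  gcongr

theorem alg_PT : PT (fun a : Padded => alg a.1.1) := by
  have h1 : PT (fun a : Padded => (rnd a.1.1.2.2)^[5 * a.1.1.2.2]
      [(iniG a.1.1.1 a.1.1.2.1, [], 0)]) := by
    refine PT.iterate (f := fun a : Padded => rnd a.1.1.2.2) (by fun_prop) (by fun_prop)
      (by fun_prop) qB_PB ?_
    rintro ⟨⟨⟨n, A, k⟩, p⟩, hp⟩ i hi
    simp only at hp hi ⊢
    obtain ⟨b1, b2⟩ := rnd_bound (n := n) (k := k) (iniG_bd n A) i hi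
    have hsz : sz (⟨((n, A, k), p), hp⟩ : Padded) = sz n + (sz A + sz k + 1) + 1 + sz p + 1 := rfl
    rw [hsz]
    simp only [sz_nat]
    have hA := sz_pos A
    refine (sz_le_of_forall (M := szB n i) (fun s hs => (b1 s hs).size)).trans ?_
    unfold qB
    refine Nat.add_le_add (Nat.mul_le_mul ?_ (Nat.add_le_add (szB_mono ?_ ?_) le_rfl)) le_rfl
    · have h3 : (1 + nB k (5 * k)) ^ i ≤ nS k :=
        Nat.pow_le_pow_right (by omega) hi
      omega
    · omega
    · omega
  unfold alg
  fun_prop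

end Pool.Agent.H53
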