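import Pool.Agent.H53.Alg

/-!
# Soundness of the search
-/

namespace Pool.Agent.H53

/-- The target property. -/
abbrev P2 : ∀ {V : Type}, SimpleGraph V → Prop := fun G => IsFree claw G ∧ IsFree coclaw G

theorem P2_iff {V : Type} (G : SimpleGraph V) : P2 G ↔ NoCC G := by
  show IsFree claw G ∧ IsFree coclaw G ↔ _
  rw [isFree_claw_iff, isFree_coclaw_iff, NoCC]

theorem P2_inv : Inv @P2 := IsFree.inv₂ claw coclaw

theorem CanContract.succ {P : ∀ {V : Type}, SimpleGraph V → Prop} {k : ℕ} {V : Type}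
    {G : SimpleGraph V} (h : CanContract P k G) : CanContract P (k + 1) G := by
  induction h with
  | done h => exact CanContract.done h
  | step u v huv _ ih => exact CanContract.step u v huv ih

theorem CanContract.mono {P : ∀ {V : Type}, SimpleGraph V → Prop} {k l : ℕ} (hkl : k ≤ l)
    {V : Type} {G : SimpleGraph V} (h : CanContract P k G) : CanContract P l G := by
  induction hkl with
  | refl => exact h
  | step _ ih => exact ih.succ

theorem contr_back {g : LG} {a b : ℕ} (hab : ladj g a b = true) {j : ℕ}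
    (h : CanContract P2 j (gr (lcontr g a b))) : CanContract P2 (j + 1) (gr g) := by
  obtain ⟨ha, hb, hne, _⟩ := ladj_iff.1 hab
  obtain ⟨e⟩ := (lcontr_isContr ha hb hne).iso
  exact CanContract.step ⟨a, ha⟩ ⟨b, hb⟩ hab (CanContract.iso P2_inv e h)

/-- The invariant for soundness. -/
def Inv0 (g0 : LG) (s : SS) : Prop :=
  ∀ j, CanContract P2 j (gr s.1) → CanContract P2 (j + s.2.2) (gr g0)

theorem cand_adj {k : ℕ} {s : SS} {p : ℕ × ℕ} (h : p ∈ cS k s ++ (cM s ++ cA s)) :
    ladj s.1 p.1 p.2 = true := by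
  rw [List.mem_append, List.mem_append] at h
  rcases h with h | h | h
  · simp only [cS, List.mem_flatMap, List.mem_map] at h
    obtain ⟨a, _, b, hb, rfl⟩ := h
    exact (List.mem_filter.1 (List.mem_of_mem_take hb)).2
  · simp only [cM, List.mem_flatMap, List.mem_map] at h
    obtain ⟨a, _, b, hb, rfl⟩ := h
    exact (List.mem_filter.1 hb).2
  · simp only [cA, List.mem_flatMap, List.mem_map] at h
    obtain ⟨m, _, u, hu, rfl⟩ := h
    have := (List.mem_filter.1 (List.mem_of_mem_take hu)).2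
    rw [Bool.and_eq_true] at this
    exact this.2

theorem nexts_inv {g0 : LG} {k : ℕ} {s s' : SS} (h : Inv0 g0 s) (hs : s' ∈ nexts k s) :
    Inv0 g0 s' := by
  rw [nexts, List.mem_append, List.mem_append] at hs
  rcases hs with hs | hs | hs
  · obtain ⟨p, hp, rfl⟩ := List.mem_map.1 hs
    intro j hj
    have h1 := contr_back (cand_adj hp) hj
    have h2 := h _ h1
    have h3 : j + (doC s p).2.2 = j + 1 + s.2.2 := by simp only [doC]; omega
    rw [h3]; exact h2
  · obtain ⟨y, hy, rfl⟩ := List.mem_map.1 hs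
    exact h
  · obtain ⟨y, hy, rfl⟩ := List.mem_map.1 hs
    exact h

theorem rnd_inv {g0 : LG} {k : ℕ} (i : ℕ) {S : List SS} (h : ∀ s ∈ S, Inv0 g0 s) :
    ∀ s ∈ (rnd k)^[i] S, Inv0 g0 s := by
  induction i generalizing S with
  | zero => exact h
  | succ i ih =>
      rw [Function.iterate_succ_apply]
      apply ih
      intro s hs
      rw [rnd, List.mem_append, List.mem_flatMap] at hs
      rcases hs with hs | ⟨s0, hs0, hs⟩
      · exact h s hs
      · exact nexts_inv (h s0 hs0) hs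

theorem alg_sound {x : RawI} (h : alg x = true) :
    CanContract P2 x.2.2 (gr (iniG x.1 x.2.1)) := by
  rw [alg, List.any_eq_true] at h
  obtain ⟨s, hs, hacc⟩ := h
  have h1 := rnd_inv (g0 := iniG x.1 x.2.1) (k := x.2.2) (5 * x.2.2)
    (S := [(iniG x.1 x.2.1, [], 0)]) (by
      intro s hs
      rw [List.mem_singleton] at hs
      subst hs
      intro j hj
      exact hj) s hs
  rw [accB, Bool.and_eq_true, decide_eq_true_eq, noccB_iff, ← P2_iff] at hacc
  have h2 := h1 0 (CanContract.done hacc.2)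
  exact h2.mono (by omega)

/-! ### The initial graph -/

theorem iniG_iso (x : Instance) : Nonempty (gr (iniG x.n (rows x.G)) ≃g x.G) := by
  have hmem : ∀ v, v ∈ (iniG x.n (rows x.G)).1 ↔ v < x.n := fun v => List.mem_range
  refine ⟨⟨⟨fun v => ⟨v.1, (hmem _).1 v.2⟩, fun v => ⟨v.1, (hmem _).2 v.2⟩, fun v => rfl,
    fun v => rfl⟩, ?_⟩⟩
  rintro ⟨v, hv⟩ ⟨w, hw⟩
  have hv' := (hmem _).1 hv
  have hw' := (hmem _).1 hw
  show x.G.Adj ⟨v, hv'⟩ ⟨w, hw'⟩ ↔ ladj _ v w = true
  rw [ladj_iff]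
  have key : ∀ (a b : ℕ) (ha : a < x.n) (hb : b < x.n),
      (a, b) ∈ (iniG x.n (rows x.G)).2 ↔ x.G.Adj ⟨a, ha⟩ ⟨b, hb⟩ := by
    intro a b ha hb
    rw [← look_rows]
    simp only [iniG, List.mem_flatMap, List.mem_map, List.mem_filter, List.mem_range,
      Prod.mk.injEq]
    constructor
    · rintro ⟨i, hi, j, ⟨hj, hl⟩, rfl, rfl⟩
      exact hl
    · intro hl
      exact ⟨a, ha, b, ⟨hb, hl⟩, rfl, rfl⟩
  rw [key v w hv' hw', key w v hw' hv']
  constructor
  · intro h
    refine ⟨hv, hw, ?_, Or.inl h⟩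
    rintro rfl
    exact h.ne rfl
  · rintro ⟨_, _, _, h | h⟩
    · exact h
    · exact h.symm

end Pool.Agent.H53
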