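import Pool.Agent.H53.Touched

/-!
# DOMINATING SET reduces to co-claw-free contraction: the combinatorial part
-/

namespace Pool.Agent.H53

/-- Vertices of the constructed graph. -/
inductive CV (n m : ℕ) : Type
  | x : CV n m
  | v (i : Fin n) : CV n m
  | b (u : Fin n) (i : Fin m) : CV n m
  | z (j : Fin m) (t : Bool) : CV n m
  deriving DecidableEq, Fintype

/-- Adjacency of the constructed graph. -/
def coR {n : ℕ} (G : SimpleGraph (Fin n)) (m : ℕ) : CV n m → CV n m → Prop
  | .x, .v _ => True
  | .x, .z _ _ => True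
  | .v s, .b u _ => s = u ∨ G.Adj s u
  | .z j _, .z j' _ => j = j'
  | _, _ => False

/-- The constructed graph. -/
def coG {n : ℕ} (G : SimpleGraph (Fin n)) (m : ℕ) : SimpleGraph (CV n m) :=
  SimpleGraph.fromRel (coR G m)

variable {n k : ℕ} {G : SimpleGraph (Fin n)}

theorem co_sound (h : CanContract (fun G => IsFree coclaw G) k (coG G (2 * k + 1))) :
    ∃ D : Finset (Fin n), D.card ≤ k ∧ ∀ v, v ∈ D ∨ ∃ u ∈ D, G.Adj u v := by
  classical
  obtain ⟨W, hW, f, hs, hc, hcard, hP⟩ := h.witness
  rw [isFree_coclaw_iff] at hP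
  set D : Finset (Fin n) := Finset.univ.filter (fun s => f (.v s) = f .x) with hD
  refine ⟨D, ?_, ?_⟩
  · have := fiber_card hs hcard .x (D.image CV.v) (by simp) (by
      intro y hy
      obtain ⟨s, hs', rfl⟩ := Finset.mem_image.1 hy
      rw [hD, Finset.mem_filter] at hs'
      exact hs'.2)
    rwa [Finset.card_image_of_injective _ (fun a b h => by simpa using h)] at this
  · obtain ⟨j, hj⟩ := exists_untouched hs hcard (I := Fin (2 * k + 1)) (J := Bool)
      (fun j t => CV.z j t) (by simp) (by simp)
    have hz0 := hj false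
    have hz1 := hj true
    intro u
    obtain ⟨i, hi⟩ := exists_untouched hs hcard (I := Fin (2 * k + 1)) (J := Unit)
      (fun i _ => CV.b u i) (by simp) (by simp)
    have hb := hi ()
    -- the images
    have n1 : f (.z j false) ≠ f .x := ne_of_untouched hz0 (by simp)
    have n2 : f (.z j true) ≠ f .x := ne_of_untouched hz1 (by simp)
    have n3 : f (.z j false) ≠ f (.z j true) := ne_of_untouched hz0 (by simp)
    have n4 : f (.b u i) ≠ f .x := ne_of_untouched hb (by simp)
    have n5 : f (.b u i) ≠ f (.z j false) := ne_of_untouched hb (by simp)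
    have n6 : f (.b u i) ≠ f (.z j true) := ne_of_untouched hb (by simp)
    have a1 : (quot (coG G (2 * k + 1)) f).Adj (f .x) (f (.z j false)) :=
      quot_adj_of_adj (by simp [coG, coR]) n1.symm
    have a2 : (quot (coG G (2 * k + 1)) f).Adj (f .x) (f (.z j true)) :=
      quot_adj_of_adj (by simp [coG, coR]) n2.symm
    have a3 : (quot (coG G (2 * k + 1)) f).Adj (f (.z j false)) (f (.z j true)) :=
      quot_adj_of_adj (by simp [coG, coR]) n3
    have a4 : ¬ (quot (coG G (2 * k + 1)) f).Adj (f (.b u i)) (f (.z j false)) := by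
      rw [quot_adj_untouched hb hz0]; simp [coG, coR]
    have a5 : ¬ (quot (coG G (2 * k + 1)) f).Adj (f (.b u i)) (f (.z j true)) := by
      rw [quot_adj_untouched hb hz1]; simp [coG, coR]
    have a6 : (quot (coG G (2 * k + 1)) f).Adj (f (.b u i)) (f .x) := by
      by_contra a6
      exact hP ⟨_, _, _, _, n4, n5, n6, a6, a4, a5, a1, a2, a3⟩
    rw [quot_adj_left hb] at a6
    obtain ⟨_, p, hp, hadj⟩ := a6
    cases p with
    | x => simp [coG, coR] at hadj
    | v s =>
        have hsD : s ∈ D := by rw [hD, Finset.mem_filter]; exact ⟨Finset.mem_univ _, hp⟩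
        simp only [coG, SimpleGraph.fromRel_adj, coR] at hadj
        rcases hadj.2 with h | h
        · exact absurd h (by simp)
        · rcases h with h | h
          · left; rw [← h]; exact hsD
          · right; exact ⟨s, hsD, h⟩
    | b u' i' => simp [coG, coR] at hadj
    | z j' t => simp [coG, coR] at hadj

theorem co_complete {m : ℕ} (D : Finset (Fin n)) (hD : D.card ≤ k)
    (hdom : ∀ v, v ∈ D ∨ ∃ u ∈ D, G.Adj u v) :
    CanContract (fun G => IsFree coclaw G) k (coG G m) := by
  classical
  let p : CV n m → Prop := fun t => ∀ s ∈ D, t ≠ .v s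
  have px : p .x := fun s _ => by simp
  let f : CV n m → {t : CV n m // p t} := fun t => if h : p t then ⟨t, h⟩ else ⟨.x, px⟩
  have fp : ∀ t (h : p t), f t = ⟨t, h⟩ := fun t h => by simp [f, h]
  have fx : f .x = ⟨.x, px⟩ := fp _ px
  have fn : ∀ t, ¬ p t → f t = f .x := fun t h => by rw [fx]; simp [f, h]
  have fD : ∀ s ∈ D, f (.v s) = f .x := fun s hs => fn _ (fun h => h s hs rfl)
  have fval : ∀ t, ¬ p t → ∃ s ∈ D, t = .v s := by
    intro t ht
    simp only [p, not_forall, not_not] at ht
    obtain ⟨s, hs, h⟩ := ht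
    exact ⟨s, hs, h⟩
  refine CanContract.of_witness (IsFree.inv _) f (fun t => ⟨t.1, by rw [fp _ t.2]⟩) ?_ ?_ ?_
  · -- connectivity
    have key : ∀ u, f u = f .x → u = .x ∨ ∃ s ∈ D, u = .v s := by
      intro u hu
      by_cases hpu : p u
      · left
        rw [fp _ hpu, fx] at hu
        exact congrArg Subtype.val hu
      · right; exact fval _ hpu
    have tox : ∀ u, f u = f .x →
        Relation.ReflTransGen (fun a b => (coG G m).Adj a b ∧ f a = f b) u .x ∧
        Relation.ReflTransGen (fun a b => (coG G m).Adj a b ∧ f a = f b) .x u := by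
      intro u hu
      rcases key u hu with rfl | ⟨s, hs, rfl⟩
      · exact ⟨Relation.ReflTransGen.refl, Relation.ReflTransGen.refl⟩
      · exact ⟨Relation.ReflTransGen.single ⟨by simp [coG, coR], hu⟩,
          Relation.ReflTransGen.single ⟨by simp [coG, coR], hu.symm⟩⟩
    intro u v huv
    by_cases hu : f u = f .x
    · exact (tox u hu).1.trans (tox v (huv ▸ hu)).2
    · have hpu : p u := by by_contra h; exact hu (fn _ h)
      have hpv : p v := by by_contra h; exact hu (huv.trans (fn _ h))
      rw [fp _ hpu, fp _ hpv] at huv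
      have : u = v := congrArg Subtype.val huv
      rw [this]
  · -- cardinality
    have h1 := Fintype.card_subtype_compl (fun t : CV n m => p t)
    have h2 : Fintype.card {t : CV n m // ¬ p t} ≤ D.card := by
      have : Fintype.card {t : CV n m // ¬ p t} ≤ (D.image (CV.v (m := m))).card := by
        rw [Fintype.card_subtype]
        apply Finset.card_le_card
        intro t ht
        rw [Finset.mem_filter] at ht
        obtain ⟨s, hs, rfl⟩ := fval t ht.2
        exact Finset.mem_image_of_mem _ hs
      exact this.trans Finset.card_image_le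
    have h3 := Fintype.card_subtype_le (fun t : CV n m => p t)
    omega
  · show IsFree coclaw _
    rw [isFree_coclaw_iff]
    -- the vertex `x` is universal
    have univ : ∀ d : {t : CV n m // p t}, d ≠ f .x → (quot (coG G m) f).Adj d (f .x) := by
      rintro ⟨d, hd⟩ hne
      have hd' : d ≠ .x := by
        rintro rfl
        exact hne fx.symm
      refine ⟨hne, ?_⟩
      cases d with
      | x => exact absurd rfl hd'
      | v s => exact ⟨.v s, .x, fp _ hd, rfl, by simp [coG, coR]⟩
      | b u i =>
          rcases hdom u with h | ⟨s, hs, h⟩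
          · exact ⟨.b u i, .v u, fp _ hd, fD u h, by simp [coG, coR]⟩
          · exact ⟨.b u i, .v s, fp _ hd, fD s hs, by simp [coG, coR, h]⟩
      | z j t => exact ⟨.z j t, .x, fp _ hd, rfl, by simp [coG, coR]⟩
    have nox : ∀ a b : {t : CV n m // p t}, a ≠ f .x → b ≠ f .x →
        (quot (coG G m) f).Adj a b → (coG G m).Adj a.1 b.1 := by
      rintro a b ha hb ⟨_, u, v, hu, hv, huv⟩
      have hpu : p u := by by_contra h; exact ha (hu ▸ fn _ h)
      have hpv : p v := by by_contra h; exact hb (hv ▸ fn _ h)
      rw [← hu, ← hv, fp _ hpu, fp _ hpv]; exact huv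
    rintro ⟨d, a, b, c, n1, n2, n3, h1, h2, h3, h4, h5, h6⟩
    by_cases ha : a = f .x
    · subst ha; exact h1 (univ _ n1)
    by_cases hb : b = f .x
    · subst hb; exact h2 (univ _ n2)
    by_cases hc : c = f .x
    · subst hc; exact h3 (univ _ n3)
    have e1 := nox _ _ ha hb h4
    have e2 := nox _ _ ha hc h5
    have e3 := nox _ _ hb hc h6
    have ha' : a.1 ≠ .x := fun h => ha (by rw [fx]; exact Subtype.ext h)
    have hb' : b.1 ≠ .x := fun h => hb (by rw [fx]; exact Subtype.ext h)
    have hc' : c.1 ≠ .x := fun h => hc (by rw [fx]; exact Subtype.ext h)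
    generalize a.1 = a' at *
    generalize b.1 = b' at *
    generalize c.1 = c' at *
    cases a' <;> cases b' <;> cases c' <;> simp [coG, coR] at e1 e2 e3 ha' hb' hc'
    -- three vertices of the form `z j t` with the same `j`
    rename_i j1 t1 j2 t2 j3 t3
    obtain ⟨g1, g2⟩ := e1
    obtain ⟨g3, g4⟩ := e2
    obtain ⟨g5, g6⟩ := e3
    cases t1 <;> cases t2 <;> cases t3 <;> simp_all

end Pool.Agent.H53
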