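import Pool.Agent.H53.ListGraph
import Pool.Agent.H53.HardCo

/-!
# co-claw-free contraction is W[2]-hard
-/

namespace Pool.Agent.H53

variable {α β A : Type} [Enc α] [Enc β] [Enc A]

@[fun_prop]
theorem PT.deq {f g : A → Desc} (hf : PT f) (hg : PT g) : PT (fun a => H53.deq (f a) (g a)) := by
  unfold H53.deq
  fun_prop

@[fun_prop]
theorem PT.look {f : A → List (List Bool)} {i j : A → ℕ} (hf : PT f) (hi : PT i) (hj : PT j) :
    PT (fun a => H53.look (f a) (i a) (j a)) := by
  unfold H53.look
  fun_prop

@[fun_prop]
theorem PT.descs {f : A → List Desc} (hf : PT f) : PT (fun a => H53.descs (f a)) := by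
  unfold H53.descs
  fun_prop

/-- Tags and ranges of the constructed graph. -/
def coS (n k : ℕ) : List Desc := [(0, 1, 1), (1, n, 1), (2, n, 2 * k + 1), (3, 2 * k + 1, 2)]

/-- The relation of the constructed graph. -/
def coRel (M : List (List Bool)) (a b : Desc) : Bool :=
  (a.1 == 0 && b.1 == 1) || ((a.1 == 0 && b.1 == 3) ||
    (((a.1 == 1 && b.1 == 2) && (a.2.1 == b.2.1 || look M a.2.1 b.2.1)) ||
      ((a.1 == 3 && b.1 == 3) && a.2.1 == b.2.1)))

/-- The reduction on list data. -/
def coF (x : RawI) : RawI :=
  ((descs (coS x.1 x.2.2)).length,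
    (descs (coS x.1 x.2.2)).map (fun a => (descs (coS x.1 x.2.2)).map
      (fun b => adjB (coRel x.2.1) a b)), x.2.2)

theorem PT.coF : PT coF := by
  unfold H53.coF coS adjB coRel
  fun_prop

/-- Descriptors of the vertices. -/
def coE {n m : ℕ} : CV n m → Desc
  | .x => (0, 0, 0)
  | .v s => (1, s, 0)
  | .b u i => (2, u, i)
  | .z j t => (3, j, bif t then 1 else 0)

theorem coE_inj {n m : ℕ} : Function.Injective (coE : CV n m → Desc) := by
  intro a b h
  cases a <;> cases b <;> simp [coE] at h ⊢
  · exact Fin.ext h
  · exact ⟨Fin.ext h.1, Fin.ext h.2⟩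
  · rename_i j t j' t'
    cases t <;> cases t' <;> simp at h ⊢ <;> exact Fin.ext h

/-- The reduction on instances. -/
noncomputable def coInst (x : Instance) : Instance where
  n := (descs (coS x.n x.k)).length
  G := listG (descs (coS x.n x.k)) (coRel (rows x.G))
  k := x.k

theorem coF_raw (x : Instance) : coF (raw x) = raw (coInst x) := by
  simp only [coF, raw, coInst, rows_listG]

theorem coInst_iso (x : Instance) : Nonempty (coG x.G (2 * x.k + 1) ≃g (coInst x).G) := by
  refine listG_iso coE coE_inj _ (nodup_descs (by simp [coS])) ?_ _ _ ?_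
  · intro d
    rw [mem_descs]
    obtain ⟨t, a, b⟩ := d
    constructor
    · rintro ⟨p, hp, h1, h2, h3⟩
      simp only [coS, List.mem_cons, List.not_mem_nil, or_false] at hp
      rcases hp with rfl | rfl | rfl | rfl
      · simp only at h1 h2 h3
        refine ⟨.x, ?_⟩
        simp only [coE, Prod.mk.injEq]; omega
      · simp only at h1 h2 h3
        refine ⟨.v ⟨a, h2⟩, ?_⟩
        simp only [coE, Prod.mk.injEq]
        exact ⟨by omega, trivial, by omega⟩
      · simp only at h1 h2 h3
        refine ⟨.b ⟨a, h2⟩ ⟨b, h3⟩, ?_⟩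
        simp only [coE, Prod.mk.injEq]
        exact ⟨by omega, trivial⟩
      · simp only at h1 h2 h3
        by_cases hb : b = 0
        · refine ⟨.z ⟨a, h2⟩ false, ?_⟩
          simp only [coE, Prod.mk.injEq, cond_false]
          exact ⟨by omega, trivial, by omega⟩
        · refine ⟨.z ⟨a, h2⟩ true, ?_⟩
          simp only [coE, Prod.mk.injEq, cond_true]
          exact ⟨by omega, trivial, by omega⟩
    · rintro ⟨c, hc⟩
      cases c with
      | x =>
          simp only [coE, Prod.mk.injEq] at hc
          refine ⟨(0, 1, 1), by simp [coS], ?_⟩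
          simp only; omega
      | v s =>
          simp only [coE, Prod.mk.injEq] at hc
          refine ⟨(1, x.n, 1), by simp [coS], ?_⟩
          have := s.2
          simp only; omega
      | b u i =>
          simp only [coE, Prod.mk.injEq] at hc
          refine ⟨(2, x.n, 2 * x.k + 1), by simp [coS], ?_⟩
          have := u.2
          have := i.2
          simp only; omega
      | z j t =>
          simp only [coE, Prod.mk.injEq] at hc
          refine ⟨(3, 2 * x.k + 1, 2), by simp [coS], ?_⟩
          have := j.2
          cases t <;> simp only [cond_true, cond_false] at hc ⊢ <;> omega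
  · intro c c'
    cases c <;> cases c' <;> simp [coG, coR, coE, coRel, look_rows, Fin.ext_iff]

/-- co-claw-free contraction is W[2]-hard. -/
theorem coclaw_hard : W2Hard (FreeContraction coclaw) := by
  refine FPTReduces.of_PT coInst coF PT.coF coF_raw (fun k => k) Computable.id ?_ (fun _ => le_rfl)
  intro x
  obtain ⟨e⟩ := coInst_iso x
  constructor
  · rintro ⟨D, hD, h⟩
    exact (co_complete (m := 2 * x.k + 1) D hD h).iso (IsFree.inv _) e
  · intro h
    exact co_sound (CanContract.iso (IsFree.inv _) e.symm h)

end Pool.Agent.H53
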