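import Pool.Agent.H53.AlgComplete
import Pool.Agent.H53.RedCo

/-!
# Running time of the search
-/

namespace Pool.Agent.H53

section PT

variable {α β γ A : Type} [Enc α] [Enc β] [Enc γ] [Enc A]

@[fun_prop]
theorem PT.list_take {L : A → List β} {n : A → ℕ} (hL : PT L) (hn : PT n) :
    PT (fun a => (L a).take (n a)) := by
  have h : PT (fun a => ((L a).reverse.drop ((L a).length - n a)).reverse) := by fun_prop
  refine h.transfer (fun a => a) (fun _ => rfl) fun a => ?_
  congr 1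
  rw [List.reverse_drop, List.length_reverse, List.reverse_reverse]
  by_cases hl : n a ≤ (L a).length
  · congr 1; omega
  · rw [List.take_of_length_le (by omega), List.take_of_length_le (by omega)]

@[fun_prop]
theorem PT.memB {f : A → List ℕ} {g : A → ℕ} (hf : PT f) (hg : PT g) :
    PT (fun a => H53.memB (f a) (g a)) := by
  unfold H53.memB
  fun_prop

@[fun_prop]
theorem PT.ladj {f : A → LG} {g h : A → ℕ} (hf : PT f) (hg : PT g) (hh : PT h) :
    PT (fun a => H53.ladj (f a) (g a) (h a)) := by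
  unfold H53.ladj
  fun_prop

@[fun_prop]
theorem PT.ren {f : A → ℕ} {g h : A → ℕ} (hf : PT f) (hg : PT g) (hh : PT h) :
    PT (fun a => H53.ren (f a) (g a) (h a)) := by
  unfold H53.ren
  fun_prop

@[fun_prop]
theorem PT.lcontr {f : A → LG} {g h : A → ℕ} (hf : PT f) (hg : PT g) (hh : PT h) :
    PT (fun a => H53.lcontr (f a) (g a) (h a)) := by
  unfold H53.lcontr
  fun_prop

@[fun_prop]
theorem PT.obsB {f : A → LG} {g h i j : A → ℕ} (hf : PT f) (hg : PT g) (hh : PT h) (hi : PT i)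
    (hj : PT j) : PT (fun a => H53.obsB (f a) (g a) (h a) (i a) (j a)) := by
  unfold H53.obsB
  fun_prop

@[fun_prop]
theorem PT.obdB {f : A → LG} {g h i j : A → ℕ} (hf : PT f) (hg : PT g) (hh : PT h) (hi : PT i)
    (hj : PT j) : PT (fun a => H53.obdB (f a) (g a) (h a) (i a) (j a)) := by
  unfold H53.obdB
  fun_prop

@[fun_prop]
theorem PT.clawB {f : A → LG} {g h i j : A → ℕ} (hf : PT f) (hg : PT g) (hh : PT h) (hi : PT i)
    (hj : PT j) : PT (fun a => H53.clawB (f a) (g a) (h a) (i a) (j a)) := by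
  unfold H53.clawB
  fun_prop

@[fun_prop]
theorem PT.coclawB {f : A → LG} {g h i j : A → ℕ} (hf : PT f) (hg : PT g) (hh : PT h)
    (hi : PT i) (hj : PT j) : PT (fun a => H53.coclawB (f a) (g a) (h a) (i a) (j a)) := by
  unfold H53.coclawB
  fun_prop

@[fun_prop]
theorem PT.noccB {f : A → LG} (hf : PT f) : PT (fun a => H53.noccB (f a)) := by
  unfold H53.noccB
  fun_prop

@[fun_prop]
theorem PT.firstQ {f : A → List ℕ} {t : A → ℕ → ℕ → ℕ → ℕ → Bool} (hf : PT f)
    (ht : PT (fun p : A × ℕ × ℕ × ℕ × ℕ => t p.1 p.2.1 p.2.2.1 p.2.2.2.1 p.2.2.2.2)) :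
    PT (fun a => H53.firstQ (f a) (t a)) := by
  unfold H53.firstQ quads
  have h : PT (fun p : (((A × ℕ) × ℕ) × ℕ) × ℕ => t p.1.1.1.1 p.1.1.1.2 p.1.1.2 p.1.2 p.2) := by
    have h' : PT (fun p : (((A × ℕ) × ℕ) × ℕ) × ℕ =>
      (p.1.1.1.1, p.1.1.1.2, p.1.1.2, p.1.2, p.2)) := by fun_prop
    exact ht.comp h'
  fun_prop

@[fun_prop]
theorem PT.unm {f : A → SS} (hf : PT f) : PT (fun a => H53.unm (f a)) := by
  unfold H53.unm
  fun_prop

@[fun_prop]
theorem PT.doC {f : A → SS} {g : A → ℕ × ℕ} (hf : PT f) (hg : PT g) :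
    PT (fun a => H53.doC (f a) (g a)) := by
  unfold H53.doC
  fun_prop

@[fun_prop]
theorem PT.cS {f : A → SS} {k : A → ℕ} (hf : PT f) (hk : PT k) :
    PT (fun a => H53.cS (k a) (f a)) := by
  unfold H53.cS
  have h : PT (fun a => H53.firstQ (f a).1.1 (H53.obsB (f a).1)) :=
    PT.firstQ (by fun_prop) (by fun_prop)
  fun_prop

@[fun_prop]
theorem PT.cM {f : A → SS} (hf : PT f) : PT (fun a => H53.cM (f a)) := by
  unfold H53.cM
  fun_prop

@[fun_prop]
theorem PT.cA {f : A → SS} (hf : PT f) : PT (fun a => H53.cA (f a)) := by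
  unfold H53.cA
  fun_prop

@[fun_prop]
theorem PT.nexts {f : A → SS} {k : A → ℕ} (hf : PT f) (hk : PT k) :
    PT (fun a => H53.nexts (k a) (f a)) := by
  unfold H53.nexts
  have h : PT (fun a => H53.firstQ (H53.unm (f a)) (H53.obdB (f a).1)) :=
    PT.firstQ (by fun_prop) (by fun_prop)
  fun_prop

@[fun_prop]
theorem PT.rnd {f : A → List SS} {k : A → ℕ} (hf : PT f) (hk : PT k) :
    PT (fun a => H53.rnd (k a) (f a)) := by
  unfold H53.rnd
  fun_prop

@[fun_prop]
theorem PT.accB {f : A → SS} {k : A → ℕ} (hf : PT f) (hk : PT k) :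
    PT (fun a => H53.accB (k a) (f a)) := by
  unfold H53.accB
  fun_prop

@[fun_prop]
theorem PT.iniG {f : A → List (List Bool)} {n : A → ℕ} (hf : PT f) (hn : PT n) :
    PT (fun a => H53.iniG (n a) (f a)) := by
  unfold H53.iniG
  fun_prop

end PT

end Pool.Agent.H53
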