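import Pool.Agent.H53.Data

/-!
# Functions computed by stack programs within a time bound, and closure properties
-/

namespace Pool.Agent.H53

/-- Types whose elements are coded by binary trees. -/
class Enc (α : Type) where
  /-- the code of an element -/
  enc : α → D

export Enc (enc)

instance : Enc D := ⟨id⟩

instance instEncSubtype {α : Type} [Enc α] (p : α → Prop) : Enc {a : α // p a} := ⟨fun a => enc a.1⟩

instance : Enc Bool := ⟨fun b => if b then D.cons .nil .nil else D.nil⟩

instance instEncProd {α β : Type} [Enc α] [Enc β] : Enc (α × β) :=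
  ⟨fun p => D.cons (enc p.1) (enc p.2)⟩

instance : Enc Unit := ⟨fun _ => D.nil⟩

/-- Unary code of a natural number. -/
def encNat : ℕ → D
  | 0 => D.nil
  | n + 1 => D.cons D.nil (encNat n)

instance : Enc ℕ := ⟨encNat⟩

/-- Code of a list. -/
def encList {α : Type} [Enc α] : List α → D
  | [] => D.nil
  | a :: l => D.cons (enc a) (encList l)

instance instEncList {α : Type} [Enc α] : Enc (List α) := ⟨encList⟩

instance instEncOption {α : Type} [Enc α] : Enc (Option α) :=
  ⟨fun o => match o with
    | none => D.nil
    | some a => D.cons (enc a) D.nil⟩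

/-- The size of (the code of) an element. -/
def sz {α : Type} [Enc α] (a : α) : ℕ := (enc a).size

theorem sz_pos {α : Type} [Enc α] (a : α) : 0 < sz a := D.size_pos _

theorem enc_D (d : D) : enc d = d := rfl
theorem enc_sub {α : Type} [Enc α] {p : α → Prop} (a : {a : α // p a}) : enc a = enc a.1 := rfl
theorem enc_true : enc true = D.cons .nil .nil := rfl
theorem enc_false : enc false = D.nil := rfl
theorem enc_pair {α β : Type} [Enc α] [Enc β] (p : α × β) :
    enc p = D.cons (enc p.1) (enc p.2) := rfl
theorem enc_nat_zero : enc (0 : ℕ) = D.nil := rfl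
theorem enc_nat_succ (n : ℕ) : enc (n + 1) = D.cons D.nil (enc n) := rfl
theorem enc_list_nil {α : Type} [Enc α] : enc ([] : List α) = D.nil := rfl
theorem enc_list_cons {α : Type} [Enc α] (a : α) (l : List α) :
    enc (a :: l) = D.cons (enc a) (enc l) := rfl
theorem enc_none {α : Type} [Enc α] : enc (none : Option α) = D.nil := rfl
theorem enc_some {α : Type} [Enc α] (a : α) : enc (some a) = D.cons (enc a) D.nil := rfl

/-- Initial and final states: only the main stack `none` is nonempty. -/
def ini {K : Type} (l : List Bool) : St (Option K)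
  | none => l
  | some _ => []

@[simp] theorem ini_none {K : Type} (l : List Bool) : (ini l : St (Option K)) none = l := rfl
@[simp] theorem ini_some {K : Type} (l : List Bool) (k : K) :
    (ini l : St (Option K)) (some k) = [] := rfl

/-- `CT f t`: some program over finitely many stacks computes `f` (on codes), and its running
time on (the code of) `a` is at most `t a`. -/
def CT {α β : Type} [Enc α] [Enc β] (f : α → β) (t : α → ℕ) : Prop :=
  ∃ (K : Type) (_ : Fintype K) (_ : DecidableEq K) (P : Cmd (Option K)),
    ∀ a : α, Does P (ini (enc a).str) (ini (enc (f a)).str) (t a)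

variable {α β γ δ : Type} [Enc α] [Enc β] [Enc γ] [Enc δ]

theorem CT.mono {f : α → β} {t t' : α → ℕ} (h : CT f t) (ht : ∀ a, t a ≤ t' a) : CT f t' := by
  obtain ⟨K, i1, i2, P, hP⟩ := h
  exact ⟨K, i1, i2, P, fun a => (hP a).mono (ht a)⟩

theorem CT.size_le {f : α → β} {t : α → ℕ} (h : CT f t) (a : α) : sz (f a) ≤ sz a + t a := by
  obtain ⟨K, i1, i2, P, hP⟩ := h
  have := (hP a).length_le none
  simpa [sz] using this

/-- Transfer along functions acting in the same way on codes. -/
theorem CT.transfer {α' β' : Type} [Enc α'] [Enc β'] {f : α → β} {t : α → ℕ} (h : CT f t)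
    (g : α' → β') (i : α' → α) (h1 : ∀ a, enc (i a) = enc a) (h2 : ∀ a, enc (f (i a)) = enc (g a)) :
    CT g (fun a => t (i a)) := by
  obtain ⟨K, i1, i2, P, hP⟩ := h
  refine ⟨K, i1, i2, P, fun a => ?_⟩
  have := hP (i a)
  rwa [h1, h2] at this

theorem CT.of_enc_eq {f : α → β} (h : ∀ a, enc (f a) = enc a) : CT f (fun _ => 1) :=
  ⟨Empty, inferInstance, inferInstance, .skip, fun a => by rw [h]; exact Does.skip _⟩

theorem CT.id : CT (fun a : α => a) (fun _ => 1) := CT.of_enc_eq fun _ => rfl

section embed

variable {K L : Type} [DecidableEq K] [DecidableEq L]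

/-- Running a program inside a larger collection of stacks. -/
theorem Does.embed {j : K → L} (hj : Function.Injective j) {P : Cmd (Option K)} {x y : List Bool}
    {t : ℕ} (h : Does P (ini x) (ini y) t) (τ : St (Option L)) (h0 : τ none = x)
    (h1 : ∀ k, τ (some (j k)) = []) :
    ∃ τ' : St (Option L), τ' none = y ∧ (∀ k, τ' (some (j k)) = []) ∧
      (∀ l, (∀ k, j k ≠ l) → τ' (some l) = τ (some l)) ∧
      Does (P.map (Option.map j)) τ τ' t := by
  obtain ⟨τ', e1, e2, e3⟩ := h.map (Option.map_injective hj) τ (by
    intro k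
    cases k with
    | none => simpa using h0
    | some k => simpa using h1 k)
  refine ⟨τ', ?_, ?_, ?_, e3⟩
  · simpa using e1 none
  · intro k; simpa using e1 (some k)
  · intro l hl
    apply e2
    intro k
    cases k with
    | none => simp
    | some k => simpa using hl k

end embed

theorem CT.comp {f : α → β} {g : β → γ} {t : α → ℕ} {s : β → ℕ} (hf : CT f t) (hg : CT g s) :
    CT (fun a => g (f a)) (fun a => t a + s (f a)) := by
  obtain ⟨K1, i1, i2, P, hP⟩ := hf
  obtain ⟨K2, j1, j2, Q, hQ⟩ := hg
  refine ⟨K1 ⊕ K2, inferInstance, inferInstance,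
    .seq (P.map (Option.map Sum.inl)) (Q.map (Option.map Sum.inr)), fun a => ?_⟩
  obtain ⟨τ1, a1, a2, a3, a4⟩ := (hP a).embed (L := K1 ⊕ K2) Sum.inl_injective
    (ini (enc a).str) rfl (fun _ => rfl)
  have a3' : ∀ k : K2, τ1 (some (Sum.inr k)) = [] := fun k => by
    rw [a3 _ (by simp)]; rfl
  obtain ⟨τ2, b1, b2, b3, b4⟩ := (hQ (f a)).embed (L := K1 ⊕ K2) Sum.inr_injective τ1 a1 a3'
  have : τ2 = ini (enc (g (f a))).str := by
    funext k
    match k with
    | none => exact b1
    | some (Sum.inl k) => rw [b3 _ (by simp), a2]; rfl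
    | some (Sum.inr k) => exact b2 k
  rw [← this]
  exact a4.seq b4

theorem CT.const (b : β) : CT (fun _ : α => b) (fun a => 2 * sz a + sz b + 2) := by
  refine ⟨Empty, inferInstance, inferInstance,
    .seq (clr none) (pushAll none (enc b).str.reverse), fun a => ?_⟩
  obtain ⟨σ1, a1, a2, a3⟩ := clr_spec (a := (none : Option Empty)) (enc a).str (ini (enc a).str) rfl
  obtain ⟨σ2, b1, b2, b3⟩ := pushAll_spec (a := (none : Option Empty)) (enc b).str.reverse σ1
  have : σ2 = ini (enc b).str := by
    funext k
    match k with
    | none => rw [b2, a2]; simp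
  rw [← this]
  refine (a1.seq b1).mono ?_
  simp [sz]; omega

/-- First component of a tree. -/
theorem CT.car : CT D.car (fun a => 20 * sz a + 20) := by
  -- stacks: `0` receives the tree, `1` is the counter
  refine ⟨Fin 2, inferInstance, inferInstance,
    .ifTop none .skip .skip (.seq (.pop none) (.seq (parse none (some 0) (some 1))
      (.seq (clr none) (mv (some 0) none)))), fun a => ?_⟩
  cases a with
  | nil =>
      refine Does.mono (t := 2) (Does.ifF (k := none) (l := []) rfl (Does.skip _)) ?_
      show 2 ≤ 20 * sz D.nil + 20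
      omega
  | cons a b =>
      set σ0 : St (Option (Fin 2)) := ini (D.cons a b).str with hσ0
      set σ1 : St (Option (Fin 2)) := Function.update σ0 none (a.str ++ b.str) with hσ1
      have e1 : Does (.pop none) σ0 σ1 1 := Does.pop none σ0
      obtain ⟨σ2, a1, a2, a3, a4, a5⟩ := parse_spec (src := none) (dst := some (0 : Fin 2))
        (cnt := some 1) (by simp) (by simp) (by simp) a σ1 b.str (by simp [hσ1]) (by
          simp [hσ1, hσ0])
      obtain ⟨σ3, b1, b2, b3⟩ := clr_spec (a := (none : Option (Fin 2))) b.str σ2 a2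
      obtain ⟨σ4, c1, c2, c3, c4⟩ := mv_spec (a := some (0 : Fin 2)) (b := none) (by simp)
        a.str.reverse σ3 (by rw [b3 _ (by simp), a3]; simp [hσ1, hσ0])
      have hfin : σ4 = ini (enc (D.car (D.cons a b))).str := by
        funext k
        match k with
        | none => rw [c3, b2]; simp [enc_D]
        | some 0 => rw [c2]; rfl
        | some 1 => rw [c4 _ (by simp) (by simp), b3 _ (by simp), a4]; rfl
      rw [← hfin]
      refine (Does.ifT (k := none) (l := a.str ++ b.str) rfl (e1.seq (a1.seq (b1.seq c1)))).mono ?_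
      simp [sz, enc_D]; omega

/-- Second component of a tree. -/
theorem CT.cdr : CT D.cdr (fun a => 20 * sz a + 20) := by
  refine ⟨Fin 2, inferInstance, inferInstance,
    .ifTop none .skip .skip (.seq (.pop none) (.seq (parse none (some 0) (some 1))
      (clr (some 0)))), fun a => ?_⟩
  cases a with
  | nil =>
      refine Does.mono (t := 2) (Does.ifF (k := none) (l := []) rfl (Does.skip _)) ?_
      show 2 ≤ 20 * sz D.nil + 20
      omega
  | cons a b =>
      set σ0 : St (Option (Fin 2)) := ini (D.cons a b).str with hσ0
      set σ1 : St (Option (Fin 2)) := Function.update σ0 none (a.str ++ b.str) with hσ1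
      have e1 : Does (.pop none) σ0 σ1 1 := Does.pop none σ0
      obtain ⟨σ2, a1, a2, a3, a4, a5⟩ := parse_spec (src := none) (dst := some (0 : Fin 2))
        (cnt := some 1) (by simp) (by simp) (by simp) a σ1 b.str (by simp [hσ1]) (by
          simp [hσ1, hσ0])
      obtain ⟨σ3, b1, b2, b3⟩ := clr_spec (a := (some 0 : Option (Fin 2))) a.str.reverse σ2
        (by rw [a3]; simp [hσ1, hσ0])
      have hfin : σ3 = ini (enc (D.cdr (D.cons a b))).str := by
        funext k
        match k with
        | none => rw [b3 _ (by simp), a2]; simp [enc_D]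
        | some 0 => rw [b2]; rfl
        | some 1 => rw [b3 _ (by simp), a4]; rfl
      rw [← hfin]
      refine (Does.ifT (k := none) (l := a.str ++ b.str) rfl (e1.seq (a1.seq b1))).mono ?_
      simp [sz, enc_D]; omega

/-- The program for pairing. -/
def pairProg {K1 K2 L : Type} (jP : K1 → L) (jQ : K2 → L) (A B T : Option L)
    (P : Cmd (Option K1)) (Q : Cmd (Option K2)) : Cmd (Option L) :=
  .seq (mv none T) (.seq (mv2 T none A) (.seq (P.map (Option.map jP)) (.seq (mv none B)
      (.seq (mv A T) (.seq (mv T none) (.seq (Q.map (Option.map jQ)) (.seq (mv B none)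
        (.push none true))))))))

/-- Pairing, with abstract stack names. -/
theorem pair_aux {K1 K2 L : Type} [DecidableEq K1] [DecidableEq K2] [DecidableEq L]
    {jP : K1 → L} {jQ : K2 → L} {A B T : Option L} (hjP : Function.Injective jP)
    (hjQ : Function.Injective jQ) (hPA : ∀ k, some (jP k) ≠ A) (hQB : ∀ k, some (jQ k) ≠ B)
    (hAT : A ≠ T) (hBT : B ≠ T) (hAB : A ≠ B) (hA : A ≠ none) (hB : B ≠ none) (hT : T ≠ none)
    {P : Cmd (Option K1)} {Q : Cmd (Option K2)} {x y z : List Bool} {t s : ℕ}
    (hP : Does P (ini x) (ini y) t) (hQ : Does Q (ini x) (ini z) s) :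
    Does (pairProg jP jQ A B T P Q) (ini x : St (Option L)) (ini (true :: (y ++ z)))
      (17 * x.length + 8 * y.length + t + s + 9) := by
  set σ0 : St (Option L) := ini x with hσ0
  have hs0 : ∀ k, k ≠ none → σ0 k = [] := by
    intro k hk
    cases k with
    | none => exact absurd rfl hk
    | some k => rfl
  obtain ⟨σ1, a1, a2, a3, a4⟩ := mv_spec (a := none) (b := T) hT.symm x σ0 rfl
  have a3' : σ1 T = x.reverse := by rw [a3, hs0 _ hT]; simp
  have hs1 : ∀ k, k ≠ T → σ1 k = [] := by
    intro k hk
    by_cases hk' : k = none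
    · rw [hk', a2]
    · rw [a4 _ hk' hk, hs0 _ hk']
  obtain ⟨σ2, b1, b2, b3, b4, b5⟩ := mv2_spec (a := T) (b := none) (c := A) hT hAT.symm hA.symm
    _ σ1 a3'
  have b3' : σ2 none = x := by rw [b3, a2]; simp
  have b4' : σ2 A = x := by rw [b4, hs1 _ hAT]; simp
  have hs2 : ∀ k, k ≠ none → k ≠ A → σ2 k = [] := by
    intro k hk hk'
    by_cases hkT : k = T
    · rw [hkT, b2]
    · rw [b5 _ hkT hk hk', hs1 _ hkT]
  obtain ⟨σ3, c1, c2, c3, c4⟩ := hP.embed (L := L) hjP σ2 b3' (fun k => hs2 _ (by simp) (hPA k))
  have hs3 : ∀ k, k ≠ none → k ≠ A → σ3 k = [] := by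
    intro k hk hk'
    match k with
    | none => exact absurd rfl hk
    | some k =>
        by_cases hk2 : ∃ k', jP k' = k
        · obtain ⟨k', rfl⟩ := hk2
          exact c2 k'
        · rw [c3 _ (fun k' h => hk2 ⟨k', h⟩), hs2 _ hk hk']
  have hne : ∀ (σ σ' : St (Option L)) (X : Option L), X ≠ none → (∀ k, some (jP k) ≠ X) →
      (∀ l, (∀ k, jP k ≠ l) → σ' (some l) = σ (some l)) → σ' X = σ X := by
    intro σ σ' X hX hPX h
    match X with
    | none => exact absurd rfl hX
    | some X => exact h X (fun k hk => hPX k (by rw [hk]))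
  have hneQ : ∀ (σ σ' : St (Option L)) (X : Option L), X ≠ none → (∀ k, some (jQ k) ≠ X) →
      (∀ l, (∀ k, jQ k ≠ l) → σ' (some l) = σ (some l)) → σ' X = σ X := by
    intro σ σ' X hX hQX h
    match X with
    | none => exact absurd rfl hX
    | some X => exact h X (fun k hk => hQX k (by rw [hk]))
  have hA3 : σ3 A = x := by rw [hne σ2 σ3 A hA hPA c3, b4']
  obtain ⟨σ4, d1, d2, d3, d4⟩ := mv_spec (a := none) (b := B) hB.symm _ σ3 c1
  have hB4 : σ4 B = y.reverse := by rw [d3, hs3 _ hB hAB.symm]; simp
  have hA4 : σ4 A = x := by rw [d4 _ hA hAB, hA3]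
  have hs4 : ∀ k, k ≠ A → k ≠ B → σ4 k = [] := by
    intro k hk hk'
    by_cases hkn : k = none
    · rw [hkn, d2]
    · rw [d4 _ hkn hk', hs3 _ hkn hk]
  obtain ⟨σ5, e1, e2, e3, e4⟩ := mv_spec (a := A) (b := T) hAT _ σ4 hA4
  have hT5 : σ5 T = x.reverse := by rw [e3, hs4 _ hAT.symm hBT.symm]; simp
  have hB5 : σ5 B = y.reverse := by rw [e4 _ hAB.symm hBT, hB4]
  have hs5 : ∀ k, k ≠ T → k ≠ B → σ5 k = [] := by
    intro k hk hk'
    by_cases hkn : k = A
    · rw [hkn, e2]
    · rw [e4 _ hkn hk, hs4 _ hkn hk']
  obtain ⟨σ6, f1, f2, f3, f4⟩ := mv_spec (a := T) (b := none) hT _ σ5 hT5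
  have hn6 : σ6 none = x := by rw [f3, hs5 _ hT.symm hB.symm]; simp
  have hB6 : σ6 B = y.reverse := by rw [f4 _ hBT hB, hB5]
  have hs6 : ∀ k, k ≠ none → k ≠ B → σ6 k = [] := by
    intro k hk hk'
    by_cases hkn : k = T
    · rw [hkn, f2]
    · rw [f4 _ hkn hk, hs5 _ hkn hk']
  obtain ⟨σ7, g1, g2, g3, g4⟩ := hQ.embed (L := L) hjQ σ6 hn6 (fun k => hs6 _ (by simp) (hQB k))
  have hB7 : σ7 B = y.reverse := by rw [hneQ σ6 σ7 B hB hQB g3, hB6]
  have hs7 : ∀ k, k ≠ none → k ≠ B → σ7 k = [] := by
    intro k hk hk'
    match k with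
    | none => exact absurd rfl hk
    | some k =>
        by_cases hk2 : ∃ k', jQ k' = k
        · obtain ⟨k', rfl⟩ := hk2
          exact g2 k'
        · rw [g3 _ (fun k' h => hk2 ⟨k', h⟩), hs6 _ hk hk']
  obtain ⟨σ8, h1, h2, h3, h4⟩ := mv_spec (a := B) (b := none) hB _ σ7 hB7
  have hn8 : σ8 none = y ++ z := by rw [h3, g1]; simp
  have hfin : Function.update σ8 none (true :: σ8 none) = ini (true :: (y ++ z)) := by
    funext k
    by_cases hk : k = none
    · rw [hk]; simp [hn8]
    · rw [Function.update_of_ne hk]
      have : (ini (true :: (y ++ z)) : St (Option L)) k = [] := by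
        cases k with
        | none => exact absurd rfl hk
        | some k => rfl
      rw [this]
      by_cases hkB : k = B
      · rw [hkB, h2]
      · rw [h4 _ hkB hk, hs7 _ hk hkB]
  have hend := Does.push none true σ8
  rw [hfin] at hend
  refine (a1.seq (b1.seq (c4.seq (d1.seq (e1.seq (f1.seq (g4.seq (h1.seq hend)))))))).mono ?_
  simp only [List.length_reverse]
  omega

/-- Pairing. -/
theorem CT.pair {f : α → β} {g : α → γ} {t s : α → ℕ} (hf : CT f t) (hg : CT g s) :
    CT (fun a => (f a, g a)) (fun a => 30 * sz a + 9 * t a + s a + 20) := by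
  have hsz := hf.size_le
  obtain ⟨K1, i1, i2, P, hP⟩ := hf
  obtain ⟨K2, j1, j2, Q, hQ⟩ := hg
  refine ⟨K1 ⊕ K2 ⊕ Fin 3, inferInstance, inferInstance,
    pairProg (L := K1 ⊕ K2 ⊕ Fin 3) Sum.inl (fun k => Sum.inr (Sum.inl k))
      (some (Sum.inr (Sum.inr 0))) (some (Sum.inr (Sum.inr 1))) (some (Sum.inr (Sum.inr 2))) P Q,
    fun a => ?_⟩
  refine (pair_aux Sum.inl_injective ?_ (by simp) (by simp) (by simp)
    (by simp) (by simp) (by simp) (by simp) (by simp) (hP a) (hQ a)).mono ?_
  · intro x y h
    simpa using h
  · have := hsz a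
    simp only [sz] at this
    simp [sz]; omega

/-- The program for branching. -/
def condProg {K0 K1 K2 L : Type} (jC : K0 → L) (jP : K1 → L) (jQ : K2 → L) (A T : Option L)
    (C : Cmd (Option K0)) (P : Cmd (Option K1)) (Q : Cmd (Option K2)) : Cmd (Option L) :=
  .seq (mv none T) (.seq (mv2 T none A) (.seq (C.map (Option.map jC))
      (.ifTop none .skip
        (.seq (clr none) (.seq (mv A T) (.seq (mv T none) (Q.map (Option.map jQ)))))
        (.seq (clr none) (.seq (mv A T) (.seq (mv T none) (P.map (Option.map jP))))))))

/-- Branching, with abstract stack names. -/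
theorem cond_aux {K0 K1 K2 L : Type} [DecidableEq K0] [DecidableEq K1] [DecidableEq K2]
    [DecidableEq L] {jC : K0 → L} {jP : K1 → L} {jQ : K2 → L} {A T : Option L}
    (hjC : Function.Injective jC) (hjP : Function.Injective jP) (hjQ : Function.Injective jQ)
    (hCA : ∀ k, some (jC k) ≠ A)
    (hAT : A ≠ T) (hA : A ≠ none) (hT : T ≠ none)
    {C : Cmd (Option K0)} {P : Cmd (Option K1)} {Q : Cmd (Option K2)} {x y : List Bool}
    {c : Bool} {tc t s : ℕ}
    (hC : Does C (ini x) (ini (enc c).str) tc)
    (hP : c = true → Does P (ini x) (ini y) t) (hQ : c = false → Does Q (ini x) (ini y) s) :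
    Does (condProg jC jP jQ A T C P Q)
      (ini x : St (Option L)) (ini y) (17 * x.length + 15 + tc + (bif c then t else s)) := by
  set σ0 : St (Option L) := ini x with hσ0
  have hs0 : ∀ k, k ≠ none → σ0 k = [] := by
    intro k hk
    cases k with
    | none => exact absurd rfl hk
    | some k => rfl
  obtain ⟨σ1, a1, a2, a3, a4⟩ := mv_spec (a := none) (b := T) hT.symm x σ0 rfl
  have a3' : σ1 T = x.reverse := by rw [a3, hs0 _ hT]; simp
  have hs1 : ∀ k, k ≠ T → σ1 k = [] := by
    intro k hk
    by_cases hk' : k = none
    · rw [hk', a2]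
    · rw [a4 _ hk' hk, hs0 _ hk']
  obtain ⟨σ2, b1, b2, b3, b4, b5⟩ := mv2_spec (a := T) (b := none) (c := A) hT hAT.symm hA.symm
    _ σ1 a3'
  have b3' : σ2 none = x := by rw [b3, a2]; simp
  have b4' : σ2 A = x := by rw [b4, hs1 _ hAT]; simp
  have hs2 : ∀ k, k ≠ none → k ≠ A → σ2 k = [] := by
    intro k hk hk'
    by_cases hkT : k = T
    · rw [hkT, b2]
    · rw [b5 _ hkT hk hk', hs1 _ hkT]
  obtain ⟨σ3, c1, c2, c3, c4⟩ := hC.embed (L := L) hjC σ2 b3' (fun k => hs2 _ (by simp) (hCA k))
  have hs3 : ∀ k, k ≠ none → k ≠ A → σ3 k = [] := by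
    intro k hk hk'
    match k with
    | none => exact absurd rfl hk
    | some k =>
        by_cases hk2 : ∃ k', jC k' = k
        · obtain ⟨k', rfl⟩ := hk2
          exact c2 k'
        · rw [c3 _ (fun k' h => hk2 ⟨k', h⟩), hs2 _ hk hk']
  have hA3 : σ3 A = x := by
    match A, hA, hCA, b4' with
    | none, hA, _, _ => exact absurd rfl hA
    | some X, _, hCA, b4' => rw [c3 _ (fun k hk => hCA k (by rw [hk])), b4']
  -- the common part of both branches
  obtain ⟨σ4, d1, d2, d3⟩ := clr_spec (a := (none : Option L)) (enc c).str σ3 c1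
  have hA4 : σ4 A = x := by rw [d3 _ hA, hA3]
  have hs4 : ∀ k, k ≠ A → σ4 k = [] := by
    intro k hk
    by_cases hkn : k = none
    · rw [hkn, d2]
    · rw [d3 _ hkn, hs3 _ hkn hk]
  obtain ⟨σ5, e1, e2, e3, e4⟩ := mv_spec (a := A) (b := T) hAT _ σ4 hA4
  have hT5 : σ5 T = x.reverse := by rw [e3, hs4 _ hAT.symm]; simp
  have hs5 : ∀ k, k ≠ T → σ5 k = [] := by
    intro k hk
    by_cases hkn : k = A
    · rw [hkn, e2]
    · rw [e4 _ hkn hk, hs4 _ hkn]
  obtain ⟨σ6, f1, f2, f3, f4⟩ := mv_spec (a := T) (b := none) hT _ σ5 hT5
  have hn6 : σ6 none = x := by rw [f3, hs5 _ hT.symm]; simp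
  have hs6 : ∀ k, k ≠ none → σ6 k = [] := by
    intro k hk
    by_cases hkn : k = T
    · rw [hkn, f2]
    · rw [f4 _ hkn hk, hs5 _ hkn]
  have key : ∀ R σ7 t, Does R σ6 σ7 t →
        Does (.seq (clr none) (.seq (mv A T) (.seq (mv T none) R))) σ3 σ7
          (8 + (8 * x.length + 2 + t)) := by
    intro R σ7 t hR
    have hlen : (enc c).str.length ≤ 3 := by
      cases c <;> simp [enc_true, enc_false, D.size]
    refine (d1.seq (e1.seq (f1.seq hR))).mono ?_
    simp only [List.length_reverse]
    omega
  have hσ6 : σ6 = ini x := by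
    funext k
    cases k with
    | none => exact hn6
    | some k => rw [hs6 _ (by simp)]; rfl
  cases c with
  | true =>
      obtain ⟨σ7, h1, h2, h3, h4⟩ := (hP rfl).embed (L := L) hjP σ6 hn6 (fun k => hs6 _ (by simp))
      have : σ7 = ini y := by
        funext k
        match k with
        | none => exact h1
        | some k =>
          by_cases hk2 : ∃ k', jP k' = k
          · obtain ⟨k', rfl⟩ := hk2
            exact h2 k'
          · rw [h3 _ (fun k' h => hk2 ⟨k', h⟩), hs6 _ (by simp)]; rfl
      rw [← this]
      have hbr := Does.ifT (pe := .skip)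
        (pf := .seq (clr none) (.seq (mv A T) (.seq (mv T none) (Q.map (Option.map jQ)))))
        (k := none) (l := [false, false]) (σ := σ3)
        (by rw [c1]; rfl) (key _ _ _ h4)
      refine (a1.seq (b1.seq (c4.seq hbr))).mono ?_
      simp; omega
  | false =>
      obtain ⟨σ7, h1, h2, h3, h4⟩ := (hQ rfl).embed (L := L) hjQ σ6 hn6 (fun k => hs6 _ (by simp))
      have : σ7 = ini y := by
        funext k
        match k with
        | none => exact h1
        | some k =>
          by_cases hk2 : ∃ k', jQ k' = k
          · obtain ⟨k', rfl⟩ := hk2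
            exact h2 k'
          · rw [h3 _ (fun k' h => hk2 ⟨k', h⟩), hs6 _ (by simp)]; rfl
      rw [← this]
      have hbr := Does.ifF (pe := .skip)
        (pt := .seq (clr none) (.seq (mv A T) (.seq (mv T none) (P.map (Option.map jP)))))
        (k := none) (l := []) (σ := σ3)
        (by rw [c1]; rfl) (key _ _ _ h4)
      refine (a1.seq (b1.seq (c4.seq hbr))).mono ?_
      simp; omega

/-- Branching. -/
theorem CT.cond {c : α → Bool} {f g : α → β} {tc t s : α → ℕ} (hc : CT c tc)
    (hf : CT (fun a : {a : α // c a = true} => f a.1) (fun a => t a.1))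
    (hg : CT (fun a : {a : α // c a = false} => g a.1) (fun a => s a.1)) :
    CT (fun a => bif c a then f a else g a)
      (fun a => 30 * sz a + tc a + (bif c a then t a else s a) + 20) := by
  obtain ⟨K0, k1, k2, C, hC⟩ := hc
  obtain ⟨K1, i1, i2, P, hP⟩ := hf
  obtain ⟨K2, j1, j2, Q, hQ⟩ := hg
  refine ⟨K0 ⊕ K1 ⊕ K2 ⊕ Fin 2, inferInstance, inferInstance,
    condProg (L := K0 ⊕ K1 ⊕ K2 ⊕ Fin 2) Sum.inl (fun k => Sum.inr (Sum.inl k))
      (fun k => Sum.inr (Sum.inr (Sum.inl k))) (some (Sum.inr (Sum.inr (Sum.inr 0))))
      (some (Sum.inr (Sum.inr (Sum.inr 1)))) C P Q, fun a => ?_⟩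
  refine (cond_aux (c := c a) (t := t a) (s := s a)
    Sum.inl_injective ?_ ?_ (by simp) (by simp) (by simp) (by simp) (hC a) ?_ ?_).mono ?_
  · intro x y h; simpa using h
  · intro x y h; simpa using h
  · intro h
    have := hP ⟨a, h⟩
    simpa [h, enc_sub] using this
  · intro h
    have := hQ ⟨a, h⟩
    simpa [h, enc_sub] using this
  · simp [sz]; omega

/-- The loop condition: the tree is of the form `cons (cons _ _) _`. -/
def D.go : D → Bool
  | D.cons (D.cons _ _) _ => true
  | _ => false

/-- Loops. -/
theorem CT.while {f : α → α} {t : α → ℕ}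
    (hf : CT (fun a : {a : α // (enc a).go = true} => f a.1) (fun a => t a.1))
    (G : α → α) (T : α → ℕ) (μ : α → ℕ)
    (h0 : ∀ a, (enc a).go = false → G a = a ∧ 10 ≤ T a)
    (h1 : ∀ a, (enc a).go = true → μ (f a) < μ a ∧ G a = G (f a) ∧ t a + T (f a) + 10 ≤ T a) :
    CT G T := by
  obtain ⟨K, i1, i2, P, hP⟩ := hf
  let L := K ⊕ Unit
  let jP : K → L := Sum.inl
  let F : Option L := some (Sum.inr ())
  have hF : F ≠ none := by simp [F]
  let test : Cmd (Option L) := .ifTop none .skip .skip
    (.seq (.pop none) (.seq (.ifTop none .skip .skip (.push F true)) (.push none true)))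
  let body : Cmd (Option L) := .seq (.pop F) (.seq (P.map (Option.map jP)) test)
  -- the state with the flag set according to the condition
  let fl : α → St (Option L) := fun a =>
    Function.update (ini (enc a).str) F (if (enc a).go then [true] else [])
  have htest : ∀ a, Does test (ini (enc a).str) (fl a) 5 := by
    intro a
    cases hd : enc a with
    | nil =>
        have : fl a = ini (D.nil).str := by
          simp only [fl, hd, D.go]
          funext k
          by_cases hk : k = F
          · subst hk; simp [F]
          · rw [Function.update_of_ne hk]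
        rw [this]
        exact Does.mono (t := 2) (Does.ifF (k := none) (l := []) rfl (Does.skip _)) (by omega)
    | cons u v =>
        cases u with
        | nil =>
            have hfl : fl a = ini (D.cons D.nil v).str := by
              simp only [fl, hd, D.go]
              funext k
              by_cases hk : k = F
              · subst hk; simp [F]
              · rw [Function.update_of_ne hk]
            set σ0 : St (Option L) := ini (D.cons D.nil v).str with hσ0
            set σ1 : St (Option L) := Function.update σ0 none (false :: v.str) with hσ1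
            have e1 : Does (.pop none) σ0 σ1 1 := Does.pop none σ0
            have e2 : Does (.ifTop none .skip .skip (.push F true)) σ1 σ1 2 :=
              Does.ifF (l := v.str) (by simp [hσ1]) (Does.skip _)
            have e3 : Does (.push none true) σ1 σ0 1 := by
              have := Does.push none true σ1
              have heq : Function.update σ1 none (true :: σ1 none) = σ0 := by
                funext k
                cases k with
                | none => simp [hσ1, hσ0, D.str]
                | some k => simp [hσ1]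
              rwa [heq] at this
            rw [hfl]
            exact (Does.ifT (k := none) (l := false :: v.str) rfl (e1.seq (e2.seq e3))).mono (by omega)
        | cons u1 u2 =>
            set σ0 : St (Option L) := ini (D.cons (D.cons u1 u2) v).str with hσ0
            set w : List Bool := true :: (u1.str ++ u2.str) ++ v.str with hw
            set σ1 : St (Option L) := Function.update σ0 none w with hσ1
            set σ2 : St (Option L) := Function.update σ1 F [true] with hσ2
            have e1 : Does (.pop none) σ0 σ1 1 := Does.pop none σ0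
            have e2 : Does (.ifTop none .skip .skip (.push F true)) σ1 σ2 2 := by
              refine Does.ifT (l := u1.str ++ u2.str ++ v.str) (by simp [hσ1, hw]) ?_
              have := Does.push F true σ1
              rwa [show σ1 F = [] by simp [hσ1, hσ0, F]] at this
            have e3 : Does (.push none true) σ2 (fl a) 1 := by
              have := Does.push none true σ2
              have heq : Function.update σ2 none (true :: σ2 none) = fl a := by
                funext k
                match k with
                | none =>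
                    simp only [fl, hd]
                    rw [Function.update_of_ne hF.symm]
                    simp [hσ2, hσ1, hw, D.str]
                | some (Sum.inl k) => simp [fl, hσ2, hσ1, hσ0, F]
                | some (Sum.inr ()) => simp [fl, hσ2, F, hd, D.go]
              rwa [heq] at this
            exact (Does.ifT (k := none) (l := w) rfl (e1.seq (e2.seq e3))).mono (by omega)
  have main : ∀ n a, μ a ≤ n → Does (.loop F body) (fl a) (ini (enc (G a)).str) (T a - 5) := by
    intro n
    induction n with
    | zero =>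
        intro a ha
        by_cases hgo : (enc a).go = true
        · have := (h1 a hgo).1; omega
        · have hgo' : (enc a).go = false := by simpa using hgo
          obtain ⟨hG, hT⟩ := h0 a hgo'
          have : fl a = ini (enc (G a)).str := by
            rw [hG]
            funext k
            by_cases hk : k = F
            · subst hk; simp [fl, hgo', F]
            · simp [fl, Function.update_of_ne hk]
          rw [← this]
          exact (Does.loopDone (by simp [fl, hgo'])).mono (by omega)
    | succ n ih =>
        intro a ha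
        by_cases hgo : (enc a).go = true
        · obtain ⟨hμ, hG, hT⟩ := h1 a hgo
          have hrec := ih (f a) (by omega)
          have e1 : Does (.pop F) (fl a) (ini (enc a).str) 1 := by
            have := Does.pop F (fl a)
            have heq : Function.update (fl a) F (fl a F).tail = ini (enc a).str := by
              funext k
              by_cases hk : k = F
              · subst hk; simp [fl, hgo, F]
              · simp [fl, Function.update_of_ne hk]
            rwa [heq] at this
          obtain ⟨τ, b1, b2, b3, b4⟩ := (hP ⟨a, hgo⟩).embed (L := L) (j := jP) Sum.inl_injective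
            (ini (enc a).str) rfl (fun _ => rfl)
          have hτ : τ = ini (enc (f a)).str := by
            funext k
            match k with
            | none => exact b1
            | some (Sum.inl k) => exact b2 k
            | some (Sum.inr ()) => rw [b3 _ (by simp [jP])]; rfl
          rw [hτ] at b4
          have hbody : Does body (fl a) (fl (f a)) (1 + (t a + 5)) :=
            e1.seq (b4.seq (htest (f a)))
          rw [hG]
          refine (Does.loopStep (by simp [fl, hgo]) hbody hrec).mono ?_
          have : 10 ≤ T (f a) ∨ 10 ≤ T (f a) := by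
            left
            by_cases hgo2 : (enc (f a)).go = true
            · have := (h1 _ hgo2).2.2; omega
            · exact (h0 _ (by simpa using hgo2)).2
          omega
        · have hgo' : (enc a).go = false := by simpa using hgo
          obtain ⟨hG, hT⟩ := h0 a hgo'
          have : fl a = ini (enc (G a)).str := by
            rw [hG]
            funext k
            by_cases hk : k = F
            · subst hk; simp [fl, hgo', F]
            · simp [fl, Function.update_of_ne hk]
          rw [← this]
          exact (Does.loopDone (by simp [fl, hgo'])).mono (by omega)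
  refine ⟨L, inferInstance, inferInstance, .seq test (.loop F body), fun a => ?_⟩
  refine ((htest a).seq (main (μ a) a le_rfl)).mono ?_
  have : 10 ≤ T a := by
    by_cases hgo : (enc a).go = true
    · have := (h1 _ hgo).2.2; omega
    · exact (h0 _ (by simpa using hgo)).2
  omega

end Pool.Agent.H53
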