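import Pool.Agent.H53.Comp

/-!
# Compiling stack programs to the Turing machines of Mathlib
-/

namespace Pool.Agent.H53

open Turing

/-- Program points. -/
def Cmd.Lbl {K : Type} : Cmd K → Type
  | .skip => Unit
  | .push _ _ => Unit
  | .pop _ => Unit
  | .seq p q => p.Lbl ⊕ q.Lbl
  | .ifTop _ a b c => Unit ⊕ (a.Lbl ⊕ (b.Lbl ⊕ c.Lbl))
  | .loop _ p => Unit ⊕ p.Lbl

/-- There are finitely many program points. -/
@[reducible] def Cmd.lblFintype {K : Type} : (p : Cmd K) → Fintype p.Lbl
  | .skip => inferInstanceAs (Fintype Unit)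
  | .push _ _ => inferInstanceAs (Fintype Unit)
  | .pop _ => inferInstanceAs (Fintype Unit)
  | .seq p q =>
      have := p.lblFintype
      have := q.lblFintype
      inferInstanceAs (Fintype (p.Lbl ⊕ q.Lbl))
  | .ifTop _ a b c =>
      have := a.lblFintype
      have := b.lblFintype
      have := c.lblFintype
      inferInstanceAs (Fintype (Unit ⊕ (a.Lbl ⊕ (b.Lbl ⊕ c.Lbl))))
  | .loop _ p =>
      have := p.lblFintype
      inferInstanceAs (Fintype (Unit ⊕ p.Lbl))

/-- The entry point. -/
def Cmd.entry {K : Type} : (p : Cmd K) → p.Lbl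
  | .skip => ()
  | .push _ _ => ()
  | .pop _ => ()
  | .seq p _ => Sum.inl p.entry
  | .ifTop _ _ _ _ => Sum.inl ()
  | .loop _ _ => Sum.inl ()

/-- The statements attached to the program points; `ex` is the label reached at the end. -/
def Cmd.code {K Λ : Type} : (p : Cmd K) → (p.Lbl → Λ) → Λ → p.Lbl →
    TM2.Stmt (fun _ : K => Bool) Λ (Option Bool)
  | .skip, _, ex, _ => .goto fun _ => ex
  | .push k b, _, ex, _ => .push k (fun _ => b) (.goto fun _ => ex)
  | .pop k, _, ex, _ => .pop k (fun s _ => s) (.goto fun _ => ex)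
  | .seq p q, emb, _, .inl l => p.code (fun l => emb (.inl l)) (emb (.inr q.entry)) l
  | .seq _ q, emb, ex, .inr l => q.code (fun l => emb (.inr l)) ex l
  | .ifTop k a b c, emb, _, .inl _ =>
      .peek k (fun _ o => o)
        (.branch (fun s => s.isNone) (.goto fun _ => emb (.inr (.inl a.entry)))
          (.branch (fun s => s == some false) (.goto fun _ => emb (.inr (.inr (.inl b.entry))))
            (.goto fun _ => emb (.inr (.inr (.inr c.entry))))))
  | .ifTop _ a _ _, emb, ex, .inr (.inl l) => a.code (fun l => emb (.inr (.inl l))) ex l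
  | .ifTop _ _ b _, emb, ex, .inr (.inr (.inl l)) =>
      b.code (fun l => emb (.inr (.inr (.inl l)))) ex l
  | .ifTop _ _ _ c, emb, ex, .inr (.inr (.inr l)) =>
      c.code (fun l => emb (.inr (.inr (.inr l)))) ex l
  | .loop k p, emb, ex, .inl _ =>
      .peek k (fun _ o => o)
        (.branch (fun s => s.isNone) (.goto fun _ => ex) (.goto fun _ => emb (.inr p.entry)))
  | .loop _ p, emb, _, .inr l => p.code (fun l => emb (.inr l)) (emb (.inl ())) l

section sim

variable {K Λ : Type} [DecidableEq K]

/-- The iterated step function. -/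
abbrev stp (M : Λ → TM2.Stmt (fun _ : K => Bool) Λ (Option Bool)) :
    Option (TM2.Cfg (fun _ : K => Bool) Λ (Option Bool)) →
      Option (TM2.Cfg (fun _ : K => Bool) Λ (Option Bool)) :=
  flip bind (TM2.step M)

theorem Run.sim {p : Cmd K} {σ σ' : St K} {t : ℕ} (h : Run p σ σ' t) :
    ∀ (M : Λ → TM2.Stmt (fun _ : K => Bool) Λ (Option Bool)) (emb : p.Lbl → Λ) (ex : Λ),
      (∀ l, M (emb l) = p.code emb ex l) → ∀ s : Option Bool,
        ∃ s', (stp M)^[t] (some ⟨some (emb p.entry), s, σ⟩) = some ⟨some ex, s', σ'⟩ := by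
  induction h with
  | skip σ =>
      intro M emb ex hM s
      refine ⟨s, ?_⟩
      have := hM ()
      simp [stp, flip, TM2.step, Cmd.entry, this, Cmd.code, TM2.stepAux]
  | push k b σ =>
      intro M emb ex hM s
      refine ⟨s, ?_⟩
      have := hM ()
      simp [stp, flip, TM2.step, Cmd.entry, this, Cmd.code, TM2.stepAux]
  | pop k σ =>
      intro M emb ex hM s
      refine ⟨s, ?_⟩
      have := hM ()
      simp [stp, flip, TM2.step, Cmd.entry, this, Cmd.code, TM2.stepAux]
  | @seq p q σ σ' σ'' t t' h1 h2 ih1 ih2 =>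
      intro M emb ex hM s
      obtain ⟨s1, e1⟩ := ih1 M (fun l => emb (.inl l)) (emb (.inr q.entry))
        (fun l => hM (.inl l)) s
      obtain ⟨s2, e2⟩ := ih2 M (fun l => emb (.inr l)) ex (fun l => hM (.inr l)) s1
      refine ⟨s2, ?_⟩
      rw [Nat.add_comm, Function.iterate_add_apply]
      exact (congrArg _ e1).trans e2
  | @ifE k a b c σ σ' t hk h ih =>
      intro M emb ex hM s
      obtain ⟨s1, e1⟩ := ih M (fun l => emb (.inr (.inl l))) ex (fun l => hM (.inr (.inl l))) none
      refine ⟨s1, ?_⟩
      rw [Function.iterate_succ_apply]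
      have : stp M (some ⟨some (emb (Cmd.ifTop k a b c).entry), s, σ⟩) =
          some ⟨some (emb (.inr (.inl a.entry))), none, σ⟩ := by
        have := hM (.inl ())
        simp [stp, flip, TM2.step, Cmd.entry, this, Cmd.code, TM2.stepAux, hk]
      rw [this]; exact e1
  | @ifF k a b c σ σ' t l hk h ih =>
      intro M emb ex hM s
      obtain ⟨s1, e1⟩ := ih M (fun l => emb (.inr (.inr (.inl l)))) ex
        (fun l => hM (.inr (.inr (.inl l)))) (some false)
      refine ⟨s1, ?_⟩
      rw [Function.iterate_succ_apply]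
      have : stp M (some ⟨some (emb (Cmd.ifTop k a b c).entry), s, σ⟩) =
          some ⟨some (emb (.inr (.inr (.inl b.entry)))), some false, σ⟩ := by
        have := hM (.inl ())
        simp [stp, flip, TM2.step, Cmd.entry, this, Cmd.code, TM2.stepAux, hk]
      rw [this]; exact e1
  | @ifT k a b c σ σ' t l hk h ih =>
      intro M emb ex hM s
      obtain ⟨s1, e1⟩ := ih M (fun l => emb (.inr (.inr (.inr l)))) ex
        (fun l => hM (.inr (.inr (.inr l)))) (some true)
      refine ⟨s1, ?_⟩
      rw [Function.iterate_succ_apply]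
      have : stp M (some ⟨some (emb (Cmd.ifTop k a b c).entry), s, σ⟩) =
          some ⟨some (emb (.inr (.inr (.inr c.entry)))), some true, σ⟩ := by
        have := hM (.inl ())
        simp [stp, flip, TM2.step, Cmd.entry, this, Cmd.code, TM2.stepAux, hk]
      rw [this]; exact e1
  | @loopDone k p σ hk =>
      intro M emb ex hM s
      refine ⟨none, ?_⟩
      have := hM (.inl ())
      simp [stp, flip, TM2.step, Cmd.entry, this, Cmd.code, TM2.stepAux, hk]
  | @loopStep k p σ σ' σ'' t t' hk h1 h2 ih1 ih2 =>
      intro M emb ex hM s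
      obtain ⟨x, l, hxl⟩ := List.exists_cons_of_ne_nil hk
      obtain ⟨s1, e1⟩ := ih1 M (fun l => emb (.inr l)) (emb (.inl ()))
        (fun l => hM (.inr l)) (some x)
      obtain ⟨s2, e2⟩ := ih2 M emb ex hM s1
      refine ⟨s2, ?_⟩
      rw [Function.iterate_succ_apply]
      have : stp M (some ⟨some (emb (Cmd.loop k p).entry), s, σ⟩) =
          some ⟨some (emb (.inr p.entry)), some x, σ⟩ := by
        have := hM (.inl ())
        simp [stp, flip, TM2.step, Cmd.entry, this, Cmd.code, TM2.stepAux, hxl]
      rw [this, Nat.add_comm t t', Function.iterate_add_apply]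
      exact (congrArg _ e1).trans e2

end sim

/-- The transition function of the machine of a program. -/
def Cmd.mach {K : Type} (P : Cmd (Option K)) :
    Option P.Lbl → TM2.Stmt (fun _ : Option K => Bool) (Option P.Lbl) (Option Bool)
  | none => .load (fun _ => none) .halt
  | some l => P.code some none l

/-- The Turing machine of a program. -/
def Cmd.tm {K : Type} [Fintype K] [DecidableEq K] (P : Cmd (Option K)) : Turing.FinTM2 where
  K := Option K
  k₀ := none
  k₁ := none
  Γ := fun _ => Bool
  Λ := Option P.Lbl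
  main := some P.entry
  ΛFin := @instFintypeOption _ P.lblFintype
  σ := Option Bool
  initialState := none
  m := P.mach

/-- The machine with its input and output alphabets. -/
def Cmd.aux {K : Type} [Fintype K] [DecidableEq K] (P : Cmd (Option K)) :
    Turing.TM2ComputableAux Bool Bool where
  tm := P.tm
  inputAlphabet := Equiv.refl Bool
  outputAlphabet := Equiv.refl Bool

theorem Does.outputs {K : Type} [Fintype K] [DecidableEq K] {P : Cmd (Option K)} {x y : List Bool}
    {t : ℕ} (h : Does P (ini x) (ini y) t) :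
    Nonempty (Turing.TM2OutputsInTime P.aux.tm (x.map P.aux.inputAlphabet.invFun)
      (some (y.map P.aux.outputAlphabet.invFun)) (t + 1)) := by
  obtain ⟨s, hs, h⟩ := h
  obtain ⟨s1, e1⟩ := h.sim (Λ := Option P.Lbl) P.mach some none (fun l => rfl) none
  have key : (stp P.mach)^[s + 1] (some ⟨some (some P.entry), none, ini x⟩) =
      some ⟨none, none, ini y⟩ := by
    rw [Function.iterate_succ_apply', e1]
    rfl
  have h1 : Turing.initList P.tm x = ⟨some (some P.entry), none, ini x⟩ := by
    unfold Turing.initList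
    congr 1
    funext k
    cases k with
    | none => rfl
    | some k => rfl
  have h2 : Turing.haltList P.tm y = ⟨none, none, ini y⟩ := by
    unfold Turing.haltList
    congr 1
    funext k
    cases k with
    | none => rfl
    | some k => rfl
  have hx : x.map P.aux.inputAlphabet.invFun = x := List.map_id _
  have hy : y.map P.aux.outputAlphabet.invFun = y := List.map_id _
  rw [hx, hy]
  refine ⟨⟨⟨s + 1, ?_⟩, by simpa using hs⟩⟩
  have h3 : (flip bind P.tm.step)^[s + 1] (some (Turing.initList P.tm x)) =
      some (Turing.haltList P.tm y) := by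
    rw [h1, h2]
    exact key
  exact h3

end Pool.Agent.H53
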