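import Pool.Agent.H53.Defs

/-!
# Contractions and their witness structures
-/

namespace Pool.Agent.H53

variable {V W : Type}

/-- The quotient of `G` by a map. -/
def quot (G : SimpleGraph V) (f : V → W) : SimpleGraph W where
  Adj a b := a ≠ b ∧ ∃ u v, f u = a ∧ f v = b ∧ G.Adj u v
  symm := ⟨fun _ _ h => ⟨h.1.symm, by
    obtain ⟨u, v, hu, hv, h⟩ := h.2
    exact ⟨v, u, hv, hu, h.symm⟩⟩⟩
  loopless := ⟨fun _ h => h.1 rfl⟩

/-- The fibres of `f` are connected. -/
def Conn (G : SimpleGraph V) (f : V → W) : Prop :=
  ∀ u v, f u = f v → Relation.ReflTransGen (fun a b => G.Adj a b ∧ f a = f b) u v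

theorem canContract_zero {P : ∀ {V : Type}, SimpleGraph V → Prop} {V : Type} {G : SimpleGraph V} :
    CanContract P 0 G ↔ P G :=
  ⟨fun h => by cases h with | done h => exact h, CanContract.done⟩

theorem canContract_succ {P : ∀ {V : Type}, SimpleGraph V → Prop} {k : ℕ} {V : Type}
    {G : SimpleGraph V} : CanContract P (k + 1) G ↔
      P G ∨ ∃ u v : V, G.Adj u v ∧ CanContract P k (contractEdge G u v) := by
  constructor
  · intro h
    cases h with
    | done h => exact Or.inl h
    | step u v huv h => exact Or.inr ⟨u, v, huv, h⟩
  · rintro (h | ⟨u, v, huv, h⟩)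
    · exact CanContract.done h
    · exact CanContract.step u v huv h

/-- From a sequence of contractions to a witness structure. -/
theorem CanContract.witness {P : ∀ {V : Type}, SimpleGraph V → Prop} {k : ℕ} :
    ∀ {V : Type} [Fintype V] {G : SimpleGraph V}, CanContract P k G →
      ∃ (W : Type) (_ : Fintype W) (f : V → W), Function.Surjective f ∧ Conn G f ∧
        Fintype.card V ≤ Fintype.card W + k ∧ P (quot G f) := by
  classical
  have base : ∀ {V : Type} [Fintype V] {G : SimpleGraph V} (k : ℕ), P G →
      ∃ (W : Type) (_ : Fintype W) (f : V → W), Function.Surjective f ∧ Conn G f ∧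
        Fintype.card V ≤ Fintype.card W + k ∧ P (quot G f) := by
    intro V _ G k h
    refine ⟨V, inferInstance, id, Function.surjective_id, ?_, by omega, ?_⟩
    · intro u v h
      obtain rfl : u = v := h
      exact Relation.ReflTransGen.refl
    · have : quot G id = G := by
        ext a b
        simp only [quot, id]
        constructor
        · rintro ⟨_, u, v, rfl, rfl, h⟩; exact h
        · intro h; exact ⟨h.ne, a, b, rfl, rfl, h⟩
      rw [this]; exact h
  induction k with
  | zero => intro V _ G h; exact base 0 (canContract_zero.1 h)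
  | succ k ih =>
      intro V _ G h
      rcases canContract_succ.1 h with h | ⟨u, v, huv, h⟩
      · exact base _ h
      · obtain ⟨W, hW, f, hf, hc, hcard, hP⟩ := ih h
        have hne : u ≠ v := huv.ne
        let g : V → W := fun w => if h : w = v then f ⟨u, hne⟩ else f ⟨w, h⟩
        have gv : g v = f ⟨u, hne⟩ := by simp [g]
        have gne : ∀ w (h : w ≠ v), g w = f ⟨w, h⟩ := fun w h => by simp [g, h]
        refine ⟨W, hW, g, ?_, ?_, ?_, ?_⟩
        · intro w
          obtain ⟨x, hx⟩ := hf w
          exact ⟨x.1, by rw [gne _ x.2]; exact hx⟩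
        · -- lift paths
          have lift1 : ∀ a b : {w : V // w ≠ v}, (contractEdge G u v).Adj a b → f a = f b →
              Relation.ReflTransGen (fun a b => G.Adj a b ∧ g a = g b) a.1 b.1 := by
            intro a b hab hfab
            have hguv : g u = g v := by rw [gv, gne u hne]
            rcases hab.2 with h | ⟨h1, h2⟩ | ⟨h1, h2⟩
            · exact Relation.ReflTransGen.single ⟨h, by rw [gne _ a.2, gne _ b.2]; exact hfab⟩
            · have e1 : G.Adj a.1 v := by rw [h1]; exact huv
              have e2 : g a.1 = g v := by rw [h1, hguv]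
              have e3 : g v = g b.1 := by
                rw [← e2, gne _ a.2, gne _ b.2]; exact hfab
              exact (Relation.ReflTransGen.single ⟨e1, e2⟩).tail ⟨h2, e3⟩
            · have e1 : G.Adj v b.1 := by rw [h1]; exact huv.symm
              have e2 : g v = g b.1 := by rw [h1, hguv]
              have e3 : g a.1 = g v := by
                rw [e2, gne _ a.2, gne _ b.2]; exact hfab
              exact (Relation.ReflTransGen.single ⟨h2.symm, e3⟩).tail ⟨e1, e2⟩
          have lift : ∀ a b : {w : V // w ≠ v}, f a = f b →
              Relation.ReflTransGen (fun a b => G.Adj a b ∧ g a = g b) a.1 b.1 := by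
            intro a b hab
            have := hc a b hab
            induction this with
            | refl => exact Relation.ReflTransGen.refl
            | tail h1 h2 ih2 =>
                have h3 : f a = f _ := hab.trans h2.2.symm
                exact (ih2 h3).trans (lift1 _ _ h2.1 h2.2)
          have huv1 : Relation.ReflTransGen (fun a b => G.Adj a b ∧ g a = g b) u v :=
            Relation.ReflTransGen.single ⟨huv, by rw [gv, gne u hne]⟩
          have hvu1 : Relation.ReflTransGen (fun a b => G.Adj a b ∧ g a = g b) v u :=
            Relation.ReflTransGen.single ⟨huv.symm, by rw [gv, gne u hne]⟩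
          intro a b hab
          by_cases ha : a = v
          · by_cases hb : b = v
            · rw [ha, hb]
            · rw [ha] at hab ⊢
              rw [gv, gne _ hb] at hab
              exact hvu1.trans (lift _ _ hab)
          · by_cases hb : b = v
            · rw [hb] at hab ⊢
              rw [gv, gne _ ha] at hab
              exact (lift _ _ hab).trans huv1
            · rw [gne _ ha, gne _ hb] at hab
              exact lift _ _ hab
        · have h1 : Fintype.card {w : V // w ≠ v} = Fintype.card V - 1 := by
            have := Fintype.card_subtype_compl (fun w : V => w = v)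
            rw [Fintype.card_subtype_eq] at this
            exact this
          have : 0 < Fintype.card V := Fintype.card_pos_iff.2 ⟨v⟩
          omega
        · have : quot G g = quot (contractEdge G u v) f := by
            ext a b
            simp only [quot]
            constructor
            · rintro ⟨hab, x, y, rfl, rfl, hxy⟩
              refine ⟨hab, ?_⟩
              by_cases hx : x = v
              · subst hx
                have hy : y ≠ x := hxy.ne'
                refine ⟨⟨u, hne⟩, ⟨y, hy⟩, gv.symm, (gne _ hy).symm, ?_, ?_⟩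
                · intro h
                  apply hab
                  rw [gv, gne _ hy, h]
                · exact Or.inr (Or.inl ⟨rfl, hxy⟩)
              · by_cases hy : y = v
                · subst hy
                  refine ⟨⟨x, hx⟩, ⟨u, hne⟩, (gne _ hx).symm, gv.symm, ?_, ?_⟩
                  · intro h
                    apply hab
                    rw [gv, gne _ hx, h]
                  · exact Or.inr (Or.inr ⟨rfl, hxy.symm⟩)
                · refine ⟨⟨x, hx⟩, ⟨y, hy⟩, (gne _ hx).symm, (gne _ hy).symm, ?_, Or.inl hxy⟩
                  intro h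
                  exact hxy.ne (congrArg Subtype.val h)
            · rintro ⟨hab, x, y, rfl, rfl, hxy⟩
              refine ⟨hab, ?_⟩
              rcases hxy.2 with h | ⟨h1, h2⟩ | ⟨h1, h2⟩
              · exact ⟨x.1, y.1, gne _ x.2, gne _ y.2, h⟩
              · refine ⟨v, y.1, ?_, gne _ y.2, h2⟩
                rw [gv]; congr 1; exact Subtype.ext h1.symm
              · refine ⟨x.1, v, gne _ x.2, ?_, h2.symm⟩
                rw [gv]; congr 1; exact Subtype.ext h1.symm
          rw [this]; exact hP

/-- Isomorphism invariance. -/
def Inv (P : ∀ {V : Type}, SimpleGraph V → Prop) : Prop :=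
  ∀ {V W : Type} (G : SimpleGraph V) (H : SimpleGraph W), Nonempty (G ≃g H) → P G → P H

/-- From a witness structure to a sequence of contractions. -/
theorem CanContract.of_witness {P : ∀ {V : Type}, SimpleGraph V → Prop} (hP : Inv @P) {k : ℕ} :
    ∀ {V : Type} [Fintype V] {G : SimpleGraph V} {W : Type} [Fintype W] (f : V → W),
      Function.Surjective f → Conn G f → Fintype.card V ≤ Fintype.card W + k → P (quot G f) →
        CanContract P k G := by
  classical
  have inj : ∀ {V : Type} {G : SimpleGraph V} {W : Type} (f : V → W),
      Function.Surjective f → Function.Injective f → P (quot G f) → P G := by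
    intro V G W f hs hi h
    refine hP _ _ ⟨(?_ : G ≃g quot G f).symm⟩ h
    refine ⟨Equiv.ofBijective f ⟨hi, hs⟩, ?_⟩
    intro a b
    simp only [quot]
    constructor
    · rintro ⟨_, u, v, hu, hv, huv⟩
      rw [← hi hu, ← hi hv]; exact huv
    · intro h
      exact ⟨fun h' => h.ne (hi h'), a, b, rfl, rfl, h⟩
  induction k with
  | zero =>
      intro V _ G W _ f hs hc hcard h
      have hle := Fintype.card_le_of_surjective f hs
      have : Function.Bijective f := (Fintype.bijective_iff_surjective_and_card f).2
        ⟨hs, by omega⟩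
      exact CanContract.done (inj f hs this.1 h)
  | succ k ih =>
      intro V _ G W _ f hs hc hcard h
      by_cases hi : Function.Injective f
      · exact CanContract.done (inj f hs hi h)
      · -- find an edge inside a fibre
        have hex : ∃ a b, G.Adj a b ∧ f a = f b := by
          simp only [Function.Injective, not_forall] at hi
          obtain ⟨a, b, hab, hne⟩ := hi
          rcases Relation.ReflTransGen.cases_head (hc a b hab) with h | ⟨c, hc, _⟩
          · exact absurd h hne
          · exact ⟨a, c, hc⟩
        obtain ⟨u, v, huv, hfuv⟩ := hex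
        have hne : u ≠ v := huv.ne
        refine CanContract.step u v huv
          (ih (W := W) (fun x : {w : V // w ≠ v} => f x.1) ?_ ?_ ?_ ?_)
        · intro w
          obtain ⟨x, hx⟩ := hs w
          by_cases hxv : x = v
          · exact ⟨⟨u, hne⟩, by rw [← hx, hxv]; exact hfuv⟩
          · exact ⟨⟨x, hxv⟩, hx⟩
        · -- connectivity
          let r : V → {w : V // w ≠ v} := fun x => if h : x = v then ⟨u, hne⟩ else ⟨x, h⟩
          have rv : r v = ⟨u, hne⟩ := by simp [r]
          have rne : ∀ x (h : x ≠ v), r x = ⟨x, h⟩ := fun x h => by simp [r, h]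
          have fr : ∀ x, f (r x).1 = f x := by
            intro x
            by_cases hx : x = v
            · rw [hx, rv]; exact hfuv
            · rw [rne _ hx]
          have step : ∀ x y, G.Adj x y → f x = f y → Relation.ReflTransGen
              (fun a b : {w : V // w ≠ v} => (contractEdge G u v).Adj a b ∧ f a.1 = f b.1)
                (r x) (r y) := by
            intro x y hxy hf
            by_cases hrr : r x = r y
            · rw [hrr]
            · refine Relation.ReflTransGen.single ⟨⟨hrr, ?_⟩, by rw [fr, fr, hf]⟩
              by_cases hx : x = v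
              · subst hx
                have hy : y ≠ x := hxy.ne'
                rw [rv, rne _ hy]
                exact Or.inr (Or.inl ⟨rfl, hxy⟩)
              · by_cases hy : y = v
                · subst hy
                  rw [rv, rne _ hx]
                  exact Or.inr (Or.inr ⟨rfl, hxy.symm⟩)
                · rw [rne _ hx, rne _ hy]
                  exact Or.inl hxy
          have path : ∀ x y, Relation.ReflTransGen (fun a b => G.Adj a b ∧ f a = f b) x y →
              Relation.ReflTransGen
              (fun a b : {w : V // w ≠ v} => (contractEdge G u v).Adj a b ∧ f a.1 = f b.1)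
                (r x) (r y) := by
            intro x y hxy
            induction hxy with
            | refl => exact Relation.ReflTransGen.refl
            | tail _ h2 ih2 => exact ih2.trans (step _ _ h2.1 h2.2)
          intro a b hab
          have := path a.1 b.1 (hc _ _ hab)
          rwa [rne _ a.2, rne _ b.2] at this
        · have h1 : Fintype.card {w : V // w ≠ v} = Fintype.card V - 1 := by
            have := Fintype.card_subtype_compl (fun w : V => w = v)
            rw [Fintype.card_subtype_eq] at this
            exact this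
          have : 0 < Fintype.card V := Fintype.card_pos_iff.2 ⟨v⟩
          omega
        · have : quot (contractEdge G u v) (fun x : {w : V // w ≠ v} => f x.1) = quot G f := by
            ext a b
            simp only [quot]
            constructor
            · rintro ⟨hab, x, y, rfl, rfl, hxy⟩
              refine ⟨hab, ?_⟩
              rcases hxy.2 with h | ⟨h1, h2⟩ | ⟨h1, h2⟩
              · exact ⟨x.1, y.1, rfl, rfl, h⟩
              · exact ⟨v, y.1, by rw [h1, hfuv], rfl, h2⟩
              · exact ⟨x.1, v, rfl, by rw [h1, hfuv], h2.symm⟩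
            · rintro ⟨hab, x, y, rfl, rfl, hxy⟩
              refine ⟨hab, ?_⟩
              by_cases hx : x = v
              · subst hx
                have hy : y ≠ x := hxy.ne'
                refine ⟨⟨u, hne⟩, ⟨y, hy⟩, hfuv, rfl, ?_, Or.inr (Or.inl ⟨rfl, hxy⟩)⟩
                intro h
                apply hab
                rw [← hfuv]; exact congrArg (fun z : {w : V // w ≠ x} => f z.1) h
              · by_cases hy : y = v
                · subst hy
                  refine ⟨⟨x, hx⟩, ⟨u, hne⟩, rfl, hfuv, ?_, Or.inr (Or.inr ⟨rfl, hxy.symm⟩)⟩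
                  intro h
                  apply hab
                  rw [← hfuv]; exact congrArg (fun z : {w : V // w ≠ y} => f z.1) h
                · refine ⟨⟨x, hx⟩, ⟨y, hy⟩, rfl, rfl, ?_, Or.inl hxy⟩
                  intro h
                  exact hxy.ne (congrArg Subtype.val h)
          rw [this]; exact h

theorem canContract_iff {P : ∀ {V : Type}, SimpleGraph V → Prop} (hP : Inv @P) {k : ℕ}
    {V : Type} [Fintype V] {G : SimpleGraph V} :
    CanContract P k G ↔ ∃ (W : Type) (_ : Fintype W) (f : V → W), Function.Surjective f ∧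
      Conn G f ∧ Fintype.card V ≤ Fintype.card W + k ∧ P (quot G f) :=
  ⟨CanContract.witness, fun ⟨_, _, f, h1, h2, h3, h4⟩ => CanContract.of_witness hP f h1 h2 h3 h4⟩

/-- Contractibility is invariant under isomorphism. -/
theorem CanContract.iso {P : ∀ {V : Type}, SimpleGraph V → Prop} (hP : Inv @P) {k : ℕ}
    {V V' : Type} [Fintype V] [Fintype V'] {G : SimpleGraph V} {G' : SimpleGraph V'}
    (e : G ≃g G') (h : CanContract P k G) : CanContract P k G' := by
  obtain ⟨W, hW, f, hs, hc, hcard, h⟩ := h.witness
  refine CanContract.of_witness hP (fun x => f (e.symm x)) (hs.comp e.symm.surjective) ?_ ?_ ?_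
  · intro a b hab
    have h1 := hc _ _ hab
    have key : ∀ x y, Relation.ReflTransGen (fun a b => G.Adj a b ∧ f a = f b) x y →
        Relation.ReflTransGen (fun a b => G'.Adj a b ∧ f (e.symm a) = f (e.symm b))
          (e x) (e y) := by
      intro x y hxy
      induction hxy with
      | refl => exact Relation.ReflTransGen.refl
      | tail _ h2 ih => exact ih.tail ⟨e.map_rel_iff.2 h2.1, by simpa using h2.2⟩
    simpa using key _ _ h1
  · rw [← Fintype.card_congr e.toEquiv]; exact hcard
  · have : quot G' (fun x => f (e.symm x)) = quot G f := by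
      ext a b
      simp only [quot]
      constructor
      · rintro ⟨hab, x, y, hx, hy, hxy⟩
        exact ⟨hab, e.symm x, e.symm y, hx, hy, e.symm.map_rel_iff.2 hxy⟩
      · rintro ⟨hab, x, y, hx, hy, hxy⟩
        exact ⟨hab, e x, e y, by simpa using hx, by simpa using hy, e.map_rel_iff.2 hxy⟩
    rw [this]; exact h

theorem IsFree.inv {U : Type} (H : SimpleGraph U) : Inv (fun G => IsFree H G) := by
  rintro V W G G' ⟨e⟩ h
  exact ⟨fun i => h.false (e.symm.toEmbedding.comp i)⟩

theorem IsFree.inv₂ {U U' : Type} (H : SimpleGraph U) (H' : SimpleGraph U') :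
    Inv (fun G => IsFree H G ∧ IsFree H' G) := by
  rintro V W G G' he h
  exact ⟨IsFree.inv H _ _ he h.1, IsFree.inv H' _ _ he h.2⟩

/-! ### The two forbidden graphs -/

/-- `G` contains an induced claw. -/
def HasClaw (G : SimpleGraph V) : Prop :=
  ∃ c x y z, G.Adj c x ∧ G.Adj c y ∧ G.Adj c z ∧ x ≠ y ∧ x ≠ z ∧ y ≠ z ∧
    ¬ G.Adj x y ∧ ¬ G.Adj x z ∧ ¬ G.Adj y z

/-- `G` contains an induced co-claw. -/
def HasCoclaw (G : SimpleGraph V) : Prop :=
  ∃ d x y z, d ≠ x ∧ d ≠ y ∧ d ≠ z ∧ ¬ G.Adj d x ∧ ¬ G.Adj d y ∧ ¬ G.Adj d z ∧
    G.Adj x y ∧ G.Adj x z ∧ G.Adj y z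

theorem isFree_claw_iff (G : SimpleGraph V) : IsFree claw G ↔ ¬ HasClaw G := by
  constructor
  · rintro h ⟨c, x, y, z, h1, h2, h3, h4, h5, h6, h7, h8, h9⟩
    have n1 := h1.ne
    have n2 := h2.ne
    have n3 := h3.ne
    have h7' : ¬ G.Adj y x := fun h => h7 h.symm
    have h8' : ¬ G.Adj z x := fun h => h8 h.symm
    have h9' : ¬ G.Adj z y := fun h => h9 h.symm
    have e1 : ∀ a b : Fin 1 ⊕ Fin 3, Sum.elim (fun _ => c) ![x, y, z] a =
        Sum.elim (fun _ => c) ![x, y, z] b → a = b := by
      rintro (i | i) (j | j) <;> fin_cases i <;> fin_cases j <;>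
        simp [n1, n2, n3, h4, h5, h6, n1.symm, n2.symm, n3.symm, h4.symm, h5.symm, h6.symm]
    have e2 : ∀ a b : Fin 1 ⊕ Fin 3, G.Adj (Sum.elim (fun _ => c) ![x, y, z] a)
        (Sum.elim (fun _ => c) ![x, y, z] b) ↔ claw.Adj a b := by
      rintro (i | i) (j | j) <;> fin_cases i <;> fin_cases j <;>
        simp [h1, h2, h3, h1.symm, h2.symm, h3.symm, h7, h8, h9, h7', h8', h9']
    exact h.false ⟨⟨_, e1⟩, e2 _ _⟩
  · intro h
    refine ⟨fun e => h ⟨e (.inl 0), e (.inr 0), e (.inr 1), e (.inr 2), ?_, ?_, ?_, ?_, ?_, ?_,
      ?_, ?_, ?_⟩⟩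
    · rw [e.map_rel_iff]; simp
    · rw [e.map_rel_iff]; simp
    · rw [e.map_rel_iff]; simp
    · intro h; have := e.injective h; simp at this
    · intro h; have := e.injective h; simp at this
    · intro h; have := e.injective h; simp at this
    · rw [e.map_rel_iff]; simp
    · rw [e.map_rel_iff]; simp
    · rw [e.map_rel_iff]; simp

theorem isFree_coclaw_iff (G : SimpleGraph V) : IsFree coclaw G ↔ ¬ HasCoclaw G := by
  constructor
  · rintro h ⟨d, x, y, z, n1, n2, n3, h4, h5, h6, h7, h8, h9⟩
    have m1 := h7.ne
    have m2 := h8.ne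
    have m3 := h9.ne
    have h4' : ¬ G.Adj x d := fun h => h4 h.symm
    have h5' : ¬ G.Adj y d := fun h => h5 h.symm
    have h6' : ¬ G.Adj z d := fun h => h6 h.symm
    have e1 : ∀ a b : Fin 3 ⊕ Fin 1, Sum.elim ![x, y, z] (fun _ => d) a =
        Sum.elim ![x, y, z] (fun _ => d) b → a = b := by
      rintro (i | i) (j | j) <;> fin_cases i <;> fin_cases j <;>
        simp [n1, n2, n3, m1, m2, m3, n1.symm, n2.symm, n3.symm, m1.symm, m2.symm, m3.symm]
    have e2 : ∀ a b : Fin 3 ⊕ Fin 1, G.Adj (Sum.elim ![x, y, z] (fun _ => d) a)
        (Sum.elim ![x, y, z] (fun _ => d) b) ↔ coclaw.Adj a b := by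
      rintro (i | i) (j | j) <;> fin_cases i <;> fin_cases j <;>
        simp [h4, h5, h6, h4', h5', h6', h7, h8, h9, h7.symm, h8.symm, h9.symm]
    exact h.false ⟨⟨_, e1⟩, e2 _ _⟩
  · intro h
    refine ⟨fun e => h ⟨e (.inr 0), e (.inl 0), e (.inl 1), e (.inl 2), ?_, ?_, ?_, ?_, ?_, ?_,
      ?_, ?_, ?_⟩⟩
    · intro h; have := e.injective h; simp at this
    · intro h; have := e.injective h; simp at this
    · intro h; have := e.injective h; simp at this
    · rw [e.map_rel_iff]; simp
    · rw [e.map_rel_iff]; simp
    · rw [e.map_rel_iff]; simp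
    · rw [e.map_rel_iff]; simp
    · rw [e.map_rel_iff]; simp
    · rw [e.map_rel_iff]; simp

end Pool.Agent.H53
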