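import Mathlib

/-!
# The convexity lemma

Minimise the sum of the fourth powers of the leftover degrees over all fractional packings; at a
minimiser the directional derivative towards every other admissible direction is nonnegative.
-/

open Finset Filter Topology

namespace H53

/-- If `p ↦ ∑ (p + ε (q - p))^4` is at least `∑ p^4` for all small `ε > 0`, then
`∑ p^4 ≤ ∑ p^3 q`. -/
theorem quart {V : Type} [Fintype V] (p q : V → ℝ) (δ : ℝ) (hδ : 0 < δ)
    (h : ∀ ε : ℝ, 0 < ε → ε ≤ δ →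
      ∑ v, (p v) ^ 4 ≤ ∑ v, ((1 - ε) * p v + ε * q v) ^ 4) :
    ∑ v, (p v) ^ 4 ≤ ∑ v, (p v) ^ 3 * q v := by
  classical
  by_contra hcon
  rw [not_le] at hcon
  -- the second order constant
  set C : ℝ := ∑ v, (6 * (p v) ^ 2 * (q v - p v) ^ 2 + 4 * |p v| * |q v - p v| ^ 3
    + (q v - p v) ^ 4) with hC
  have hC0 : 0 ≤ C := Finset.sum_nonneg fun v _ => by positivity
  set S : ℝ := ∑ v, (p v) ^ 4 - ∑ v, (p v) ^ 3 * q v with hS
  have hS0 : 0 < S := by rw [hS]; linarith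
  obtain ⟨ε, hε0, hε1, hε2, hε3⟩ : ∃ ε : ℝ, 0 < ε ∧ ε ≤ δ ∧ ε ≤ 1 ∧ ε * C < 4 * S := by
    refine ⟨min δ (min 1 (S / (C + 1))), lt_min hδ (lt_min one_pos (by positivity)),
      min_le_left _ _, (min_le_right _ _).trans (min_le_left _ _), ?_⟩
    have h1 : min δ (min 1 (S / (C + 1))) ≤ S / (C + 1) :=
      (min_le_right _ _).trans (min_le_right _ _)
    calc min δ (min 1 (S / (C + 1))) * C ≤ S / (C + 1) * C :=
          mul_le_mul_of_nonneg_right h1 hC0
      _ ≤ S / (C + 1) * (C + 1) := mul_le_mul_of_nonneg_left (by linarith) (by positivity)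
      _ = S := div_mul_cancel₀ _ (by positivity)
      _ < 4 * S := by linarith
  have h2 := h ε hε0 hε1
  have h3 : ∑ v, ((1 - ε) * p v + ε * q v) ^ 4
      ≤ ∑ v, (p v) ^ 4 + 4 * ε * (∑ v, (p v) ^ 3 * q v - ∑ v, (p v) ^ 4) + ε ^ 2 * C := by
    rw [hC, Finset.mul_sum, ← Finset.sum_sub_distrib, Finset.mul_sum, ← Finset.sum_add_distrib,
      ← Finset.sum_add_distrib]
    refine Finset.sum_le_sum fun v _ => ?_
    have e1 : ((1 - ε) * p v + ε * q v) ^ 4 = (p v) ^ 4 + 4 * ε * ((p v) ^ 3 * q v - (p v) ^ 4)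
        + ε ^ 2 * (6 * (p v) ^ 2 * (q v - p v) ^ 2 + 4 * ε * (p v * (q v - p v) ^ 3)
          + ε ^ 2 * (q v - p v) ^ 4) := by ring
    rw [e1]
    have e2 : ε * (p v * (q v - p v) ^ 3) ≤ |p v| * |q v - p v| ^ 3 := by
      have e3 : p v * (q v - p v) ^ 3 ≤ |p v| * |q v - p v| ^ 3 := by
        rw [← abs_pow, ← abs_mul]
        exact le_abs_self _
      have e4 : 0 ≤ |p v| * |q v - p v| ^ 3 := by positivity
      calc ε * (p v * (q v - p v) ^ 3) ≤ ε * (|p v| * |q v - p v| ^ 3) :=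
            mul_le_mul_of_nonneg_left e3 hε0.le
        _ ≤ 1 * (|p v| * |q v - p v| ^ 3) := mul_le_mul_of_nonneg_right hε2 e4
        _ = _ := one_mul _
    have e5 : ε ^ 2 * (q v - p v) ^ 4 ≤ (q v - p v) ^ 4 := by
      have : ε ^ 2 ≤ 1 := pow_le_one₀ hε0.le hε2
      calc ε ^ 2 * (q v - p v) ^ 4 ≤ 1 * (q v - p v) ^ 4 :=
            mul_le_mul_of_nonneg_right this (by positivity)
        _ = _ := one_mul _
    have e6 : 6 * (p v) ^ 2 * (q v - p v) ^ 2 + 4 * ε * (p v * (q v - p v) ^ 3)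
          + ε ^ 2 * (q v - p v) ^ 4
        ≤ 6 * (p v) ^ 2 * (q v - p v) ^ 2 + 4 * |p v| * |q v - p v| ^ 3 + (q v - p v) ^ 4 := by
      have e7 : 4 * ε * (p v * (q v - p v) ^ 3) = 4 * (ε * (p v * (q v - p v) ^ 3)) := by ring
      have e8 : 4 * |p v| * |q v - p v| ^ 3 = 4 * (|p v| * |q v - p v| ^ 3) := by ring
      rw [e7, e8]
      linarith
    have := mul_le_mul_of_nonneg_left e6 (sq_nonneg ε)
    linarith
  have h4 : 0 ≤ 4 * ε * (-S) + ε ^ 2 * C := by
    have : ∑ v, (p v) ^ 3 * q v - ∑ v, (p v) ^ 4 = -S := by rw [hS]; ring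
    rw [this] at h3
    linarith
  have h5 : 4 * ε * (-S) + ε ^ 2 * C = ε * (ε * C - 4 * S) := by ring
  rw [h5] at h4
  have h6 : ε * (ε * C - 4 * S) < 0 := mul_neg_of_pos_of_neg hε0 (by linarith)
  linarith

/-- **Convexity lemma.** `L e t` = weight of the triangle `t` on the edge `e`, `P v e` = weight of
the edge `e` in the leftover degree of `v`. -/
theorem conv_min {T E V : Type} [Fintype T] [Fintype E] [Fintype V] (L : E → T → ℝ)
    (P : V → E → ℝ) (g : E → ℝ) (hL : ∀ e t, 0 ≤ L e t) (hg : ∀ e, 0 ≤ g e)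
    (hT : ∀ t, ∃ e, 0 < L e t) :
    ∃ F : T → ℝ, (∀ t, 0 ≤ F t) ∧ (∀ e, ∑ t, L e t * F t ≤ g e) ∧
      ∀ F' : T → ℝ, (∀ t, 0 ≤ F' t) →
        (∀ e, ∑ t, L e t * F t = g e → ∑ t, L e t * F' t ≤ g e) →
        ∑ v, (∑ e, P v e * (g e - ∑ t, L e t * F t)) ^ 4
          ≤ ∑ v, (∑ e, P v e * (g e - ∑ t, L e t * F t)) ^ 3 *
            (∑ e, P v e * (g e - ∑ t, L e t * F' t)) := by
  classical
  -- the feasible set is compact
  choose ed hed using hT
  set K : Set (T → ℝ) := {F | (∀ t, 0 ≤ F t) ∧ ∀ e, ∑ t, L e t * F t ≤ g e} with hK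
  have hclosed : IsClosed K := by
    have h1 : K = (⋂ t, {F : T → ℝ | 0 ≤ F t}) ∩ ⋂ e, {F : T → ℝ | ∑ t, L e t * F t ≤ g e} := by
      ext F
      simp [hK]
    rw [h1]
    refine IsClosed.inter (isClosed_iInter fun t => ?_) (isClosed_iInter fun e => ?_)
    · exact isClosed_le continuous_const (continuous_apply t)
    · exact isClosed_le (by fun_prop) continuous_const
  have hbdd : K ⊆ Set.pi Set.univ fun t => Set.Icc 0 (g (ed t) / L (ed t) t) := by
    intro F hF t _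
    refine ⟨hF.1 t, ?_⟩
    rw [le_div_iff₀ (hed t)]
    have h1 := hF.2 (ed t)
    have h2 : L (ed t) t * F t ≤ ∑ t', L (ed t) t' * F t' :=
      Finset.single_le_sum (f := fun t' => L (ed t) t' * F t')
        (fun t' _ => mul_nonneg (hL _ _) (hF.1 t')) (Finset.mem_univ t)
    linarith
  have hcompact : IsCompact K :=
    (isCompact_univ_pi fun t => isCompact_Icc).of_isClosed_subset hclosed hbdd
  have hne : K.Nonempty := ⟨fun _ => 0, fun _ => le_rfl, fun e => by simpa using hg e⟩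
  set Ψ : (T → ℝ) → ℝ := fun F => ∑ v, (∑ e, P v e * (g e - ∑ t, L e t * F t)) ^ 4 with hΨ
  have hcont : Continuous Ψ := by
    rw [hΨ]
    fun_prop
  obtain ⟨F, hFK, hmin⟩ := hcompact.exists_isMinOn hne hcont.continuousOn
  refine ⟨F, hFK.1, hFK.2, fun F' hF' htight => ?_⟩
  -- small steps towards `F'` are feasible
  obtain ⟨δ, hδ0, hδ1, hδ⟩ : ∃ δ : ℝ, 0 < δ ∧ δ ≤ 1 ∧ ∀ ε : ℝ, 0 < ε → ε ≤ δ → ∀ e,
      (1 - ε) * ∑ t, L e t * F t + ε * ∑ t, L e t * F' t ≤ g e := by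
    have h1 : ∀ e, ∃ δ : ℝ, 0 < δ ∧ ∀ ε : ℝ, 0 < ε → ε ≤ δ → ε ≤ 1 →
        (1 - ε) * ∑ t, L e t * F t + ε * ∑ t, L e t * F' t ≤ g e := by
      intro e
      set A := ∑ t, L e t * F t with hA
      set B := ∑ t, L e t * F' t with hB
      have hA1 : A ≤ g e := hFK.2 e
      have hB0 : 0 ≤ B := Finset.sum_nonneg fun t _ => mul_nonneg (hL _ _) (hF' t)
      have hA0 : 0 ≤ A := Finset.sum_nonneg fun t _ => mul_nonneg (hL _ _) (hFK.1 t)
      rcases hA1.lt_or_eq with hlt | heq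
      · refine ⟨(g e - A) / (B + 1), div_pos (by linarith) (by linarith), fun ε h0 h1 _ => ?_⟩
        have h2 : ε * (B + 1) ≤ g e - A := by
          rwa [le_div_iff₀ (by linarith)] at h1
        nlinarith [mul_nonneg h0.le hA0]
      · refine ⟨1, one_pos, fun ε h0 _ h1 => ?_⟩
        have h2 : B ≤ g e := htight e heq
        have h3 := mul_le_mul_of_nonneg_left h2 h0.le
        rw [heq]
        nlinarith
    choose d hd0 hd1 using h1
    rcases isEmpty_or_nonempty E with hE | hE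
    · exact ⟨1, one_pos, le_rfl, fun _ _ _ e => (IsEmpty.false e).elim⟩
    · refine ⟨min 1 (Finset.univ.inf' Finset.univ_nonempty d), lt_min one_pos ?_, min_le_left _ _,
        fun ε h0 h1 e => hd1 e ε h0 ?_ (h1.trans (min_le_left _ _))⟩
      · rw [Finset.lt_inf'_iff]
        exact fun e _ => hd0 e
      · exact h1.trans ((min_le_right _ _).trans (Finset.inf'_le _ (Finset.mem_univ e)))
  refine quart _ _ δ hδ0 fun ε h0 h1 => ?_
  have hmem : (fun t => (1 - ε) * F t + ε * F' t) ∈ K := by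
    refine ⟨fun t => ?_, fun e => ?_⟩
    · have := hFK.1 t
      have := hF' t
      have : 0 ≤ 1 - ε := by linarith
      positivity
    · have h2 := hδ ε h0 h1 e
      have h3 : ∑ t, L e t * ((1 - ε) * F t + ε * F' t)
          = (1 - ε) * ∑ t, L e t * F t + ε * ∑ t, L e t * F' t := by
        rw [Finset.mul_sum, Finset.mul_sum, ← Finset.sum_add_distrib]
        exact Finset.sum_congr rfl fun t _ => by ring
      rw [h3]
      exact h2
  have h4 := hmin hmem
  simp only [Set.mem_ofPred_eq, hΨ] at h4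
  refine h4.trans_eq ?_
  refine Finset.sum_congr rfl fun v _ => ?_
  congr 1
  rw [Finset.mul_sum, Finset.mul_sum, ← Finset.sum_add_distrib]
  refine Finset.sum_congr rfl fun e _ => ?_
  have h3 : ∑ t, L e t * ((1 - ε) * F t + ε * F' t)
      = (1 - ε) * ∑ t, L e t * F t + ε * ∑ t, L e t * F' t := by
    rw [Finset.mul_sum, Finset.mul_sum, ← Finset.sum_add_distrib]
    exact Finset.sum_congr rfl fun t _ => by ring
  rw [h3]
  ring

end H53
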