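import Pool.Agent.H53.Stack

/-!
# Binary trees as data, and their encoding as bit strings
-/

namespace Pool.Agent.H53

/-- Binary trees. -/
inductive D : Type
  | nil : D
  | cons (a b : D) : D

namespace D

/-- The number of nodes of a tree. -/
def size : D → ℕ
  | nil => 1
  | cons a b => a.size + b.size + 1

/-- The bit string (in prefix order) of a tree. -/
def str : D → List Bool
  | nil => [false]
  | cons a b => true :: (a.str ++ b.str)

/-- First component (`nil` for `nil`). -/
def car : D → D
  | nil => nil
  | cons a _ => a

/-- Second component (`nil` for `nil`). -/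
def cdr : D → D
  | nil => nil
  | cons _ b => b

@[simp] theorem str_length (d : D) : d.str.length = d.size := by
  induction d with
  | nil => rfl
  | cons a b iha ihb => simp [str, size, iha, ihb]

theorem size_pos (d : D) : 0 < d.size := by cases d <;> simp [size]

@[simp] theorem car_cons (a b : D) : (cons a b).car = a := rfl
@[simp] theorem cdr_cons (a b : D) : (cons a b).cdr = b := rfl
@[simp] theorem car_nil : nil.car = nil := rfl
@[simp] theorem cdr_nil : nil.cdr = nil := rfl
@[simp] theorem size_nil : nil.size = 1 := rfl
@[simp] theorem size_cons (a b : D) : (cons a b).size = a.size + b.size + 1 := rfl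

end D

open Cmd

section parse

variable {K : Type} [DecidableEq K]

/-- Body of the parsing loop: move one symbol from `src` to `dst`, and update the number of
trees still to be read, kept on `cnt`. -/
def parseBody (src dst cnt : K) : Cmd K :=
  .ifTop src (.pop cnt) (.seq (.pop src) (.seq (.push dst false) (.pop cnt)))
    (.seq (.pop src) (.seq (.push dst true) (.push cnt true)))

/-- Move one tree from `src` to `dst` (reversing its string). -/
def parse (src dst cnt : K) : Cmd K :=
  .seq (.push cnt true) (.loop cnt (parseBody src dst cnt))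

theorem parse_aux {src dst cnt : K} (h1 : src ≠ dst) (h2 : src ≠ cnt) (h3 : dst ≠ cnt) (d : D) :
    ∀ (σ : St K) (r c : List Bool), σ src = d.str ++ r → σ cnt = true :: c →
      ∃ σ1 : St K, σ1 src = r ∧ σ1 dst = d.str.reverse ++ σ dst ∧ σ1 cnt = c ∧
        (∀ k, k ≠ src → k ≠ dst → k ≠ cnt → σ1 k = σ k) ∧
        ∀ (σ2 : St K) (t : ℕ), Does (.loop cnt (parseBody src dst cnt)) σ1 σ2 t →
          Does (.loop cnt (parseBody src dst cnt)) σ σ2 (t + 5 * d.size) := by
  have h1' := h1.symm
  have h2' := h2.symm
  have h3' := h3.symm
  induction d with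
  | nil =>
      intro σ r c hs hc
      set τ1 : St K := Function.update σ src r with hτ1
      set τ2 : St K := Function.update τ1 dst (false :: σ dst) with hτ2
      set τ3 : St K := Function.update τ2 cnt c with hτ3
      refine ⟨τ3, ?_, ?_, ?_, ?_, ?_⟩
      · simp [hτ3, hτ2, hτ1, Function.update_of_ne h1, Function.update_of_ne h2]
      · simp [hτ3, hτ2, hτ1, Function.update_of_ne h3, D.str]
      · simp [hτ3]
      · intro k hk1 hk2 hk3
        rw [hτ3, Function.update_of_ne hk3, hτ2, Function.update_of_ne hk2, hτ1,
          Function.update_of_ne hk1]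
      · intro σ2 t ht
        have e1 : Does (.pop src) σ τ1 1 := by
          have := Does.pop src σ
          rwa [hs, D.str, List.cons_append, List.tail_cons, List.nil_append] at this
        have e2 : Does (.push dst false) τ1 τ2 1 := by
          have := Does.push dst false τ1
          rwa [show τ1 dst = σ dst by simp [hτ1, Function.update_of_ne h1']] at this
        have e3 : Does (.pop cnt) τ2 τ3 1 := by
          have := Does.pop cnt τ2
          rwa [show τ2 cnt = true :: c by
            simp [hτ2, hτ1, Function.update_of_ne h2', Function.update_of_ne h3', hc],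
            List.tail_cons] at this
        have eb : Does (parseBody src dst cnt) σ τ3 (1 + (1 + 1) + 1) :=
          Does.ifF (l := r) (by rw [hs]; rfl) (e1.seq (e2.seq e3))
        refine (Does.loopStep (by rw [hc]; simp) eb ht).mono ?_
        simp [D.size]; omega
  | cons a b iha ihb =>
      intro σ r c hs hc
      set τ1 : St K := Function.update σ src (a.str ++ b.str ++ r) with hτ1
      set τ2 : St K := Function.update τ1 dst (true :: σ dst) with hτ2
      set τ3 : St K := Function.update τ2 cnt (true :: true :: c) with hτ3
      have e1 : Does (.pop src) σ τ1 1 := by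
        have := Does.pop src σ
        rwa [hs, D.str, List.cons_append, List.tail_cons] at this
      have e2 : Does (.push dst true) τ1 τ2 1 := by
        have := Does.push dst true τ1
        rwa [show τ1 dst = σ dst by simp [hτ1, Function.update_of_ne h1']] at this
      have e3 : Does (.push cnt true) τ2 τ3 1 := by
        have := Does.push cnt true τ2
        rwa [show τ2 cnt = true :: c by
          simp [hτ2, hτ1, Function.update_of_ne h2', Function.update_of_ne h3', hc]] at this
      have eb : Does (parseBody src dst cnt) σ τ3 (1 + (1 + 1) + 1) :=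
        Does.ifT (l := a.str ++ b.str ++ r) (by rw [hs]; rfl) (e1.seq (e2.seq e3))
      obtain ⟨σa, a1, a2, a3, a4, a5⟩ := iha τ3 (b.str ++ r) (true :: c)
        (by simp [hτ3, hτ2, hτ1, Function.update_of_ne h1, Function.update_of_ne h2])
        (by simp [hτ3])
      obtain ⟨σb, b1, b2, b3, b4, b5⟩ := ihb σa r c a1 a3
      refine ⟨σb, b1, ?_, b3, ?_, ?_⟩
      · rw [b2, a2]
        simp [hτ3, hτ2, Function.update_of_ne h3, D.str]
      · intro k hk1 hk2 hk3
        rw [b4 k hk1 hk2 hk3, a4 k hk1 hk2 hk3, hτ3, Function.update_of_ne hk3, hτ2,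
          Function.update_of_ne hk2, hτ1, Function.update_of_ne hk1]
      · intro σ2 t ht
        have := a5 _ _ (b5 _ _ ht)
        refine (Does.loopStep (by rw [hc]; simp) eb this).mono ?_
        simp [D.size]; omega

theorem parse_spec {src dst cnt : K} (h1 : src ≠ dst) (h2 : src ≠ cnt) (h3 : dst ≠ cnt) (d : D)
    (σ : St K) (r : List Bool) (hs : σ src = d.str ++ r) (hc : σ cnt = []) :
    ∃ σ' : St K, Does (parse src dst cnt) σ σ' (5 * d.size + 2) ∧ σ' src = r ∧
      σ' dst = d.str.reverse ++ σ dst ∧ σ' cnt = [] ∧
      ∀ k, k ≠ src → k ≠ dst → k ≠ cnt → σ' k = σ k := by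
  set σ0 : St K := Function.update σ cnt (true :: []) with hσ0
  have e0 : Does (.push cnt true) σ σ0 1 := by
    have := Does.push cnt true σ
    rwa [hc] at this
  obtain ⟨σ1, a1, a2, a3, a4, a5⟩ := parse_aux h1 h2 h3 d σ0 r []
    (by simp [hσ0, Function.update_of_ne h2, hs]) (by simp [hσ0])
  refine ⟨σ1, ?_, a1, ?_, a3, ?_⟩
  · refine (e0.seq (a5 _ _ (Does.loopDone a3))).mono ?_
    omega
  · rw [a2]; simp [hσ0, Function.update_of_ne h3]
  · intro k hk1 hk2 hk3
    rw [a4 k hk1 hk2 hk3, hσ0, Function.update_of_ne hk3]

end parse

end Pool.Agent.H53
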