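import Mathlib

/-!
# Parameterized graph problems, edge contraction, FPT and W[2]-hardness: definitions
-/

namespace Pool.Agent.H53

open Turing

/-! ### Edge contraction -/

/-- Contracting the edge `uv` of `G`: the vertex `v` is removed, and `u` becomes adjacent to every
other vertex that was adjacent to `u` or to `v`.  (Loops and parallel edges are discarded, since the
result is again a simple graph.) -/
def contractEdge {V : Type} (G : SimpleGraph V) (u v : V) : SimpleGraph {w : V // w ≠ v} where
  Adj a b := a ≠ b ∧ (G.Adj a b ∨ (a.1 = u ∧ G.Adj v b) ∨ (b.1 = u ∧ G.Adj v a))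
  symm := ⟨fun a b h => ⟨h.1.symm, by
    rcases h.2 with h | h | h
    · exact Or.inl h.symm
    · exact Or.inr (Or.inr h)
    · exact Or.inr (Or.inl h)⟩⟩
  loopless := ⟨fun _ h => h.1 rfl⟩

/-- `CanContract P k G`: by contracting at most `k` edges, one after the other, the graph `G` can be
turned into a graph with property `P`. -/
inductive CanContract (P : ∀ {V : Type}, SimpleGraph V → Prop) :
    ℕ → ∀ {V : Type}, SimpleGraph V → Prop
  | done {k : ℕ} {V : Type} {G : SimpleGraph V} (h : P G) : CanContract @P k G
  | step {k : ℕ} {V : Type} {G : SimpleGraph V} (u v : V) (huv : G.Adj u v)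
      (h : CanContract @P k (contractEdge G u v)) : CanContract @P (k + 1) G

/-- `G` is `H`-free: no induced subgraph of `G` is isomorphic to `H`. -/
def IsFree {W : Type} (H : SimpleGraph W) {V : Type} (G : SimpleGraph V) : Prop :=
  IsEmpty (H ↪g G)

/-- The claw `K_{1,3}`. -/
abbrev claw : SimpleGraph (Fin 1 ⊕ Fin 3) := completeBipartiteGraph (Fin 1) (Fin 3)

/-- The co-claw: the disjoint union of a triangle and an isolated vertex. -/
abbrev coclaw : SimpleGraph (Fin 3 ⊕ Fin 1) :=
  (⊤ : SimpleGraph (Fin 3)).sum (⊤ : SimpleGraph (Fin 1))

/-! ### Parameterized graph problems -/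

/-- An instance of a parameterized graph problem: a finite graph (on the vertex set
`{0, ..., n - 1}`) and the parameter. -/
structure Instance where
  /-- the number of vertices -/
  n : ℕ
  /-- the graph -/
  G : SimpleGraph (Fin n)
  /-- the parameter -/
  k : ℕ

/-- A parameterized graph problem: the set of its yes-instances. -/
abbrev Problem := Instance → Prop

/-- `H`-FREE CONTRACTION. -/
def FreeContraction {W : Type} (H : SimpleGraph W) : Problem := fun x =>
  CanContract (fun G => IsFree H G) x.k x.G

/-- `{H₁, H₂}`-FREE CONTRACTION. -/
def FreeContraction₂ {W₁ W₂ : Type} (H₁ : SimpleGraph W₁) (H₂ : SimpleGraph W₂) : Problem :=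
  fun x => CanContract (fun G => IsFree H₁ G ∧ IsFree H₂ G) x.k x.G

/-- DOMINATING SET: is there a set `D` of at most `k` vertices such that every vertex is in `D` or
has a neighbour in `D`? -/
def DominatingSet : Problem := fun x =>
  ∃ D : Finset (Fin x.n), D.card ≤ x.k ∧ ∀ v, v ∈ D ∨ ∃ u ∈ D, x.G.Adj u v

/-! ### Encoding of instances by bit strings -/

/-- Code of a list of bit strings: every entry is preceded by `true`, and `false` marks the end of
the list. -/
def codeList (l : List (List Bool)) : List Bool := (l.flatMap fun s => true :: s) ++ [false]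

/-- Unary code of a natural number. -/
def codeNat (n : ℕ) : List Bool := codeList (List.replicate n [false])

/-- Code of a bit. -/
def codeBit (b : Bool) : List Bool := if b then [true, false, false] else [false]

open Classical in
/-- Code of a graph: its adjacency matrix, as a list of rows. -/
noncomputable def codeGraph {n : ℕ} (G : SimpleGraph (Fin n)) : List Bool :=
  codeList ((List.finRange n).map fun i =>
    codeList ((List.finRange n).map fun j => codeBit (decide (G.Adj i j))))

/-- Code of an instance `(G, k)`. -/
noncomputable def encode (x : Instance) : List Bool :=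
  true :: (codeNat x.n ++ (true :: (codeGraph x.G ++ codeNat x.k)))

/-! ### Fixed-parameter tractability and FPT reductions

The machine model is that of Mathlib: `Turing.FinTM2`, Turing machines with finitely many stacks. -/

/-- The machine `M`, started on the word `x`, stops with output `y` after at most `t` steps. -/
def Computes (M : TM2ComputableAux Bool Bool) (x y : List Bool) (t : ℕ) : Prop :=
  Nonempty (TM2OutputsInTime M.tm (x.map M.inputAlphabet.invFun)
    (some (y.map M.outputAlphabet.invFun)) t)

/-- FPT: some Turing machine decides the problem in time `f(k) * |x|^c`, with `f` computable.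
(All stacks of the machine are required to have finite alphabets.) -/
def FPT (Q : Problem) : Prop :=
  ∃ (M : TM2ComputableAux Bool Bool) (f : ℕ → ℕ) (c : ℕ), (∀ k, Finite (M.tm.Γ k)) ∧
    Computable f ∧
    ∀ x : Instance, ∃ b : Bool, (b = true ↔ Q x) ∧
      Computes M (encode x) [b] (f x.k * (encode x).length ^ c)

/-- Parameterized (FPT) reductions: a Turing machine maps every instance `(G, k)` of `P` to an
equivalent instance of `Q`, in time `f(k) * |x|^c`, and the new parameter is at most `g(k)`, with
`f` and `g` computable. -/
def FPTReduces (P Q : Problem) : Prop :=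
  ∃ (r : Instance → Instance) (M : TM2ComputableAux Bool Bool) (f g : ℕ → ℕ) (c : ℕ),
    (∀ k, Finite (M.tm.Γ k)) ∧ Computable f ∧ Computable g ∧
    (∀ x, P x ↔ Q (r x)) ∧ (∀ x, (r x).k ≤ g x.k) ∧
    ∀ x, Computes M (encode x) (encode (r x)) (f x.k * (encode x).length ^ c)

/-- W[2]-hardness: DOMINATING SET, the standard W[2]-complete problem, reduces to the problem. -/
def W2Hard (Q : Problem) : Prop := FPTReduces DominatingSet Q

end Pool.Agent.H53
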