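import Pool.Agent.H53.AlgSize

/-!
# The pair claw, co-claw: contraction is fixed-parameter tractable
-/

namespace Pool.Agent.H53

open Turing

/-! ### Powers of two in unary -/

theorem foldl_double (m s : ℕ) :
    (List.replicate m ()).foldl (fun s x => (fun p : Unit × ℕ => p.2 + p.2) (x, s)) s =
      2 ^ m * s := by
  induction m generalizing s with
  | zero => simp
  | succ m ih =>
      rw [List.replicate_succ, List.foldl_cons, ih, pow_succ]
      ring

theorem CT.two_pow : ∃ q, PB q ∧ CT (fun m : ℕ => 2 ^ m) (fun m => q (2 ^ m)) := by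
  have hg : PT (fun p : Unit × ℕ => p.2 + p.2) := by fun_prop
  obtain ⟨c, hc⟩ := CT.foldl hg
  have hi : CT (fun m : ℕ => (List.replicate m (), 1)) _ :=
    CT.pair (CT.of_enc_eq enc_replicate) (CT.const (α := ℕ) (1 : ℕ))
  have hs : PT (fun p : List Unit × ℕ => p.2) := by fun_prop
  obtain ⟨d, hd⟩ := hs
  have h1 := (hi.comp hc).comp hd
  have hpow : ∀ m : ℕ, m ≤ 2 ^ m := fun m => (Nat.lt_two_pow_self).le
  let q : ℕ → ℕ := fun u =>
    (30 * (2 * u + 1) + 9 * 1 + (2 * (2 * u + 1) + 3 + 2) + 20) +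
      (u * (mb c ((2 * u + 1) + (2 * u + 1) + 1) + 10) + 10) + mb d (2 * u + 3)
  have hq : PB q := by
    have i := PB.id
    have k : ∀ k, PB (fun _ => k) := PB.const
    have e1 : PB (fun u => 2 * u + 1) := ((k 2).mul i).add (k 1)
    exact ((((((k 30).mul e1).add (k (9 * 1))).add ((((k 2).mul e1).add (k 3)).add (k 2))).add
      (k 20)).add ((i.mul (((PB.mb c).comp ((e1.add e1).add (k 1))).add (k 10))).add (k 10))).add
      ((PB.mb d).comp (((k 2).mul i).add (k 3)))
  refine ⟨q, hq, ?_⟩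
  have h2 : CT (fun m : ℕ => 2 ^ m) _ := h1.transfer _ (fun m => m) (fun _ => rfl) (fun m => by
    show enc ((List.replicate m ()).foldl
      (fun s x => (fun p : Unit × ℕ => p.2 + p.2) (x, s)) 1) = _
    rw [foldl_double, mul_one])
  refine h2.mono fun m => ?_
  have hu := hpow m
  have hpos : 1 ≤ 2 ^ m := Nat.one_le_two_pow
  refine Nat.add_le_add (Nat.add_le_add ?_ ?_) ?_
  · show 30 * sz m + 9 * 1 + (2 * sz m + sz (1 : ℕ) + 2) + 20 ≤ _
    rw [sz_nat, sz_nat]
    omega
  · refine (foldT_le (M := 2 * 2 ^ m + 1) _ _ ?_).trans ?_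
    · intro l1 l2 h
      have hl : l1 = List.replicate l1.length () := List.eq_replicate_of_mem fun _ _ => rfl
      show sz (l1.foldl (fun s x => (fun p : Unit × ℕ => p.2 + p.2) (x, s)) 1) ≤ _
      rw [hl, foldl_double, mul_one, sz_nat]
      have hlen : l1.length ≤ m := by
        have := congrArg List.length h
        simp at this
        omega
      have := Nat.pow_le_pow_right (show 0 < 2 by omega) hlen
      omega
    · have hszl : sz (List.replicate m ()) = 2 * m + 1 := by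
        have : sz (List.replicate m ()) = sz m := congrArg D.size (enc_replicate m)
        rw [this, sz_nat]
      show (List.replicate m ()).length * (mb c (sz (List.replicate m ()) + (2 * 2 ^ m + 1) + 1) +
        10) + 10 ≤ _
      rw [hszl, List.length_replicate]
      refine Nat.add_le_add (Nat.mul_le_mul hu (Nat.add_le_add (mb_mono ?_) le_rfl)) le_rfl
      omega
  · apply mb_mono
    show sz (([] : List Unit), (List.replicate m ()).foldl
      (fun s x => (fun p : Unit × ℕ => p.2 + p.2) (x, s)) 1) ≤ _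
    rw [foldl_double, mul_one, sz_pair', sz_nil, sz_nat]
    omega

/-- The exponent of the padding. -/
def eP (k : ℕ) : ℕ := (1 + nB k (5 * k)) * (5 * k)

theorem nS_le (k : ℕ) : nS k ≤ 2 ^ eP k := by
  calc (1 + nB k (5 * k)) ^ (5 * k) ≤ (2 ^ (1 + nB k (5 * k))) ^ (5 * k) :=
        Nat.pow_le_pow_left (Nat.lt_two_pow_self).le _
    _ = 2 ^ ((1 + nB k (5 * k)) * (5 * k)) := (pow_mul _ _ _).symm

theorem eP_PT : PT eP := by
  unfold eP nB
  fun_prop

/-- Adding the padding. -/
def padI (x : RawI) : Padded := ⟨(x, 2 ^ eP x.2.2), nS_le _⟩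

theorem padI_CT : ∃ p q, PB p ∧ PB q ∧ CT padI (fun x => p (sz x) + q (2 ^ eP x.2.2)) := by
  obtain ⟨q, hq, h1⟩ := CT.two_pow
  have h2 : PT (fun x : RawI => eP x.2.2) := PT.comp eP_PT (by fun_prop)
  obtain ⟨c, hc⟩ := h2
  have h3 := CT.pair (CT.id (α := RawI)) (hc.comp h1)
  refine ⟨fun s => 30 * s + 9 * 1 + mb c s + 20, q, ?_, hq, ?_⟩
  · exact ((((PB.const 30).mul PB.id).add (PB.const (9 * 1))).add (PB.mb c)).add (PB.const 20)
  · have h4 : CT padI _ := h3.transfer padI (fun x => x) (fun _ => rfl) (fun _ => rfl)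
    refine h4.mono fun x => ?_
    show 30 * sz x + 9 * 1 + (mb c (sz x) + q (2 ^ eP x.2.2)) + 20 ≤
      30 * sz x + 9 * 1 + mb c (sz x) + 20 + q (2 ^ eP x.2.2)
    omega

/-- The algorithm, with its running time. -/
theorem alg_CT : ∃ m, CT alg (fun x => (sz x + 2) ^ m * (2 ^ eP x.2.2 + 2) ^ m) := by
  obtain ⟨p, q, ⟨a, ha⟩, ⟨b, hb⟩, h1⟩ := padI_CT
  obtain ⟨c, hc⟩ := alg_PT
  have h2 := h1.comp hc
  refine ⟨a + b + c + 1, ?_⟩
  have h3 : CT alg _ := h2.transfer alg (fun x => x) (fun _ => rfl) (fun _ => rfl)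
  refine h3.mono fun x => ?_
  show p (sz x) + q (2 ^ eP x.2.2) + mb c (sz (padI x)) ≤ _
  generalize hu : 2 ^ eP x.2.2 = u
  generalize hs : sz x = s
  have hsz : sz (padI x) = s + 2 * u + 2 := by
    have : sz (padI x) = sz x + sz (2 ^ eP x.2.2) + 1 := rfl
    rw [this, sz_nat, hu, hs]; ring
  rw [hsz, mb]
  have k1 : p s ≤ (s + 2) ^ (a + b + c) * (u + 2) ^ (a + b + c) := by
    calc p s ≤ (s + 2) ^ a := ha s
      _ ≤ (s + 2) ^ (a + b + c) := Nat.pow_le_pow_right (by omega) (by omega)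
      _ ≤ _ := Nat.le_mul_of_pos_right _ (by positivity)
  have k2 : q u ≤ (s + 2) ^ (a + b + c) * (u + 2) ^ (a + b + c) := by
    calc q u ≤ (u + 2) ^ b := hb u
      _ ≤ (u + 2) ^ (a + b + c) := Nat.pow_le_pow_right (by omega) (by omega)
      _ ≤ _ := Nat.le_mul_of_pos_left _ (by positivity)
  have k3 : (s + 2 * u + 2 + 2) ^ c ≤ (s + 2) ^ (a + b + c) * (u + 2) ^ (a + b + c) := by
    calc (s + 2 * u + 2 + 2) ^ c ≤ ((s + 2) * (u + 2)) ^ c := by
          apply Nat.pow_le_pow_left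
          nlinarith
      _ = (s + 2) ^ c * (u + 2) ^ c := by rw [mul_pow]
      _ ≤ _ := Nat.mul_le_mul (Nat.pow_le_pow_right (by omega) (by omega))
          (Nat.pow_le_pow_right (by omega) (by omega))
  have k4 : 4 * ((s + 2) ^ (a + b + c) * (u + 2) ^ (a + b + c)) ≤
      (s + 2) ^ (a + b + c + 1) * (u + 2) ^ (a + b + c + 1) := by
    rw [pow_succ, pow_succ]
    have : 4 ≤ (s + 2) * (u + 2) := by nlinarith
    calc 4 * ((s + 2) ^ (a + b + c) * (u + 2) ^ (a + b + c)) ≤
          ((s + 2) * (u + 2)) * ((s + 2) ^ (a + b + c) * (u + 2) ^ (a + b + c)) :=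
          Nat.mul_le_mul_right _ this
      _ = _ := by ring
  omega

/-- Turning the code of the answer into one bit. -/
def outCmd (K : Type) : Cmd (Option K) :=
  .ifTop none .skip .skip (.seq (clr none) (.push none true))

theorem outCmd_spec {K : Type} [DecidableEq K] (b : Bool) :
    Does (outCmd K) (ini (enc b).str) (ini [b]) 10 := by
  cases b with
  | false => exact (Does.ifF (k := none) (l := []) rfl (Does.skip _)).mono (by omega)
  | true =>
      obtain ⟨σ1, a1, a2, a3⟩ := clr_spec (a := (none : Option K)) (enc true).str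
        (ini (enc true).str) rfl
      have h1 := Does.push none true σ1
      have h2 : Function.update σ1 none (true :: σ1 none) = ini [true] := by
        funext k
        cases k with
        | none => simp [a2]
        | some k => simp [a3 (some k) (by simp)]
      rw [h2] at h1
      exact (Does.ifT (k := none) (l := [false, false]) rfl (a1.seq h1)).mono (by
        simp [enc_true, D.size])

theorem fB_computable (m : ℕ) : Computable (fun k => (2 ^ eP k + 2) ^ m) := by
  have hpow : Primrec₂ (fun a b : ℕ => a ^ b) := Primrec₂.unpaired'.1 Nat.Primrec.pow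
  have hadd : Primrec₂ (fun a b : ℕ => a + b) := Primrec.nat_add
  have hmul : Primrec₂ (fun a b : ℕ => a * b) := Primrec.nat_mul
  have c : ∀ k : ℕ, Primrec (fun _ : ℕ => k) := Primrec.const
  have i : Primrec (fun k : ℕ => k) := Primrec.id
  have h5 : Primrec (fun k : ℕ => 5 * k) := hmul.comp (c 5) i
  have h1 : Primrec (fun k : ℕ => k + 55) := hadd.comp i (c 55)
  have h2 : Primrec (fun k : ℕ => 3 * k + 51) := hadd.comp (hmul.comp (c 3) i) (c 51)
  have h3 : Primrec (fun k : ℕ => nB k (5 * k)) := by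
    unfold nB
    exact hadd.comp (hadd.comp (hmul.comp h1 h2) (hadd.comp (hmul.comp h5 h5) h5))
      (hadd.comp (c 4) h5)
  have h4 : Primrec eP := by
    unfold eP
    exact hmul.comp (hadd.comp (c 1) h3) h5
  exact (hpow.comp (hadd.comp (hpow.comp (c 2) h4) (c 2)) (c m)).to_comp

/-- {claw, co-claw}-free contraction is fixed-parameter tractable. -/
theorem pair_FPT : FPT (FreeContraction₂ claw coclaw) := by
  obtain ⟨m, K, i1, i2, P, hP⟩ := alg_CT
  refine ⟨(Cmd.seq P (outCmd K)).aux, fun k => (2 ^ eP k + 2) ^ (m + 3), 2 * (m + 3),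
    fun _ => (inferInstance : Finite Bool), fB_computable _, fun x => ⟨alg (raw x),
    alg_correct x, ?_⟩⟩
  have h1 := (hP (raw x)).seq (outCmd_spec (alg (raw x)))
  rw [← encode_eq] at h1
  set s := (encode x).length with hs
  have hs' : s = sz (raw x) := encode_length x
  have hs3 : 3 ≤ s := hs' ▸ sz_raw x
  have h2 : ∀ t, t ≤ (s + 2) ^ m * (2 ^ eP x.k + 2) ^ m →
      t + 12 ≤ (2 ^ eP x.k + 2) ^ (m + 3) * s ^ (2 * (m + 3)) := by
    intro t ht
    have e1 : s + 2 ≤ s ^ 2 := by nlinarith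
    have e2 : (s + 2) ^ (m + 3) ≤ s ^ (2 * (m + 3)) := by
      rw [pow_mul]
      exact Nat.pow_le_pow_left e1 _
    generalize 2 ^ eP x.k = u at *
    have e3 : 1 ≤ (s + 2) ^ m * (u + 2) ^ m := Nat.one_le_iff_ne_zero.2 (by positivity)
    have e4 : (s + 2) ^ (m + 3) * (u + 2) ^ (m + 3) =
        ((s + 2) ^ m * (u + 2) ^ m) * ((s + 2) ^ 3 * (u + 2) ^ 3) := by ring
    have e5 : 5 ^ 3 * 2 ^ 3 ≤ (s + 2) ^ 3 * (u + 2) ^ 3 :=
      Nat.mul_le_mul (Nat.pow_le_pow_left (by omega) _) (Nat.pow_le_pow_left (by omega) _)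
    have e6 : t + 12 ≤ (s + 2) ^ (m + 3) * (u + 2) ^ (m + 3) := by
      rw [e4]
      nlinarith
    calc t + 12 ≤ (s + 2) ^ (m + 3) * (u + 2) ^ (m + 3) := e6
      _ ≤ s ^ (2 * (m + 3)) * (u + 2) ^ (m + 3) := Nat.mul_le_mul_right _ e2
      _ = _ := by ring
  have h3 := h2 ((sz (raw x) + 2) ^ m * (2 ^ eP (raw x).2.2 + 2) ^ m) (by
    rw [← hs']; exact le_rfl)
  have h4 : (sz (raw x) + 2) ^ m * (2 ^ eP (raw x).2.2 + 2) ^ m + 10 ≤
      (2 ^ eP x.k + 2) ^ (m + 3) * s ^ (2 * (m + 3)) - 1 := by omega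
  exact (h1.mono h4).outputs.map fun o => by
    have h5 : (2 ^ eP x.k + 2) ^ (m + 3) * s ^ (2 * (m + 3)) - 1 + 1 =
        (2 ^ eP x.k + 2) ^ (m + 3) * s ^ (2 * (m + 3)) := by omega
    rwa [h5] at o

end Pool.Agent.H53
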