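import Pool.Agent.H53.Touched

/-!
# DOMINATING SET reduces to claw-free contraction: the combinatorial part
-/

namespace Pool.Agent.H53

/-- Vertices of the constructed graph. -/
inductive KV (n m r : ℕ) : Type
  | x : KV n m r
  | v (s : Fin n) : KV n m r
  | w (i : Fin m) : KV n m r
  | b (u : Fin n) (i : Fin m) : KV n m r
  | a (j : Fin r) : KV n m r
  | q (j : Fin r) (i : Fin m) : KV n m r
  | c (i : Fin m) : KV n m r
  | d (i : Fin m) : KV n m r
  deriving DecidableEq, Fintype

/-- Adjacency of the constructed graph. -/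
def clR {n : ℕ} (G : SimpleGraph (Fin n)) (m r : ℕ) : KV n m r → KV n m r → Prop
  | .x, .v _ => True
  | .x, .w _ => True
  | .x, .c _ => True
  | .v _, .v _ => True
  | .v _, .w _ => True
  | .v s, .b u _ => s = u ∨ G.Adj s u
  | .v _, .a _ => True
  | .w _, .w _ => True
  | .b _ _, .b _ _ => True
  | .b _ _, .a _ => True
  | .b _ _, .q _ _ => True
  | .b _ _, .c _ => True
  | .a _, .a _ => True
  | .a j, .q j' _ => j = j'
  | .a _, .c _ => True
  | .q _ _, .q _ _ => True
  | .q _ _, .c _ => True
  | .q _ _, .d _ => True
  | .c _, .c _ => True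
  | .c _, .d _ => True
  | .d _, .d _ => True
  | _, _ => False

/-- The constructed graph. -/
def clG {n : ℕ} (G : SimpleGraph (Fin n)) (m r : ℕ) : SimpleGraph (KV n m r) :=
  SimpleGraph.fromRel (clR G m r)

variable {n k : ℕ} {G : SimpleGraph (Fin n)}

theorem cl_sound (h : CanContract (fun G => IsFree claw G) k (clG G (2 * k + 1) (2 * k + 2))) :
    ∃ D : Finset (Fin n), D.card ≤ k ∧ ∀ v, v ∈ D ∨ ∃ u ∈ D, G.Adj u v := by
  classical
  obtain ⟨W, hW, f, hs, hc, hcard, hP⟩ := h.witness
  rw [isFree_claw_iff] at hP
  set D : Finset (Fin n) := Finset.univ.filter (fun s => f (.v s) = f .x) with hD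
  refine ⟨D, ?_, ?_⟩
  · have := fiber_card hs hcard .x (D.image KV.v) (by simp) (by
      intro y hy
      obtain ⟨s, hs', rfl⟩ := Finset.mem_image.1 hy
      rw [hD, Finset.mem_filter] at hs'
      exact hs'.2)
    rwa [Finset.card_image_of_injective _ (fun a b h => by simpa using h)] at this
  · -- untouched vertices
    obtain ⟨iw, hiw⟩ := exists_untouched hs hcard (I := Fin (2 * k + 1)) (J := Unit)
      (fun i _ => KV.w i) (by simp) (by simp)
    have uw := hiw ()
    obtain ⟨ic, hic⟩ := exists_untouched hs hcard (I := Fin (2 * k + 1)) (J := Unit)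
      (fun i _ => KV.c i) (by simp) (by simp)
    have uc := hic ()
    obtain ⟨id, hid⟩ := exists_untouched hs hcard (I := Fin (2 * k + 1)) (J := Unit)
      (fun i _ => KV.d i) (by simp) (by simp)
    have ud := hid ()
    obtain ⟨ja, hja⟩ := exists_untouched hs hcard (I := Fin (2 * k + 2)) (J := Unit)
      (fun j _ => KV.a j) (by simp) (by simp)
    have ua := hja ()
    have huq : ∀ j : Fin (2 * k + 2), ∃ i : Fin (2 * k + 1), ¬ Touched f (KV.q j i) := by
      intro j
      obtain ⟨i, hi⟩ := exists_untouched hs hcard (I := Fin (2 * k + 1)) (J := Unit)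
        (fun i _ => KV.q j i) (by simp) (by simp)
      exact ⟨i, hi ()⟩
    -- the three leaves are pairwise distinct and nonadjacent
    have xw : (quot (clG G (2 * k + 1) (2 * k + 2)) f).Adj (f .x) (f (.w iw)) :=
      quot_adj_of_adj (by simp [clG, clR]) (ne_of_untouched uw (by simp)).symm
    -- no `b`
    have nb : ∀ u i, f (.b u i) ≠ f .x := by
      intro u i hb
      obtain ⟨j', hj'⟩ : ∃ j' : Fin (2 * k + 2), ja ≠ j' := by
        by_cases h0 : ja = ⟨0, by omega⟩
        · refine ⟨⟨1, by omega⟩, ?_⟩
          rw [h0]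
          intro h
          have := congrArg Fin.val h
          simp at this
        · exact ⟨_, h0⟩
      obtain ⟨iq, uq⟩ := huq j'
      refine hP ⟨f .x, f (.q j' iq), f (.a ja), f (.w iw), ?_, ?_, xw,
        ne_of_untouched uq (by simp), ne_of_untouched uq (by simp), ne_of_untouched ua (by simp),
        ?_, ?_, ?_⟩
      · rw [← hb]
        exact quot_adj_of_adj (by simp [clG, clR]) (ne_of_untouched uq (by simp)).symm
      · rw [← hb]
        exact quot_adj_of_adj (by simp [clG, clR]) (ne_of_untouched ua (by simp)).symm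
      · rw [quot_adj_untouched uq ua]; simp [clG, clR, hj']
      · rw [quot_adj_untouched uq uw]; simp [clG, clR]
      · rw [quot_adj_untouched ua uw]; simp [clG, clR]
    -- no `a`
    have na : ∀ j, f (.a j) ≠ f .x := by
      intro j hb
      have hj' : ja ≠ j := by
        rintro rfl
        exact ua ⟨.x, by simp, hb.symm⟩
      obtain ⟨iq, uq⟩ := huq j
      refine hP ⟨f .x, f (.q j iq), f (.a ja), f (.w iw), ?_, ?_, xw,
        ne_of_untouched uq (by simp), ne_of_untouched uq (by simp), ne_of_untouched ua (by simp),
        ?_, ?_, ?_⟩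
      · rw [← hb]
        exact quot_adj_of_adj (by simp [clG, clR]) (ne_of_untouched uq (by simp)).symm
      · rw [← hb]
        exact quot_adj_of_adj (by simp [clG, clR, hj'.symm])
          (ne_of_untouched ua (by simp [hj'])).symm
      · rw [quot_adj_untouched uq ua]; simp [clG, clR, hj']
      · rw [quot_adj_untouched uq uw]; simp [clG, clR]
      · rw [quot_adj_untouched ua uw]; simp [clG, clR]
    -- no `c`
    have nc : ∀ i, f (.c i) ≠ f .x := by
      intro i hb
      refine hP ⟨f .x, f (.d id), f (.a ja), f (.w iw), ?_, ?_, xw,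
        ne_of_untouched ud (by simp), ne_of_untouched ud (by simp), ne_of_untouched ua (by simp),
        ?_, ?_, ?_⟩
      · rw [← hb]
        exact quot_adj_of_adj (by simp [clG, clR]) (ne_of_untouched ud (by simp)).symm
      · rw [← hb]
        exact quot_adj_of_adj (by simp [clG, clR]) (ne_of_untouched ua (by simp)).symm
      · rw [quot_adj_untouched ud ua]; simp [clG, clR]
      · rw [quot_adj_untouched ud uw]; simp [clG, clR]
      · rw [quot_adj_untouched ua uw]; simp [clG, clR]
    -- the fibre of `x`
    have fib : ∀ y, f y = f .x → y = .x ∨ (∃ s, y = .v s) ∨ ∃ i, y = .w i := by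
      intro y hy
      have := hc _ _ hy.symm
      induction this with
      | refl => left; rfl
      | @tail p p' h1 h2 ih =>
          have hp' : f p' = f .x := hy
          have hp : f p = f .x := h2.2.trans hp'
          have adj := h2.1
          rcases ih hp with rfl | ⟨s, rfl⟩ | ⟨i, rfl⟩
          · cases p' with
            | x => left; rfl
            | v s => right; left; exact ⟨s, rfl⟩
            | w i => right; right; exact ⟨i, rfl⟩
            | b u i => exact absurd hp' (nb u i)
            | a j => exact absurd hp' (na j)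
            | q j i => simp [clG, clR] at adj
            | c i => exact absurd hp' (nc i)
            | d i => simp [clG, clR] at adj
          · cases p' with
            | x => left; rfl
            | v s => right; left; exact ⟨s, rfl⟩
            | w i => right; right; exact ⟨i, rfl⟩
            | b u i => exact absurd hp' (nb u i)
            | a j => exact absurd hp' (na j)
            | q j i => simp [clG, clR] at adj
            | c i => exact absurd hp' (nc i)
            | d i => simp [clG, clR] at adj
          · cases p' with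
            | x => left; rfl
            | v s => right; left; exact ⟨s, rfl⟩
            | w i => right; right; exact ⟨i, rfl⟩
            | b u i => exact absurd hp' (nb u i)
            | a j => exact absurd hp' (na j)
            | q j i => simp [clG, clR] at adj
            | c i => exact absurd hp' (nc i)
            | d i => simp [clG, clR] at adj
    -- domination
    intro u
    obtain ⟨i, hi⟩ := exists_untouched hs hcard (I := Fin (2 * k + 1)) (J := Unit)
      (fun i _ => KV.b u i) (by simp) (by simp)
    have ub := hi ()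
    have a6 : (quot (clG G (2 * k + 1) (2 * k + 2)) f).Adj (f (.b u i)) (f .x) := by
      by_contra a6
      refine hP ⟨f (.c ic), f (.b u i), f .x, f (.d id), ?_, ?_, ?_, ne_of_untouched ub (by simp),
        ne_of_untouched ub (by simp), (ne_of_untouched ud (by simp)).symm, a6, ?_, ?_⟩
      · exact quot_adj_of_adj (by simp [clG, clR]) (ne_of_untouched uc (by simp))
      · exact quot_adj_of_adj (by simp [clG, clR]) (ne_of_untouched uc (by simp))
      · exact quot_adj_of_adj (by simp [clG, clR]) (ne_of_untouched uc (by simp))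
      · rw [quot_adj_untouched ub ud]; simp [clG, clR]
      · rw [SimpleGraph.adj_comm, quot_adj_left ud]
        rintro ⟨_, y, hy, hadj⟩
        rcases fib y hy with rfl | ⟨s, rfl⟩ | ⟨i, rfl⟩ <;> simp [clG, clR] at hadj
    rw [quot_adj_left ub] at a6
    obtain ⟨_, p, hp, hadj⟩ := a6
    rcases fib p hp with rfl | ⟨s, rfl⟩ | ⟨i, rfl⟩
    · simp [clG, clR] at hadj
    · have hsD : s ∈ D := by rw [hD, Finset.mem_filter]; exact ⟨Finset.mem_univ _, hp⟩
      simp only [clG, SimpleGraph.fromRel_adj, clR] at hadj
      rcases hadj.2 with h | h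
      · exact absurd h (by simp)
      · rcases h with h | h
        · left; rw [← h]; exact hsD
        · right; exact ⟨s, hsD, h⟩
    · simp [clG, clR] at hadj

/-- Adjacency after contraction. -/
def clQ {n : ℕ} (G : SimpleGraph (Fin n)) (m r : ℕ) : KV n m r → KV n m r → Prop
  | .x, .v _ => True
  | .x, .w _ => True
  | .x, .b _ _ => True
  | .x, .a _ => True
  | .x, .c _ => True
  | .v _, .x => True
  | .w _, .x => True
  | .b _ _, .x => True
  | .a _, .x => True
  | .c _, .x => True
  | p, q => (clG G m r).Adj p q

/-- The two cliques covering the neighbourhoods. -/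
def clSide {n m r : ℕ} : KV n m r → KV n m r → Bool
  | .x, .v _ => true
  | .x, .w _ => true
  | .v _, .x => true
  | .v _, .v _ => true
  | .v _, .w _ => true
  | .w _, _ => true
  | .b _ _, .v _ => true
  | .b _ _, .a _ => true
  | .b _ _, .x => true
  | .a _, .v _ => true
  | .a _, .x => true
  | .a _, .a _ => true
  | .c _, .x => true
  | .c _, .b _ _ => true
  | .c _, .a _ => true
  | .c _, .c _ => true
  | .q _ _, .b _ _ => true
  | .q _ _, .c _ => true
  | .q _ _, .a _ => true
  | .d _, _ => true
  | _, _ => false

theorem clQ_side {m r : ℕ} (p p1 p2 : KV n m r) (h1 : clQ G m r p p1) (h2 : clQ G m r p p2)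
    (hs : clSide p p1 = clSide p p2) (hne : p1 ≠ p2) : clQ G m r p1 p2 := by
  cases p <;> cases p1 <;> cases p2 <;>
    simp_all [clQ, clSide, clG, clR]

theorem clQ_ne {m r : ℕ} {u v : KV n m r} (hu : u ≠ .x) (hv : v ≠ .x) :
    clQ G m r u v ↔ (clG G m r).Adj u v := by
  cases u <;> cases v <;> simp [clQ] at hu hv ⊢

theorem clQ_of_adj {m r : ℕ} {u v : KV n m r} (h : (clG G m r).Adj u v) : clQ G m r u v := by
  cases u <;> cases v <;> simp [clQ, clG, clR] at h ⊢ <;> exact h

theorem clQ_symm {m r : ℕ} {u v : KV n m r} (h : clQ G m r u v) : clQ G m r v u := by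
  by_cases hu : u = .x
  · subst hu
    cases v <;> simp [clQ, clG, clR] at h ⊢
  · by_cases hv : v = .x
    · subst hv
      cases u <;> simp [clQ, clG, clR] at h ⊢
    · rw [clQ_ne hv hu]
      rw [clQ_ne hu hv] at h
      exact h.symm

theorem clQ_v {m r : ℕ} {u : KV n m r} {s : Fin n} (hu : u ≠ .x)
    (h : (clG G m r).Adj u (.v s)) : clQ G m r u .x := by
  cases u <;> simp [clQ, clG, clR] at hu h ⊢

theorem cl_complete (hn : 0 < n) {m r : ℕ} (D : Finset (Fin n)) (hD : D.card ≤ k)
    (hdom : ∀ v, v ∈ D ∨ ∃ u ∈ D, G.Adj u v) :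
    CanContract (fun G => IsFree claw G) k (clG G m r) := by
  classical
  obtain ⟨s0, hs0⟩ : ∃ s, s ∈ D := by
    rcases hdom ⟨0, hn⟩ with h | ⟨u, h, _⟩
    · exact ⟨_, h⟩
    · exact ⟨_, h⟩
  let p : KV n m r → Prop := fun t => ∀ s ∈ D, t ≠ .v s
  have px : p .x := fun s _ => by simp
  let f : KV n m r → {t : KV n m r // p t} := fun t => if h : p t then ⟨t, h⟩ else ⟨.x, px⟩
  have fp : ∀ t (h : p t), f t = ⟨t, h⟩ := fun t h => by simp [f, h]
  have fx : f .x = ⟨.x, px⟩ := fp _ px
  have fn : ∀ t, ¬ p t → f t = f .x := fun t h => by rw [fx]; simp [f, h]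
  have fD : ∀ s ∈ D, f (.v s) = f .x := fun s hs => fn _ (fun h => h s hs rfl)
  have fval : ∀ t, ¬ p t → ∃ s ∈ D, t = .v s := by
    intro t ht
    simp only [p, not_forall, not_not] at ht
    obtain ⟨s, hs, h⟩ := ht
    exact ⟨s, hs, h⟩
  refine CanContract.of_witness (IsFree.inv _) f (fun t => ⟨t.1, by rw [fp _ t.2]⟩) ?_ ?_ ?_
  · -- connectivity
    have key : ∀ u, f u = f .x → u = .x ∨ ∃ s ∈ D, u = .v s := by
      intro u hu
      by_cases hpu : p u
      · left
        rw [fp _ hpu, fx] at hu
        exact congrArg Subtype.val hu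
      · right; exact fval _ hpu
    have tox : ∀ u, f u = f .x →
        Relation.ReflTransGen (fun a b => (clG G m r).Adj a b ∧ f a = f b) u .x ∧
        Relation.ReflTransGen (fun a b => (clG G m r).Adj a b ∧ f a = f b) .x u := by
      intro u hu
      rcases key u hu with rfl | ⟨s, hs, rfl⟩
      · exact ⟨Relation.ReflTransGen.refl, Relation.ReflTransGen.refl⟩
      · exact ⟨Relation.ReflTransGen.single ⟨by simp [clG, clR], hu⟩,
          Relation.ReflTransGen.single ⟨by simp [clG, clR], hu.symm⟩⟩
    intro u v huv
    by_cases hu : f u = f .x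
    · exact (tox u hu).1.trans (tox v (huv ▸ hu)).2
    · have hpu : p u := by by_contra h; exact hu (fn _ h)
      have hpv : p v := by by_contra h; exact hu (huv.trans (fn _ h))
      rw [fp _ hpu, fp _ hpv] at huv
      have : u = v := congrArg Subtype.val huv
      rw [this]
  · -- cardinality
    have h1 := Fintype.card_subtype_compl (fun t : KV n m r => p t)
    have h2 : Fintype.card {t : KV n m r // ¬ p t} ≤ D.card := by
      have : Fintype.card {t : KV n m r // ¬ p t} ≤ (D.image (KV.v (m := m) (r := r))).card := by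
        rw [Fintype.card_subtype]
        apply Finset.card_le_card
        intro t ht
        rw [Finset.mem_filter] at ht
        obtain ⟨s, hs, rfl⟩ := fval t ht.2
        exact Finset.mem_image_of_mem _ hs
      exact this.trans Finset.card_image_le
    have h3 := Fintype.card_subtype_le (fun t : KV n m r => p t)
    omega
  · show IsFree claw _
    rw [isFree_claw_iff]
    -- adjacency in the quotient
    have hx : ∀ t, clQ G m r .x t → ∀ ht : p t, (quot (clG G m r) f).Adj (f .x) ⟨t, ht⟩ := by
      intro t hQ ht
      refine ⟨?_, ?_⟩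
      · rw [fx]
        intro h
        have h' : KV.x = t := congrArg Subtype.val h
        rw [← h'] at hQ
        simp [clQ, clG] at hQ
      · cases t with
        | x => simp [clQ, clG] at hQ
        | v s => exact ⟨.x, .v s, rfl, fp _ ht, by simp [clG, clR]⟩
        | w i => exact ⟨.x, .w i, rfl, fp _ ht, by simp [clG, clR]⟩
        | b u i =>
            rcases hdom u with h | ⟨s, hs, h⟩
            · exact ⟨.v u, .b u i, fD u h, fp _ ht, by simp [clG, clR]⟩
            · exact ⟨.v s, .b u i, fD s hs, fp _ ht, by simp [clG, clR, h]⟩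
        | a j => exact ⟨.v s0, .a j, fD s0 hs0, fp _ ht, by simp [clG, clR]⟩
        | q j i => simp [clQ, clG, clR] at hQ
        | c i => exact ⟨.x, .c i, rfl, fp _ ht, by simp [clG, clR]⟩
        | d i => simp [clQ, clG, clR] at hQ
    have toQ : ∀ a b : {t : KV n m r // p t}, (quot (clG G m r) f).Adj a b →
        clQ G m r a.1 b.1 := by
      rintro a b ⟨hab, u, v, hu, hv, huv⟩
      by_cases hpu : p u
      · by_cases hpv : p v
        · rw [← hu, ← hv, fp _ hpu, fp _ hpv]
          exact clQ_of_adj huv
        · obtain ⟨s, hs, rfl⟩ := fval _ hpv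
          rw [fD s hs] at hv
          rw [← hu, ← hv, fp _ hpu, fx]
          have hne : u ≠ .x := by
            rintro rfl
            exact hab (hu.symm.trans hv)
          exact clQ_v hne huv
      · obtain ⟨s, hs, rfl⟩ := fval _ hpu
        rw [fD s hs] at hu
        by_cases hpv : p v
        · rw [← hu, ← hv, fp _ hpv, fx]
          have hne : v ≠ .x := by
            rintro rfl
            exact hab (hu.symm.trans hv)
          exact clQ_symm (clQ_v hne huv.symm)
        · obtain ⟨s', hs', rfl⟩ := fval _ hpv
          rw [fD s' hs'] at hv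
          exact absurd (hu.symm.trans hv) hab
    have from' : ∀ a b : {t : KV n m r // p t}, clQ G m r a.1 b.1 →
        (quot (clG G m r) f).Adj a b := by
      rintro ⟨a, ha⟩ ⟨b, hb⟩ hab
      have hab' : clQ G m r a b := hab
      by_cases hax : a = .x
      · subst hax
        rw [← fx]
        exact hx _ hab' hb
      · by_cases hbx : b = .x
        · subst hbx
          rw [← fx]
          exact (hx a (clQ_symm hab') ha).symm
        · have : (clG G m r).Adj a b := (clQ_ne hax hbx).1 hab'
          refine ⟨?_, a, b, fp _ ha, fp _ hb, this⟩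
          intro h
          exact this.ne (congrArg Subtype.val h)
    rintro ⟨c, x, y, z, h1, h2, h3, n1, n2, n3, h4, h5, h6⟩
    have e1 := toQ _ _ h1
    have e2 := toQ _ _ h2
    have e3 := toQ _ _ h3
    have key : ∀ p1 p2 : {t : KV n m r // p t}, p1 ≠ p2 → clQ G m r c.1 p1.1 →
        clQ G m r c.1 p2.1 → ¬ (quot (clG G m r) f).Adj p1 p2 →
        clSide c.1 p1.1 ≠ clSide c.1 p2.1 := by
      intro p1 p2 hne hc1 hc2 hnadj hside
      exact hnadj (from' _ _ (clQ_side _ _ _ hc1 hc2 hside (fun h => hne (Subtype.ext h))))
    have k1 := key _ _ n1 e1 e2 h4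
    have k2 := key _ _ n2 e1 e3 h5
    have k3 := key _ _ n3 e2 e3 h6
    clear key e1 e2 e3 from' toQ hx
    generalize clSide c.1 x.1 = t1 at k1 k2
    generalize clSide c.1 y.1 = t2 at k1 k3
    generalize clSide c.1 z.1 = t3 at k2 k3
    cases t1 <;> cases t2 <;> cases t3 <;> simp at k1 k2 k3

end Pool.Agent.H53
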