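import Pool.Agent.H53.Raw

/-!
# Graphs given by lists of descriptors
-/

namespace Pool.Agent.H53

/-- Descriptors of vertices. -/
abbrev Desc := ℕ × ℕ × ℕ

/-- Equality of descriptors. -/
def deq (a b : Desc) : Bool := a.1 == b.1 && (a.2.1 == b.2.1 && a.2.2 == b.2.2)

theorem deq_iff (a b : Desc) : deq a b = true ↔ a = b := by
  obtain ⟨a1, a2, a3⟩ := a
  obtain ⟨b1, b2, b3⟩ := b
  simp [deq]

/-- Symmetric and irreflexive form of a relation on descriptors. -/
def adjB (R : Desc → Desc → Bool) (a b : Desc) : Bool := !(deq a b) && (R a b || R b a)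

/-- The graph given by a list of descriptors and a relation. -/
def listG (L : List Desc) (R : Desc → Desc → Bool) : SimpleGraph (Fin L.length) where
  Adj i j := adjB R (L.get i) (L.get j) = true
  symm := ⟨fun i j h => by
    simp only [adjB, Bool.and_eq_true, Bool.or_eq_true, Bool.not_eq_true',
      Bool.eq_false_iff, ne_eq, deq_iff] at h ⊢
    exact ⟨fun h' => h.1 h'.symm, h.2.symm⟩⟩
  loopless := ⟨fun i h => by
    simp only [adjB, Bool.and_eq_true, Bool.not_eq_true', Bool.eq_false_iff, ne_eq,
      deq_iff] at h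
    exact h.1 trivial⟩

theorem map_get_finRange {α β : Type} (L : List α) (f : α → β) :
    (List.finRange L.length).map (fun i => f (L.get i)) = L.map f := by
  apply List.ext_getElem
  · simp
  · intro i h1 h2
    simp

theorem rows_listG (L : List Desc) (R : Desc → Desc → Bool) :
    rows (listG L R) = L.map (fun a => L.map (fun b => adjB R a b)) := by
  classical
  have h : ∀ i : Fin L.length, (List.finRange L.length).map
      (fun j => decide ((listG L R).Adj i j)) = L.map (fun b => adjB R (L.get i) b) := by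
    intro i
    rw [← map_get_finRange L (fun b => adjB R (L.get i) b)]
    apply List.map_congr_left
    intro j _
    have h : (listG L R).Adj i j ↔ adjB R (L.get i) (L.get j) = true := Iff.rfl
    by_cases h' : adjB R (L.get i) (L.get j) = true
    · rw [h', decide_eq_true (h.2 h')]
    · rw [decide_eq_false (fun h2 => h' (h.1 h2))]
      exact (Bool.eq_false_iff.2 h').symm
  unfold rows
  rw [← map_get_finRange L (fun a => L.map (fun b => adjB R a b))]
  apply List.map_congr_left
  intro i _
  rw [← h i]

/-- All descriptors with given tags and ranges. -/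
def descs (S : List Desc) : List Desc :=
  S.flatMap fun p => (List.range p.2.1).flatMap fun a => (List.range p.2.2).map fun b => (p.1, a, b)

theorem mem_descs {S : List Desc} {d : Desc} :
    d ∈ descs S ↔ ∃ p ∈ S, d.1 = p.1 ∧ d.2.1 < p.2.1 ∧ d.2.2 < p.2.2 := by
  obtain ⟨t, a, b⟩ := d
  simp only [descs, List.mem_flatMap, List.mem_map, List.mem_range, Prod.mk.injEq]
  constructor
  · rintro ⟨p, hp, a', ha', b', hb', rfl, rfl, rfl⟩
    exact ⟨p, hp, rfl, ha', hb'⟩
  · rintro ⟨p, hp, h1, h2, h3⟩
    exact ⟨p, hp, a, h2, b, h3, h1.symm, rfl, rfl⟩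

theorem nodup_descs {S : List Desc} (h : (S.map (fun p => p.1)).Nodup) : (descs S).Nodup := by
  rw [descs, List.nodup_flatMap]
  constructor
  · intro p _
    rw [List.nodup_flatMap]
    constructor
    · intro a _
      refine List.Nodup.map ?_ List.nodup_range
      intro b b' hb
      simpa using hb
    · refine List.nodup_range.imp ?_
      intro a a' hne d hd hd'
      simp only [List.mem_map] at hd hd'
      obtain ⟨b, _, rfl⟩ := hd
      obtain ⟨b', _, h'⟩ := hd'
      simp only [Prod.mk.injEq] at h'
      exact hne h'.2.1.symm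
  · rw [List.Nodup, List.pairwise_map] at h
    refine h.imp ?_
    intro p p' hne d hd hd'
    simp only [List.mem_flatMap, List.mem_map] at hd hd'
    obtain ⟨a, _, b, _, rfl⟩ := hd
    obtain ⟨a', _, b', _, h'⟩ := hd'
    simp only [Prod.mk.injEq] at h'
    exact hne h'.1.symm

/-- A graph on a type with injective descriptors is isomorphic to the graph of the list. -/
theorem listG_iso {C : Type} (e : C → Desc) (he : Function.Injective e) (L : List Desc)
    (hnd : L.Nodup) (hmem : ∀ d, d ∈ L ↔ ∃ c, e c = d) (H : SimpleGraph C)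
    (R : Desc → Desc → Bool)
    (hR : ∀ c c', H.Adj c c' ↔ c ≠ c' ∧ (R (e c) (e c') = true ∨ R (e c') (e c) = true)) :
    Nonempty (H ≃g listG L R) := by
  classical
  let E1 : C ≃ {d // d ∈ L} := Equiv.ofBijective (fun c => ⟨e c, (hmem _).2 ⟨c, rfl⟩⟩) ⟨by
    intro c c' h
    exact he (congrArg Subtype.val h), by
    rintro ⟨d, hd⟩
    obtain ⟨c, rfl⟩ := (hmem _).1 hd
    exact ⟨c, rfl⟩⟩
  let E2 : Fin L.length ≃ {d // d ∈ L} := hnd.getEquiv L
  refine ⟨⟨E1.trans E2.symm, ?_⟩⟩
  intro c c'
  have h1 : ∀ c, L.get ((E1.trans E2.symm) c) = e c := by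
    intro c
    have : (E2 (E2.symm (E1 c))).1 = e c := by rw [E2.apply_symm_apply]; rfl
    exact this
  show adjB R (L.get ((E1.trans E2.symm) c)) (L.get ((E1.trans E2.symm) c')) = true ↔ _
  rw [h1, h1, hR, adjB]
  simp only [Bool.and_eq_true, Bool.or_eq_true, Bool.not_eq_true', Bool.eq_false_iff, ne_eq,
    deq_iff, he.eq_iff]

/-- Lookup in a list of rows. -/
def look (A : List (List Bool)) (i j : ℕ) : Bool := (A.getD i []).getD j false

theorem look_rows {n : ℕ} (G : SimpleGraph (Fin n)) (i j : Fin n) :
    look (rows G) i j = true ↔ G.Adj i j := by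
  classical
  simp [look, rows, List.getD_eq_getElem?_getD]

end Pool.Agent.H53
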