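import Pool.Agent.H53.Poly

/-!
# Polynomial-time list functions and unary arithmetic
-/

namespace Pool.Agent.H53

variable {α β γ δ A : Type} [Enc α] [Enc β] [Enc γ] [Enc δ] [Enc A]

/-! ### Sizes -/

theorem sz_pair (p : α × β) : sz p = sz p.1 + sz p.2 + 1 := rfl
theorem sz_pair' (a : α) (b : β) : sz (a, b) = sz a + sz b + 1 := rfl
theorem sz_nil : sz ([] : List α) = 1 := rfl
theorem sz_cons (a : α) (l : List α) : sz (a :: l) = sz a + sz l + 1 := rfl
theorem sz_D (d : D) : sz d = d.size := rfl

@[simp] theorem sz_nat (n : ℕ) : sz n = 2 * n + 1 := by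
  induction n with
  | zero => rfl
  | succ n ih =>
      have : sz (n + 1) = 1 + sz n + 1 := rfl
      rw [this, ih]; ring

theorem sz_bool (b : Bool) : sz b ≤ 3 := by cases b <;> decide

theorem sz_mem {l : List α} {x : α} (h : x ∈ l) : sz x ≤ sz l := by
  induction l with
  | nil => simp at h
  | cons y l ih =>
      rw [sz_cons]
      rcases List.mem_cons.1 h with rfl | h
      · omega
      · have := ih h; omega

theorem length_le_sz (l : List α) : l.length ≤ sz l := by
  induction l with
  | nil => simp
  | cons y l ih => rw [sz_cons, List.length_cons]; omega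

theorem sz_append (l m : List α) : sz (l ++ m) + 1 = sz l + sz m := by
  induction l with
  | nil => simp [sz_nil]; ring
  | cons y l ih => rw [List.cons_append, sz_cons, sz_cons]; omega

theorem sz_reverse (l : List α) : sz l.reverse = sz l := by
  induction l with
  | nil => rfl
  | cons y l ih =>
      have := sz_append l.reverse [y]
      rw [List.reverse_cons, sz_cons]
      rw [sz_cons, sz_nil] at this
      omega

/-- A list with entries of size at most `M`. -/
theorem sz_le_of_forall {l : List α} {M : ℕ} (h : ∀ x ∈ l, sz x ≤ M) :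
    sz l ≤ l.length * (M + 1) + 1 := by
  induction l with
  | nil => simp [sz_nil]
  | cons y l ih =>
      have h1 := ih fun x hx => h x (List.mem_cons_of_mem _ hx)
      have h2 := h y (List.mem_cons_self ..)
      rw [sz_cons, List.length_cons]
      nlinarith

/-! ### Folding -/

theorem go_pair (l : List γ) (s : β) : (enc (l, s)).go = !l.isEmpty := by
  cases l <;> rfl

/-- One round of the folding loop. -/
def foldStep (g : γ × β → β) : List γ × β → List γ × β
  | ([], s) => ([], s)
  | (x :: l, s) => (l, g (x, s))

/-- Head and state, on nonempty lists. -/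
def headState (p : {p : List γ × β // (enc p).go = true}) : γ × β :=
  match p with
  | ⟨([], s), h⟩ => absurd h (by rw [go_pair]; simp)
  | ⟨(x :: _, s), _⟩ => (x, s)

theorem PT.headState : PT (headState : {p : List γ × β // (enc p).go = true} → γ × β) := by
  have h : PT (fun d : D => (D.car (D.car d), D.cdr d)) :=
    (PT.car.comp PT.car).pair PT.cdr
  refine PT.transfer h (i := fun p => enc p) (fun p => rfl) ?_
  rintro ⟨⟨l, s⟩, hp⟩
  cases l with
  | nil => exact absurd hp (by rw [go_pair]; simp)
  | cons x l => rfl

theorem PT.foldStep {g : γ × β → β} (hg : PT g) :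
    PT (fun p : {p : List γ × β // (enc p).go = true} => foldStep g p.1) := by
  have h1 : PT (fun p : {p : List γ × β // (enc p).go = true} => p.1.1.tail) := by fun_prop
  have h2 : PT (fun p : {p : List γ × β // (enc p).go = true} => g (H53.headState p)) :=
    hg.comp PT.headState
  refine (h1.pair h2).transfer (fun p => p) (fun _ => rfl) ?_
  rintro ⟨⟨l, s⟩, hp⟩
  cases l with
  | nil => exact absurd hp (by rw [go_pair]; simp)
  | cons x l => rfl

/-- Running time of the folding loop. -/
def foldT (c : ℕ) (g : γ × β → β) : List γ → β → ℕ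
  | [], _ => 10
  | x :: l, s => mb c (sz (x :: l, s)) + foldT c g l (g (x, s)) + 10

theorem CT.foldl {g : γ × β → β} (hg : PT g) :
    ∃ c, CT (fun p : List γ × β => (([] : List γ), p.1.foldl (fun s x => g (x, s)) p.2))
      (fun p => foldT c g p.1 p.2) := by
  obtain ⟨c, hc⟩ := PT.foldStep hg
  refine ⟨c, CT.while (t := fun p => mb c (sz p)) hc _ _ (fun p => p.1.length) ?_ ?_⟩
  · rintro ⟨l, s⟩ h
    cases l with
    | nil => exact ⟨rfl, le_rfl⟩
    | cons x l => rw [go_pair] at h; simp at h
  · rintro ⟨l, s⟩ h
    cases l with
    | nil => rw [go_pair] at h; simp at h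
    | cons x l => exact ⟨by simp [H53.foldStep], rfl, le_rfl⟩

theorem foldT_le {c : ℕ} {g : γ × β → β} {M : ℕ} (l : List γ) (s : β)
    (hb : ∀ l1 l2, l = l1 ++ l2 → sz (l1.foldl (fun s x => g (x, s)) s) ≤ M) :
    foldT c g l s ≤ l.length * (mb c (sz l + M + 1) + 10) + 10 := by
  induction l generalizing s with
  | nil => simp [foldT]
  | cons x l ih =>
      have h1 := ih (g (x, s)) (fun l1 l2 h => by
        have := hb (x :: l1) l2 (by rw [h]; rfl)
        simpa using this)
      have h0 := hb [] (x :: l) rfl
      simp only [List.foldl_nil] at h0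
      have h2 : mb c (sz (x :: l, s)) ≤ mb c (sz (x :: l) + M + 1) := by
        apply mb_mono
        rw [sz_pair']; omega
      have h3 : mb c (sz l + M + 1) ≤ mb c (sz (x :: l) + M + 1) := by
        apply mb_mono
        rw [sz_cons]; omega
      have h4 : l.length * (mb c (sz l + M + 1) + 10) ≤
          l.length * (mb c (sz (x :: l) + M + 1) + 10) := Nat.mul_le_mul_left _ (by omega)
      rw [foldT, List.length_cons, Nat.succ_mul]
      omega

theorem PT.foldl0 {g : γ × β → β} (hg : PT g) {L : A → List γ} {s0 : A → β} (hL : PT L)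
    (hs : PT s0) {q : ℕ → ℕ} (hq : PB q)
    (hb : ∀ a l1 l2, L a = l1 ++ l2 → sz (l1.foldl (fun s x => g (x, s)) (s0 a)) ≤ q (sz a)) :
    PT (fun a => (L a).foldl (fun s x => g (x, s)) (s0 a)) := by
  obtain ⟨c, hc⟩ := CT.foldl hg
  obtain ⟨d, hd⟩ := hL.size
  obtain ⟨e, he⟩ := hL.pair hs
  have h1 := he.comp hc
  have h2 : PT (fun a => (([] : List γ), (L a).foldl (fun s x => g (x, s)) (s0 a))) := by
    refine PT.of_CT h1 (p := fun n => mb e n + (mb d n * (mb c (mb d n + q n + 1) + 10) + 10))
      ?_ ?_
    · exact (PB.mb e).add (((PB.mb d).mul (((PB.mb c).comp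
        (((PB.mb d).add hq).add (PB.const 1))).add (PB.const 10))).add (PB.const 10))
    · intro a
      refine Nat.add_le_add le_rfl ?_
      refine (foldT_le (L a) (s0 a) (hb a)).trans ?_
      refine Nat.add_le_add (Nat.mul_le_mul ((length_le_sz _).trans (hd a)) ?_) le_rfl
      refine Nat.add_le_add (mb_mono ?_) le_rfl
      have := hd a
      omega
  exact h2.snd

/-- Folding with an environment. -/
theorem PT.foldl {L : A → List γ} {s0 : A → β} {g : A → β → γ → β} (hL : PT L) (hs : PT s0)
    (hg : PT (fun p : A × β × γ => g p.1 p.2.1 p.2.2)) {q : ℕ → ℕ} (hq : PB q)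
    (hb : ∀ a l1 l2, L a = l1 ++ l2 → sz (l1.foldl (g a) (s0 a)) ≤ q (sz a)) :
    PT (fun a => (L a).foldl (g a) (s0 a)) := by
  let g' : γ × (A × β) → A × β := fun p => (p.2.1, g p.2.1 p.2.2 p.1)
  have hg' : PT g' := by
    have : PT (fun p : γ × (A × β) => (p.2.1, (p.2.2, p.1))) := by fun_prop
    exact PT.pair (by fun_prop) (PT.comp hg this)
  have key : ∀ (l : List γ) (a : A) (s : β),
      l.foldl (fun s x => g' (x, s)) (a, s) = (a, l.foldl (g a) s) := by
    intro l
    induction l with
    | nil => intro a s; rfl
    | cons x l ih => intro a s; exact ih a (g a s x)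
  have h := PT.foldl0 hg' hL (PT.pair PT.id hs) (q := fun n => n + q n + 1)
    ((PB.id.add hq).add (PB.const 1)) (by
      intro a l1 l2 h
      rw [key, sz_pair']
      have := hb a l1 l2 h
      omega)
  simp only [key] at h
  exact h.snd

/-! ### Basic list functions -/

@[fun_prop]
theorem PT.list_reverse {L : A → List β} (hL : PT L) : PT (fun a => (L a).reverse) := by
  obtain ⟨d, hd⟩ := hL.size
  have h : PT (fun a => (L a).foldl (fun acc x => x :: acc) []) := by
    refine PT.foldl (g := fun _ acc x => x :: acc) hL (PT.const _) (by fun_prop)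
      (q := mb d) (PB.mb d) ?_
    intro a l1 l2 h
    have h1 : l1.foldl (fun acc x => x :: acc) [] = l1.reverse := by simp
    rw [h1, sz_reverse]
    refine le_trans ?_ (hd a)
    have := sz_append l1 l2
    rw [h]
    have := sz_pos l2
    omega
  simpa using h

omit [Enc β] [Enc γ] in
theorem foldl_map_rev (f : β → γ) (l : List β) (acc : List γ) :
    l.foldl (fun acc x => f x :: acc) acc = (l.map f).reverse ++ acc := by
  induction l generalizing acc with
  | nil => simp
  | cons x l ih => simp [ih]

@[fun_prop]
theorem PT.list_map {L : A → List β} {f : A → β → γ} (hL : PT L)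
    (hf : PT (fun p : A × β => f p.1 p.2)) : PT (fun a => (L a).map (f a)) := by
  obtain ⟨d, hd⟩ := hL.size
  obtain ⟨c, hc⟩ := hf.size
  have h : PT (fun a => (L a).foldl (fun acc x => f a x :: acc) []) := by
    refine PT.foldl (g := fun a acc x => f a x :: acc) hL (PT.const _) ?_
      (q := fun n => mb d n * (mb c (n + mb d n + 1) + 1) + 1) ?_ ?_
    · have : PT (fun p : A × List γ × β => (p.1, p.2.2)) := by fun_prop
      exact PT.list_cons (PT.comp hf this) (by fun_prop)
    · exact ((PB.mb d).mul (((PB.mb c).comp ((PB.id.add (PB.mb d)).add (PB.const 1))).add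
        (PB.const 1))).add (PB.const 1)
    · intro a l1 l2 h
      rw [foldl_map_rev, List.append_nil, sz_reverse]
      have hlen : (l1.map (f a)).length ≤ mb d (sz a) := by
        rw [List.length_map]
        refine le_trans ?_ ((length_le_sz (L a)).trans (hd a))
        rw [h]; simp
      refine (sz_le_of_forall (M := mb c (sz a + mb d (sz a) + 1)) ?_).trans ?_
      · intro y hy
        obtain ⟨x, hx, rfl⟩ := List.mem_map.1 hy
        refine (hc (a, x)).trans (mb_mono ?_)
        rw [sz_pair']
        have : sz x ≤ sz (L a) := sz_mem (by rw [h]; exact List.mem_append_left _ hx)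
        have := hd a
        omega
      · exact Nat.add_le_add (Nat.mul_le_mul_right _ hlen) le_rfl
  have h2 := h.list_reverse
  refine h2.transfer (fun a => a) (fun _ => rfl) fun a => ?_
  rw [foldl_map_rev]; simp

@[fun_prop]
theorem PT.list_append {L M : A → List β} (hL : PT L) (hM : PT M) :
    PT (fun a => L a ++ M a) := by
  obtain ⟨d, hd⟩ := hL.size
  obtain ⟨e, he⟩ := hM.size
  have h : PT (fun a => (L a).reverse.foldl (fun acc x => x :: acc) (M a)) := by
    refine PT.foldl (g := fun _ acc x => x :: acc) hL.list_reverse hM (by fun_prop)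
      (q := fun n => mb d n + mb e n) ((PB.mb d).add (PB.mb e)) ?_
    intro a l1 l2 h
    have h1 : l1.foldl (fun acc x => x :: acc) (M a) = l1.reverse ++ M a := by simp
    rw [h1]
    have h2 := sz_append l1.reverse (M a)
    have h3 := sz_append l1 l2
    have h4 := sz_reverse (L a)
    rw [h] at h4
    rw [sz_reverse] at h2
    have := hd a
    have := he a
    have := sz_pos l2
    omega
  simpa using h

/-- Number of entries, as a unary number. -/
@[fun_prop]
theorem PT.list_length {L : A → List β} (hL : PT L) : PT (fun a => (L a).length) := by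
  have h : PT (fun a => (L a).map (fun _ => ())) := by fun_prop
  refine h.transfer (fun a => a) (fun _ => rfl) fun a => ?_
  induction L a with
  | nil => rfl
  | cons x l ih =>
      rw [List.map_cons, enc_list_cons, List.length_cons, enc_nat_succ, ih]; rfl

theorem enc_replicate (n : ℕ) : enc (List.replicate n ()) = enc n := by
  induction n with
  | zero => rfl
  | succ n ih => rw [List.replicate_succ, enc_list_cons, enc_nat_succ, ih]; rfl

@[fun_prop]
theorem PT.replicate_unit {f : A → ℕ} (hf : PT f) : PT (fun a => List.replicate (f a) ()) :=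
  PT.comp (f := fun n : ℕ => List.replicate n ()) (PT.of_enc_eq enc_replicate) hf

omit [Enc β] in
theorem foldl_replicate (f : β → β) (n : ℕ) (s : β) :
    (List.replicate n ()).foldl (fun s _ => f s) s = f^[n] s := by
  induction n generalizing s with
  | zero => rfl
  | succ n ih => rw [List.replicate_succ, List.foldl_cons, ih, Function.iterate_succ_apply]

/-- Iteration. -/
theorem PT.iterate {n : A → ℕ} {s0 : A → β} {f : A → β → β} (hn : PT n) (hs : PT s0)
    (hf : PT (fun p : A × β => f p.1 p.2)) {q : ℕ → ℕ} (hq : PB q)
    (hb : ∀ a i, i ≤ n a → sz ((f a)^[i] (s0 a)) ≤ q (sz a)) :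
    PT (fun a => (f a)^[n a] (s0 a)) := by
  have hf' : PT (fun p : A × β × Unit => f p.1 p.2.1) := by
    have : PT (fun p : A × β × Unit => (p.1, p.2.1)) := by fun_prop
    exact PT.comp hf this
  have h : PT (fun a => (List.replicate (n a) ()).foldl (fun s _ => f a s) (s0 a)) := by
    refine PT.foldl (g := fun a s _ => f a s) hn.replicate_unit hs hf' hq ?_
    intro a l1 l2 h
    have h1 : l1 = List.replicate l1.length () := List.eq_replicate_of_mem fun _ _ => rfl
    rw [h1, foldl_replicate]
    apply hb
    have := congrArg List.length h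
    simp at this
    omega
  simpa only [foldl_replicate] using h

/-! ### Arithmetic -/

theorem iter_succ (n m : ℕ) : (fun s => s + 1)^[m] n = n + m := by
  induction m generalizing n with
  | zero => rfl
  | succ m ih => rw [Function.iterate_succ_apply, ih]; omega

@[fun_prop]
theorem PT.nat_add {f g : A → ℕ} (hf : PT f) (hg : PT g) : PT (fun a => f a + g a) := by
  obtain ⟨c, hc⟩ := hf.size
  obtain ⟨d, hd⟩ := hg.size
  have h : PT (fun a => (fun s => s + 1)^[g a] (f a)) := by
    refine PT.iterate (f := fun _ s => s + 1) hg hf (by fun_prop)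
      (q := fun n => mb c n + mb d n) ((PB.mb c).add (PB.mb d)) ?_
    intro a i hi
    rw [iter_succ]
    have h1 := hc a
    have h2 := hd a
    simp only [sz_nat] at *
    omega
  simpa only [iter_succ] using h

theorem iter_pred (n m : ℕ) : (fun s => s - 1)^[m] n = n - m := by
  induction m generalizing n with
  | zero => rfl
  | succ m ih => rw [Function.iterate_succ_apply, ih]; omega

@[fun_prop]
theorem PT.nat_sub {f g : A → ℕ} (hf : PT f) (hg : PT g) : PT (fun a => f a - g a) := by
  obtain ⟨c, hc⟩ := hf.size
  have h : PT (fun a => (fun s => s - 1)^[g a] (f a)) := by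
    refine PT.iterate (f := fun _ s => s - 1) hg hf (by fun_prop)
      (q := mb c) (PB.mb c) ?_
    intro a i hi
    rw [iter_pred]
    have h1 := hc a
    simp only [sz_nat] at *
    omega
  simpa only [iter_pred] using h

theorem iter_add (k n m : ℕ) : (fun s => s + k)^[m] n = n + m * k := by
  induction m generalizing n with
  | zero => simp
  | succ m ih => rw [Function.iterate_succ_apply, ih]; ring

@[fun_prop]
theorem PT.nat_mul {f g : A → ℕ} (hf : PT f) (hg : PT g) : PT (fun a => f a * g a) := by
  obtain ⟨c, hc⟩ := hf.size
  obtain ⟨d, hd⟩ := hg.size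
  have h : PT (fun a => (fun s => s + g a)^[f a] 0) := by
    refine PT.iterate (f := fun a s => s + g a) hf (PT.const 0) (by fun_prop)
      (q := fun n => 2 * (mb c n * mb d n) + 1)
      (((PB.const 2).mul ((PB.mb c).mul (PB.mb d))).add (PB.const 1)) ?_
    intro a i hi
    rw [iter_add]
    have h1 := hc a
    have h2 := hd a
    simp only [sz_nat] at *
    have : i * g a ≤ mb c (sz a) * mb d (sz a) := Nat.mul_le_mul (by omega) (by omega)
    omega
  simpa only [iter_add, Nat.zero_add] using h

/-! ### Tests -/

/-- Is the tree `nil`? -/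
def D.isNil : D → Bool
  | D.nil => true
  | D.cons _ _ => false

theorem CT.isNil : CT D.isNil (fun d => 2 * sz d + 10) := by
  refine ⟨Empty, inferInstance, inferInstance,
    .ifTop none .skip (.seq (clr none) (pushAll none (enc true).str.reverse))
      (.seq (clr none) (pushAll none (enc false).str.reverse)), fun d => ?_⟩
  obtain ⟨σ1, a1, a2, a3⟩ := clr_spec (a := (none : Option Empty)) d.str (ini d.str) rfl
  have key : ∀ b : Bool, Does (.seq (clr none) (pushAll none (enc b).str.reverse))
      (ini d.str : St (Option Empty)) (ini (enc b).str) (2 * sz d + 9) := by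
    intro b
    obtain ⟨σ2, b1, b2, b3⟩ := pushAll_spec (a := (none : Option Empty)) (enc b).str.reverse σ1
    have : σ2 = ini (enc b).str := by
      funext k
      match k with
      | none => rw [b2, a2]; simp
    rw [← this]
    refine (a1.seq b1).mono ?_
    have h1 := sz_bool b
    simp only [sz] at h1
    simp [sz, enc_D]; omega
  cases d with
  | nil => exact Does.ifF (k := none) (l := []) rfl (key true)
  | cons a b => exact Does.ifT (k := none) (l := a.str ++ b.str) rfl (key false)

theorem PT.isNil : PT D.isNil :=
  PT.of_CT CT.isNil (((PB.const 2).mul PB.id).add (PB.const 10)) fun _ => le_rfl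

@[fun_prop]
theorem PT.list_isEmpty {L : A → List β} (hL : PT L) : PT (fun a => (L a).isEmpty) := by
  refine PT.comp (f := fun l : List β => l.isEmpty) (PT.transfer PT.isNil enc (fun _ => rfl)
    fun l => ?_) hL
  cases l <;> rfl

theorem PT.nat_isZero {f : A → ℕ} (hf : PT f) : PT (fun a => decide (f a = 0)) := by
  refine PT.comp (f := fun n : ℕ => decide (n = 0)) (PT.transfer PT.isNil enc (fun _ => rfl)
    fun n => ?_) hf
  cases n <;> rfl

@[fun_prop]
theorem PT.nat_le {f g : A → ℕ} (hf : PT f) (hg : PT g) : PT (fun a => decide (f a ≤ g a)) := by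
  have h := (hf.nat_sub hg).nat_isZero
  simpa only [Nat.sub_eq_zero_iff_le] using h

@[fun_prop]
theorem PT.nat_lt {f g : A → ℕ} (hf : PT f) (hg : PT g) : PT (fun a => decide (f a < g a)) :=
  (PT.nat_le (hf.nat_succ) hg)

@[fun_prop]
theorem PT.nat_eq {f g : A → ℕ} (hf : PT f) (hg : PT g) : PT (fun a => decide (f a = g a)) := by
  have h : PT (fun a => decide (f a ≤ g a) && decide (g a ≤ f a)) := by fun_prop
  refine h.transfer (fun a => a) (fun _ => rfl) fun a => ?_
  congr 1
  rw [← Bool.decide_and]
  congr 1
  exact propext Nat.le_antisymm_iff.symm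

@[fun_prop]
theorem PT.nat_beq {f g : A → ℕ} (hf : PT f) (hg : PT g) : PT (fun a => f a == g a) := by
  refine (hf.nat_eq hg).transfer (fun a => a) (fun _ => rfl) fun a => ?_
  congr 1

@[fun_prop]
theorem PT.bool_beq {f g : A → Bool} (hf : PT f) (hg : PT g) : PT (fun a => f a == g a) := by
  have h : PT (fun a => bif f a then g a else !(g a)) := by fun_prop
  refine h.transfer (fun a => a) (fun _ => rfl) fun a => ?_
  cases f a <;> cases g a <;> rfl

/-- Decidable conditionals. -/
@[fun_prop]
theorem PT.ite {P : A → Prop} [∀ a, Decidable (P a)] {f g : A → β}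
    (hP : PT (fun a => decide (P a))) (hf : PT f) (hg : PT g) :
    PT (fun a => if P a then f a else g a) := by
  refine (PT.cond hP hf hg).transfer (fun a => a) (fun _ => rfl) fun a => ?_
  by_cases h : P a <;> simp [h]

/-! ### More list functions -/

@[fun_prop]
theorem PT.list_headD {L : A → List β} {d : A → β} (hL : PT L) (hd : PT d) :
    PT (fun a => (L a).headD (d a)) := by
  have h := PT.cond' (c := fun a => (L a).isEmpty) (f := d) (g := fun a => (L a).headD (d a))
    (hL.list_isEmpty) (hd.comp (PT.of_enc_eq fun _ => rfl)) (by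
      have h1 : PT (fun a : {a : A // (L a).isEmpty = false} => D.car (enc (L a.1))) :=
        PT.comp PT.car (PT.comp (f := fun l : List β => enc l) (PT.of_enc_eq fun _ => rfl)
          (hL.comp (PT.of_enc_eq fun _ => rfl)))
      refine h1.transfer (fun a => a) (fun _ => rfl) fun a => ?_
      have h2 := a.2
      cases h3 : L a.1 with
      | nil => rw [h3] at h2; simp at h2
      | cons x l => rfl)
  refine h.transfer (fun a => a) (fun _ => rfl) fun a => ?_
  cases L a <;> rfl

omit [Enc β] in
theorem iter_tail (l : List β) (n : ℕ) : (fun s : List β => s.tail)^[n] l = l.drop n := by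
  induction n generalizing l with
  | zero => rfl
  | succ n ih =>
      rw [Function.iterate_succ_apply, ih]
      cases l <;> simp

@[fun_prop]
theorem PT.list_drop {L : A → List β} {n : A → ℕ} (hL : PT L) (hn : PT n) :
    PT (fun a => (L a).drop (n a)) := by
  obtain ⟨d, hd⟩ := hL.size
  have h : PT (fun a => (fun s : List β => s.tail)^[n a] (L a)) := by
    refine PT.iterate (f := fun _ s => s.tail) hn hL (by fun_prop) (q := mb d) (PB.mb d) ?_
    intro a i hi
    rw [iter_tail]
    refine le_trans ?_ (hd a)
    have h1 := sz_append ((L a).take i) ((L a).drop i)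
    rw [List.take_append_drop] at h1
    have := sz_pos ((L a).take i)
    omega
  simpa only [iter_tail] using h

@[fun_prop]
theorem PT.list_getD {L : A → List β} {n : A → ℕ} {d : A → β} (hL : PT L) (hn : PT n)
    (hd : PT d) : PT (fun a => (L a).getD (n a) (d a)) := by
  have h : PT (fun a => ((L a).drop (n a)).headD (d a)) := by fun_prop
  refine h.transfer (fun a => a) (fun _ => rfl) fun a => ?_
  congr 1
  rw [List.getD_eq_getElem?_getD, ← List.head?_drop]
  cases (L a).drop (n a) <;> rfl

/-- Bounded Boolean folds. -/
theorem PT.list_any {L : A → List β} {f : A → β → Bool} (hL : PT L)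
    (hf : PT (fun p : A × β => f p.1 p.2)) : PT (fun a => (L a).any (f a)) := by
  have h : PT (fun a => (L a).foldl (fun acc x => acc || f a x) false) := by
    refine PT.foldl (g := fun a acc x => acc || f a x) hL (PT.const _) ?_ (q := fun _ => 3)
      (PB.const 3) (fun _ _ _ _ => sz_bool _)
    have h1 : PT (fun p : A × Bool × β => (p.1, p.2.2)) := by fun_prop
    exact PT.or (by fun_prop) (hf.comp h1)
  refine h.transfer (fun a => a) (fun _ => rfl) fun a => ?_
  congr 1
  have key : ∀ (l : List β) (b : Bool), l.foldl (fun acc x => acc || f a x) b = (b || l.any (f a)) := by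
    intro l
    induction l with
    | nil => intro b; simp
    | cons x l ih => intro b; simp [ih, Bool.or_assoc]
  rw [key]; simp

attribute [fun_prop] PT.list_any

@[fun_prop]
theorem PT.list_all {L : A → List β} {f : A → β → Bool} (hL : PT L)
    (hf : PT (fun p : A × β => f p.1 p.2)) : PT (fun a => (L a).all (f a)) := by
  have h : PT (fun a => !((L a).any (fun x => !(f a x)))) := by fun_prop
  refine h.transfer (fun a => a) (fun _ => rfl) fun a => ?_
  congr 1
  simp [List.all_eq_not_any_not]

theorem sz_flatten_le (L : List (List β)) : sz L.flatten ≤ sz L := by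
  induction L with
  | nil => exact le_rfl
  | cons l L ih =>
      rw [List.flatten_cons, sz_cons]
      have := sz_append l L.flatten
      omega

@[fun_prop]
theorem PT.list_flatten {L : A → List (List β)} (hL : PT L) : PT (fun a => (L a).flatten) := by
  obtain ⟨d, hd⟩ := hL.size
  have h : PT (fun a => (L a).foldl (fun acc x => acc ++ x) []) := by
    refine PT.foldl (g := fun _ acc x => acc ++ x) hL (PT.const _) (by fun_prop) (q := mb d)
      (PB.mb d) ?_
    intro a l1 l2 h
    have key : ∀ (l : List (List β)) (b : List β), l.foldl (fun acc x => acc ++ x) b =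
        b ++ l.flatten := by
      intro l
      induction l with
      | nil => intro b; simp
      | cons x l ih => intro b; simp [ih]
    rw [key, List.nil_append]
    refine (sz_flatten_le l1).trans (le_trans ?_ (hd a))
    rw [h]
    have := sz_append l1 l2
    have := sz_pos l2
    omega
  refine h.transfer (fun a => a) (fun _ => rfl) fun a => ?_
  congr 1
  have key : ∀ (l : List (List β)) (b : List β), l.foldl (fun acc x => acc ++ x) b =
      b ++ l.flatten := by
    intro l
    induction l with
    | nil => intro b; simp
    | cons x l ih => intro b; simp [ih]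
  rw [key, List.nil_append]

@[fun_prop]
theorem PT.list_flatMap {L : A → List β} {f : A → β → List γ} (hL : PT L)
    (hf : PT (fun p : A × β => f p.1 p.2)) : PT (fun a => (L a).flatMap (f a)) := by
  have h : PT (fun a => ((L a).map (f a)).flatten) := by fun_prop
  simpa only [List.flatMap_def] using h

@[fun_prop]
theorem PT.list_filter {L : A → List β} {f : A → β → Bool} (hL : PT L)
    (hf : PT (fun p : A × β => f p.1 p.2)) : PT (fun a => (L a).filter (f a)) := by
  have h : PT (fun a => (L a).flatMap (fun x => bif f a x then [x] else [])) := by fun_prop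
  refine h.transfer (fun a => a) (fun _ => rfl) fun a => ?_
  congr 1
  induction L a with
  | nil => rfl
  | cons x l ih =>
      rw [List.flatMap_cons, ih, List.filter_cons]
      cases f a x <;> simp

@[fun_prop]
theorem PT.list_range {n : A → ℕ} (hn : PT n) : PT (fun a => List.range (n a)) := by
  obtain ⟨d, hd⟩ := hn.size
  have key : ∀ m, (fun l : List ℕ => l ++ [l.length])^[m] [] = List.range m := by
    intro m
    induction m with
    | zero => rfl
    | succ m ih => rw [Function.iterate_succ_apply', ih, List.range_succ, List.length_range]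
  have h : PT (fun a => (fun l : List ℕ => l ++ [l.length])^[n a] []) := by
    refine PT.iterate (f := fun _ (l : List ℕ) => l ++ [l.length]) hn (PT.const _)
      (by fun_prop) (q := fun m => mb d m * (2 * mb d m + 1 + 1) + 1) ?_ ?_
    · exact ((PB.mb d).mul ((((PB.const 2).mul (PB.mb d)).add (PB.const 1)).add
        (PB.const 1))).add (PB.const 1)
    · intro a i hi
      rw [key]
      have h1 := hd a
      rw [sz_nat] at h1
      have h2 : sz (List.range i) ≤ (List.range i).length * (2 * mb d (sz a) + 1 + 1) + 1 := by
        apply sz_le_of_forall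
        intro x hx
        rw [List.mem_range] at hx
        rw [sz_nat]; omega
      refine h2.trans ?_
      rw [List.length_range]
      refine Nat.add_le_add (Nat.mul_le_mul_right _ ?_) le_rfl
      omega
  simpa only [key] using h

example (L : A → List ℕ) (hL : PT L) : PT (fun a => (L a).map (fun x => x + (L a).length)) := by
  fun_prop

example (L : A → List ℕ) (hL : PT L) :
    PT (fun a => (L a).any (fun x => (L a).all (fun y => decide (x < y + (L a).getD x 0)))) := by
  fun_prop

end Pool.Agent.H53
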