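import Pool.Agent.H53.Comp

/-!
# Polynomial-time functions
-/

namespace Pool.Agent.H53

/-- Polynomially bounded functions. -/
def PB (p : ℕ → ℕ) : Prop := ∃ c, ∀ n, p n ≤ (n + 2) ^ c

theorem PB.mono {p q : ℕ → ℕ} (hq : PB q) (h : ∀ n, p n ≤ q n) : PB p := by
  obtain ⟨c, hc⟩ := hq
  exact ⟨c, fun n => (h n).trans (hc n)⟩

theorem PB.const (k : ℕ) : PB (fun _ => k) :=
  ⟨k, fun n => (Nat.lt_two_pow_self).le.trans (Nat.pow_le_pow_left (by omega) k)⟩

theorem PB.id : PB (fun n => n) := ⟨1, fun n => by simp⟩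

theorem PB.add {p q : ℕ → ℕ} (hp : PB p) (hq : PB q) : PB (fun n => p n + q n) := by
  obtain ⟨c, hc⟩ := hp
  obtain ⟨d, hd⟩ := hq
  refine ⟨max c d + 1, fun n => ?_⟩
  have h1 : (n + 2) ^ c ≤ (n + 2) ^ max c d := Nat.pow_le_pow_right (by omega) (le_max_left _ _)
  have h2 : (n + 2) ^ d ≤ (n + 2) ^ max c d := Nat.pow_le_pow_right (by omega) (le_max_right _ _)
  have := hc n
  have := hd n
  calc p n + q n ≤ 2 * (n + 2) ^ max c d := by omega
    _ ≤ (n + 2) * (n + 2) ^ max c d := Nat.mul_le_mul_right _ (by omega)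
    _ = (n + 2) ^ (max c d + 1) := by ring

theorem PB.mul {p q : ℕ → ℕ} (hp : PB p) (hq : PB q) : PB (fun n => p n * q n) := by
  obtain ⟨c, hc⟩ := hp
  obtain ⟨d, hd⟩ := hq
  refine ⟨c + d, fun n => ?_⟩
  calc p n * q n ≤ (n + 2) ^ c * (n + 2) ^ d := Nat.mul_le_mul (hc n) (hd n)
    _ = (n + 2) ^ (c + d) := by ring

theorem PB.comp {p q : ℕ → ℕ} (hp : PB p) (hq : PB q) : PB (fun n => p (q n)) := by
  obtain ⟨c, hc⟩ := hp
  obtain ⟨d, hd⟩ := hq
  refine ⟨(d + 2) * c, fun n => ?_⟩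
  calc p (q n) ≤ (q n + 2) ^ c := hc _
    _ ≤ ((n + 2) ^ (d + 2)) ^ c := by
        apply Nat.pow_le_pow_left
        have h1 := hd n
        have h2 : 1 ≤ (n + 2) ^ d := Nat.one_le_pow _ _ (by omega)
        have h3 : 4 * (n + 2) ^ d ≤ (n + 2) ^ (d + 2) := by
          calc 4 * (n + 2) ^ d ≤ (n + 2) ^ 2 * (n + 2) ^ d :=
                Nat.mul_le_mul_right _ (by have := Nat.pow_le_pow_left (show 2 ≤ n + 2 by omega) 2; omega)
            _ = (n + 2) ^ (d + 2) := by ring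
        omega
    _ = (n + 2) ^ ((d + 2) * c) := by rw [← pow_mul]

theorem PB.pow {p : ℕ → ℕ} (hp : PB p) (k : ℕ) : PB (fun n => p n ^ k) := by
  obtain ⟨c, hc⟩ := hp
  refine ⟨c * k, fun n => ?_⟩
  calc p n ^ k ≤ ((n + 2) ^ c) ^ k := Nat.pow_le_pow_left (hc n) k
    _ = (n + 2) ^ (c * k) := by rw [← pow_mul]

/-- The standard monotone bound. -/
def mb (c n : ℕ) : ℕ := (n + 2) ^ c

theorem mb_mono {c n m : ℕ} (h : n ≤ m) : mb c n ≤ mb c m := Nat.pow_le_pow_left (by omega) c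

theorem PB.mb (c : ℕ) : PB (mb c) := ⟨c, fun _ => le_rfl⟩

variable {α β γ δ A : Type} [Enc α] [Enc β] [Enc γ] [Enc δ] [Enc A]

/-- Functions computed in polynomial time. -/
@[fun_prop]
def PT (f : α → β) : Prop := ∃ c, CT f (fun a => mb c (sz a))

theorem PT.of_CT {f : α → β} {t : α → ℕ} (h : CT f t) {p : ℕ → ℕ} (hp : PB p)
    (ht : ∀ a, t a ≤ p (sz a)) : PT f := by
  obtain ⟨c, hc⟩ := hp
  exact ⟨c, h.mono fun a => (ht a).trans (hc _)⟩

theorem PT.size {f : α → β} (h : PT f) : ∃ c, ∀ a, sz (f a) ≤ mb c (sz a) := by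
  obtain ⟨c, hc⟩ := h
  obtain ⟨d, hd⟩ := (PB.id.add (PB.mb c))
  exact ⟨d, fun a => (hc.size_le a).trans (hd _)⟩

theorem PT.of_D {F : D → D} (h : PT F) {f : α → β} (hf : ∀ a, enc (f a) = F (enc a)) : PT f := by
  obtain ⟨c, hc⟩ := h
  exact ⟨c, hc.transfer f enc (fun a => rfl) (fun a => (hf a).symm)⟩

/-- Same action on codes. -/
theorem PT.transfer {α' β' : Type} [Enc α'] [Enc β'] {f : α → β} (h : PT f)
    {g : α' → β'} (i : α' → α) (h1 : ∀ a, enc (i a) = enc a) (h2 : ∀ a, enc (f (i a)) = enc (g a)) :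
    PT g := by
  obtain ⟨c, hc⟩ := h
  refine ⟨c, (hc.transfer g i h1 h2).mono fun a => ?_⟩
  show mb c (sz (i a)) ≤ mb c (sz a)
  simp only [sz, h1]
  exact le_rfl

theorem PT.of_enc_eq {f : α → β} (h : ∀ a, enc (f a) = enc a) : PT f :=
  PT.of_CT (CT.of_enc_eq h) (PB.const 1) (fun _ => le_rfl)

@[fun_prop]
theorem PT.id : PT (fun a : α => a) := PT.of_enc_eq fun _ => rfl

@[fun_prop]
theorem PT.const (b : β) : PT (fun _ : α => b) :=
  PT.of_CT (CT.const b) (((PB.const 2).mul PB.id).add (PB.const (sz b + 2))) fun a => by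
    show 2 * sz a + sz b + 2 ≤ 2 * sz a + (sz b + 2)
    omega

@[fun_prop]
theorem PT.comp {f : β → γ} {g : α → β} (hf : PT f) (hg : PT g) : PT (fun a => f (g a)) := by
  obtain ⟨d, hd⟩ := hg.size
  obtain ⟨c, hc⟩ := hf
  obtain ⟨e, he⟩ := hg
  refine PT.of_CT (he.comp hc) ((PB.mb e).add ((PB.mb c).comp (PB.mb d))) fun a => ?_
  exact Nat.add_le_add le_rfl (mb_mono (hd a))

@[fun_prop]
theorem PT.pair {f : α → β} {g : α → γ} (hf : PT f) (hg : PT g) : PT (fun a => (f a, g a)) := by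
  obtain ⟨c, hc⟩ := hf
  obtain ⟨d, hd⟩ := hg
  exact PT.of_CT (hc.pair hd) (((((PB.const 30).mul PB.id).add ((PB.const 9).mul (PB.mb c))).add
    (PB.mb d)).add (PB.const 20)) fun a => le_rfl

theorem PT.car : PT D.car :=
  PT.of_CT CT.car (((PB.const 20).mul PB.id).add (PB.const 20)) fun _ => le_rfl

theorem PT.cdr : PT D.cdr :=
  PT.of_CT CT.cdr (((PB.const 20).mul PB.id).add (PB.const 20)) fun _ => le_rfl

@[fun_prop]
theorem PT.fst {f : α → β × γ} (hf : PT f) : PT (fun a => (f a).1) :=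
  PT.comp (PT.of_D PT.car fun _ => rfl) hf

@[fun_prop]
theorem PT.snd {f : α → β × γ} (hf : PT f) : PT (fun a => (f a).2) :=
  PT.comp (PT.of_D PT.cdr fun _ => rfl) hf

@[fun_prop]
theorem PT.val {p : β → Prop} {f : α → {b : β // p b}} (hf : PT f) : PT (fun a => (f a).1) :=
  PT.comp (PT.of_enc_eq fun _ => rfl) hf

/-- Branching, with the branches computed on the respective domains only. -/
theorem PT.cond' {c : α → Bool} {f g : α → β} (hc : PT c)
    (hf : PT (fun a : {a : α // c a = true} => f a.1))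
    (hg : PT (fun a : {a : α // c a = false} => g a.1)) :
    PT (fun a => bif c a then f a else g a) := by
  obtain ⟨c0, hc⟩ := hc
  obtain ⟨c1, hf⟩ := hf
  obtain ⟨c2, hg⟩ := hg
  refine PT.of_CT (CT.cond (t := fun a => mb c1 (sz a)) (s := fun a => mb c2 (sz a)) hc hf hg)
    (((((PB.const 30).mul PB.id).add (PB.mb c0)).add ((PB.mb c1).add (PB.mb c2))).add
      (PB.const 20)) fun a => ?_
  cases c a <;> simp

@[fun_prop]
theorem PT.cond {c : α → Bool} {f g : α → β} (hc : PT c) (hf : PT f) (hg : PT g) :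
    PT (fun a => bif c a then f a else g a) :=
  PT.cond' hc (hf.comp (PT.of_enc_eq fun _ => rfl)) (hg.comp (PT.of_enc_eq fun _ => rfl))

@[fun_prop]
theorem PT.not {f : α → Bool} (hf : PT f) : PT (fun a => !(f a)) := by
  have : PT (fun a => bif f a then false else true) := by fun_prop
  refine this.transfer (fun a => a) (fun _ => rfl) fun a => ?_
  cases f a <;> rfl

@[fun_prop]
theorem PT.and {f g : α → Bool} (hf : PT f) (hg : PT g) : PT (fun a => f a && g a) := by
  have : PT (fun a => bif f a then g a else false) := by fun_prop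
  refine this.transfer (fun a => a) (fun _ => rfl) fun a => ?_
  cases f a <;> rfl

@[fun_prop]
theorem PT.or {f g : α → Bool} (hf : PT f) (hg : PT g) : PT (fun a => f a || g a) := by
  have : PT (fun a => bif f a then true else g a) := by fun_prop
  refine this.transfer (fun a => a) (fun _ => rfl) fun a => ?_
  cases f a <;> rfl

/-! ### Lists and unary numbers -/

@[fun_prop]
theorem PT.list_cons {f : α → β} {g : α → List β} (hf : PT f) (hg : PT g) :
    PT (fun a => f a :: g a) :=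
  (PT.pair hf hg).transfer (fun a => a) (fun _ => rfl) fun _ => rfl

@[fun_prop]
theorem PT.list_tail {f : α → List β} (hf : PT f) : PT (fun a => (f a).tail) := by
  refine PT.comp (f := fun l : List β => l.tail) (PT.of_D PT.cdr fun l => ?_) hf
  cases l <;> rfl

@[fun_prop]
theorem PT.nat_succ {f : α → ℕ} (hf : PT f) : PT (fun a => f a + 1) :=
  (PT.pair (PT.const ()) hf).transfer (fun a => a) (fun _ => rfl) fun _ => rfl

@[fun_prop]
theorem PT.nat_pred {f : α → ℕ} (hf : PT f) : PT (fun a => f a - 1) := by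
  refine PT.comp (f := fun n : ℕ => n - 1) (PT.of_D PT.cdr fun n => ?_) hf
  cases n <;> rfl

example (f : α → β) (hf : PT f) : PT (fun a : α × ℕ => (f a.1, (a.2 + 1, bif (a.2, true).2 then 3 else a.2))) := by
  fun_prop

end Pool.Agent.H53
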