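import Pool.Agent.H53.Lists
import Pool.Agent.H53.Compile
import Pool.Agent.H53.Contr

/-!
# Instances as list data, and a criterion for parameterized reductions
-/

namespace Pool.Agent.H53

open Turing

/-- List form of an instance: number of vertices, adjacency matrix, parameter. -/
abbrev RawI := ℕ × List (List Bool) × ℕ

open Classical in
/-- The adjacency matrix. -/
noncomputable def rows {n : ℕ} (G : SimpleGraph (Fin n)) : List (List Bool) :=
  (List.finRange n).map fun i => (List.finRange n).map fun j => decide (G.Adj i j)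

/-- List form of an instance. -/
noncomputable def raw (x : Instance) : RawI := (x.n, rows x.G, x.k)

theorem enc_list_str {α : Type} [Enc α] (l : List α) :
    (enc l).str = codeList (l.map fun a => (enc a).str) := by
  induction l with
  | nil => rfl
  | cons a l ih =>
      rw [enc_list_cons, D.str, ih]
      simp [codeList]

theorem enc_nat_str (n : ℕ) : (enc n).str = codeNat n := by
  have h : ∀ n : ℕ, enc n = enc (List.replicate n ()) := fun n => (enc_replicate n).symm
  rw [h, enc_list_str, codeNat, List.map_replicate]
  rfl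

theorem encode_eq (x : Instance) : encode x = (enc (raw x)).str := by
  have h1 : (enc (raw x)).str =
      true :: ((enc x.n).str ++ (true :: ((enc (rows x.G)).str ++ (enc x.k).str))) := rfl
  rw [h1, enc_nat_str, enc_nat_str, enc_list_str, encode]
  congr 5
  rw [codeGraph, rows, List.map_map]
  congr 1
  apply List.map_congr_left
  intro i _
  rw [Function.comp, enc_list_str, List.map_map]
  congr 1
  apply List.map_congr_left
  intro j _
  by_cases h : x.G.Adj i j <;> simp [h, codeBit, enc_true, enc_false, D.str]

theorem encode_length (x : Instance) : (encode x).length = sz (raw x) := by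
  rw [encode_eq, D.str_length]; rfl

theorem sz_raw (x : Instance) : 3 ≤ sz (raw x) := by
  show 3 ≤ sz (x.n, (rows x.G, x.k))
  rw [sz_pair', sz_pair']
  have := sz_pos x.n
  have := sz_pos (rows x.G)
  have := sz_pos x.k
  omega

theorem poly_bound {c s : ℕ} (hs : 3 ≤ s) : mb c s + 1 ≤ s ^ (2 * c + 1) := by
  have h1 : s + 2 ≤ s ^ 2 := by nlinarith
  have h2 : mb c s ≤ s ^ (2 * c) := by
    rw [mb, pow_mul]
    exact Nat.pow_le_pow_left h1 c
  have h3 : 1 ≤ s ^ (2 * c) := Nat.one_le_pow _ _ (by omega)
  rw [pow_succ]
  nlinarith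

/-- A criterion for parameterized reductions. -/
theorem FPTReduces.of_PT {P Q : Problem} (r : Instance → Instance) (F : RawI → RawI) (hF : PT F)
    (hr : ∀ x, F (raw x) = raw (r x)) (g : ℕ → ℕ) (hg : Computable g)
    (hPQ : ∀ x, P x ↔ Q (r x)) (hk : ∀ x, (r x).k ≤ g x.k) : FPTReduces P Q := by
  obtain ⟨c, K, i1, i2, C, hC⟩ := hF
  refine ⟨r, C.aux, fun _ => 1, g, 2 * c + 1, fun _ => (inferInstance : Finite Bool),
    Computable.const 1, hg, hPQ, hk, fun x => ?_⟩
  have h1 := hC (raw x)
  rw [hr, ← encode_eq, ← encode_eq] at h1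
  have h2 : mb c (sz (raw x)) + 1 ≤ 1 * (encode x).length ^ (2 * c + 1) := by
    rw [one_mul, encode_length]
    exact poly_bound (sz_raw x)
  exact (h1.mono (Nat.le_sub_one_of_lt h2)).outputs.map fun o => by
    have h3 : 1 * (encode x).length ^ (2 * c + 1) - 1 + 1 = 1 * (encode x).length ^ (2 * c + 1) := by
      omega
    rwa [h3] at o

end Pool.Agent.H53
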