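import Pool.Agent.H53.RedCo
import Pool.Agent.H53.HardClaw

/-!
# Claw-free contraction is W[2]-hard
-/

namespace Pool.Agent.H53

/-- Tags and ranges of the constructed graph. -/
def clS (n k : ℕ) : List Desc :=
  if n = 0 then [] else
    [(0, 1, 1), (1, n, 1), (2, 2 * k + 1, 1), (3, n, 2 * k + 1), (4, 2 * k + 2, 1),
      (5, 2 * k + 2, 2 * k + 1), (6, 2 * k + 1, 1), (7, 2 * k + 1, 1)]

/-- The relation of the constructed graph. -/
def clRel (M : List (List Bool)) (a b : Desc) : Bool :=
  (a.1 == 0 && (b.1 == 1 || (b.1 == 2 || b.1 == 6))) ||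
  ((a.1 == 1 && (b.1 == 1 || (b.1 == 2 || (b.1 == 4 ||
    (b.1 == 3 && (a.2.1 == b.2.1 || look M a.2.1 b.2.1)))))) ||
  ((a.1 == 2 && b.1 == 2) ||
  ((a.1 == 3 && (b.1 == 3 || (b.1 == 4 || (b.1 == 5 || b.1 == 6)))) ||
  ((a.1 == 4 && (b.1 == 4 || (b.1 == 6 || (b.1 == 5 && a.2.1 == b.2.1)))) ||
  ((a.1 == 5 && (b.1 == 5 || (b.1 == 6 || b.1 == 7))) ||
  ((a.1 == 6 && (b.1 == 6 || b.1 == 7)) ||
  (a.1 == 7 && b.1 == 7)))))))

/-- The reduction on list data. -/
def clF (x : RawI) : RawI :=
  ((descs (clS x.1 x.2.2)).length,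
    (descs (clS x.1 x.2.2)).map (fun a => (descs (clS x.1 x.2.2)).map
      (fun b => adjB (clRel x.2.1) a b)), x.2.2)

theorem PT.clF : PT clF := by
  unfold H53.clF clS adjB clRel
  fun_prop

/-- Descriptors of the vertices. -/
def clE {n m r : ℕ} : KV n m r → Desc
  | .x => (0, 0, 0)
  | .v s => (1, s, 0)
  | .w i => (2, i, 0)
  | .b u i => (3, u, i)
  | .a j => (4, j, 0)
  | .q j i => (5, j, i)
  | .c i => (6, i, 0)
  | .d i => (7, i, 0)

theorem clE_inj {n m r : ℕ} : Function.Injective (clE : KV n m r → Desc) := by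
  intro a b h
  cases a <;> cases b <;> simp [clE] at h ⊢ <;>
    first
    | exact Fin.ext h
    | exact ⟨Fin.ext h.1, Fin.ext h.2⟩

/-- The reduction on instances. -/
noncomputable def clInst (x : Instance) : Instance where
  n := (descs (clS x.n x.k)).length
  G := listG (descs (clS x.n x.k)) (clRel (rows x.G))
  k := x.k

theorem clF_raw (x : Instance) : clF (raw x) = raw (clInst x) := by
  simp only [clF, raw, clInst, rows_listG]

theorem clInst_iso (x : Instance) (hn : 0 < x.n) :
    Nonempty (clG x.G (2 * x.k + 1) (2 * x.k + 2) ≃g (clInst x).G) := by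
  have hS : clS x.n x.k = [(0, 1, 1), (1, x.n, 1), (2, 2 * x.k + 1, 1), (3, x.n, 2 * x.k + 1),
      (4, 2 * x.k + 2, 1), (5, 2 * x.k + 2, 2 * x.k + 1), (6, 2 * x.k + 1, 1),
      (7, 2 * x.k + 1, 1)] := by
    rw [clS, if_neg (by omega)]
  refine listG_iso clE clE_inj _ (nodup_descs (by simp [hS])) ?_ _ _ ?_
  · intro d
    rw [mem_descs, hS]
    obtain ⟨t, a, b⟩ := d
    constructor
    · rintro ⟨p, hp, h1, h2, h3⟩
      simp only [List.mem_cons, List.not_mem_nil, or_false] at hp
      rcases hp with rfl | rfl | rfl | rfl | rfl | rfl | rfl | rfl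
      · simp only at h1 h2 h3
        refine ⟨.x, ?_⟩
        simp only [clE, Prod.mk.injEq]; omega
      · simp only at h1 h2 h3
        refine ⟨.v ⟨a, h2⟩, ?_⟩
        simp only [clE, Prod.mk.injEq]
        exact ⟨by omega, trivial, by omega⟩
      · simp only at h1 h2 h3
        refine ⟨.w ⟨a, h2⟩, ?_⟩
        simp only [clE, Prod.mk.injEq]
        exact ⟨by omega, trivial, by omega⟩
      · simp only at h1 h2 h3
        refine ⟨.b ⟨a, h2⟩ ⟨b, h3⟩, ?_⟩
        simp only [clE, Prod.mk.injEq]
        exact ⟨by omega, trivial⟩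
      · simp only at h1 h2 h3
        refine ⟨.a ⟨a, h2⟩, ?_⟩
        simp only [clE, Prod.mk.injEq]
        exact ⟨by omega, trivial, by omega⟩
      · simp only at h1 h2 h3
        refine ⟨.q ⟨a, h2⟩ ⟨b, h3⟩, ?_⟩
        simp only [clE, Prod.mk.injEq]
        exact ⟨by omega, trivial⟩
      · simp only at h1 h2 h3
        refine ⟨.c ⟨a, h2⟩, ?_⟩
        simp only [clE, Prod.mk.injEq]
        exact ⟨by omega, trivial, by omega⟩
      · simp only at h1 h2 h3
        refine ⟨.d ⟨a, h2⟩, ?_⟩
        simp only [clE, Prod.mk.injEq]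
        exact ⟨by omega, trivial, by omega⟩
    · rintro ⟨c, hc⟩
      cases c with
      | x =>
          simp only [clE, Prod.mk.injEq] at hc
          refine ⟨(0, 1, 1), by simp, ?_⟩
          simp only; omega
      | v s =>
          simp only [clE, Prod.mk.injEq] at hc
          refine ⟨(1, x.n, 1), by simp, ?_⟩
          have := s.2
          simp only; omega
      | w s =>
          simp only [clE, Prod.mk.injEq] at hc
          refine ⟨(2, 2 * x.k + 1, 1), by simp, ?_⟩
          have := s.2
          simp only; omega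
      | b u i =>
          simp only [clE, Prod.mk.injEq] at hc
          refine ⟨(3, x.n, 2 * x.k + 1), by simp, ?_⟩
          have := u.2
          have := i.2
          simp only; omega
      | a s =>
          simp only [clE, Prod.mk.injEq] at hc
          refine ⟨(4, 2 * x.k + 2, 1), by simp, ?_⟩
          have := s.2
          simp only; omega
      | q j i =>
          simp only [clE, Prod.mk.injEq] at hc
          refine ⟨(5, 2 * x.k + 2, 2 * x.k + 1), by simp, ?_⟩
          have := j.2
          have := i.2
          simp only; omega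
      | c s =>
          simp only [clE, Prod.mk.injEq] at hc
          refine ⟨(6, 2 * x.k + 1, 1), by simp, ?_⟩
          have := s.2
          simp only; omega
      | d s =>
          simp only [clE, Prod.mk.injEq] at hc
          refine ⟨(7, 2 * x.k + 1, 1), by simp, ?_⟩
          have := s.2
          simp only; omega
  · intro c c'
    cases c <;> cases c' <;> simp [clG, clR, clE, clRel, look_rows, Fin.ext_iff]

/-- Claw-free contraction is W[2]-hard. -/
theorem claw_hard : W2Hard (FreeContraction claw) := by
  refine FPTReduces.of_PT clInst clF PT.clF clF_raw (fun k => k) Computable.id ?_ (fun _ => le_rfl)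
  intro x
  by_cases hn : 0 < x.n
  · obtain ⟨e⟩ := clInst_iso x hn
    constructor
    · rintro ⟨D, hD, h⟩
      exact (cl_complete hn (m := 2 * x.k + 1) (r := 2 * x.k + 2) D hD h).iso (IsFree.inv _) e
    · intro h
      exact cl_sound (CanContract.iso (IsFree.inv _) e.symm h)
  · have hn0 : x.n = 0 := by omega
    constructor
    · intro _
      have he : (clInst x).n = 0 := by
        simp [clInst, clS, hn0, descs]
      have : IsEmpty (Fin (clInst x).n) := by rw [he]; infer_instance
      refine CanContract.of_witness (IsFree.inv _) (fun a => a) Function.surjective_id ?_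
        (by omega) ?_
      · intro u
        exact (this.false u).elim
      · exact ⟨fun e => this.false (e (.inl 0))⟩
    · intro _
      refine ⟨∅, by simp, fun v => ?_⟩
      have := v.2
      omega

end Pool.Agent.H53
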