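import Mathlib

/-!
# A small structured language over finitely many stacks of bits

`Cmd K` is a while-language whose state assigns to each stack `k : K` a list of Booleans.
`Run p σ σ' t` says that program `p` started in state `σ` stops in state `σ'` after exactly `t`
steps.  In `Compile.lean` such programs are compiled to the Turing machines of Mathlib.
-/

namespace Pool.Agent.H53

/-- Structured programs over stacks indexed by `K`. -/
inductive Cmd (K : Type) : Type
  | skip : Cmd K
  | push (k : K) (b : Bool) : Cmd K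
  | pop (k : K) : Cmd K
  | seq (p q : Cmd K) : Cmd K
  | ifTop (k : K) (pe pf pt : Cmd K) : Cmd K
  | loop (k : K) (p : Cmd K) : Cmd K

/-- States: the contents of all stacks. -/
abbrev St (K : Type) := K → List Bool

open Cmd

/-- Big-step semantics with exact step count. -/
inductive Run {K : Type} [DecidableEq K] : Cmd K → St K → St K → ℕ → Prop
  | skip (σ : St K) : Run .skip σ σ 1
  | push (k : K) (b : Bool) (σ : St K) :
      Run (.push k b) σ (Function.update σ k (b :: σ k)) 1
  | pop (k : K) (σ : St K) :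
      Run (.pop k) σ (Function.update σ k (σ k).tail) 1
  | seq {p q : Cmd K} {σ σ' σ'' : St K} {t t' : ℕ} :
      Run p σ σ' t → Run q σ' σ'' t' → Run (.seq p q) σ σ'' (t + t')
  | ifE {k : K} {pe pf pt : Cmd K} {σ σ' : St K} {t : ℕ} :
      σ k = [] → Run pe σ σ' t → Run (.ifTop k pe pf pt) σ σ' (t + 1)
  | ifF {k : K} {pe pf pt : Cmd K} {σ σ' : St K} {t : ℕ} {l : List Bool} :
      σ k = false :: l → Run pf σ σ' t → Run (.ifTop k pe pf pt) σ σ' (t + 1)
  | ifT {k : K} {pe pf pt : Cmd K} {σ σ' : St K} {t : ℕ} {l : List Bool} :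
      σ k = true :: l → Run pt σ σ' t → Run (.ifTop k pe pf pt) σ σ' (t + 1)
  | loopDone {k : K} {p : Cmd K} {σ : St K} : σ k = [] → Run (.loop k p) σ σ 1
  | loopStep {k : K} {p : Cmd K} {σ σ' σ'' : St K} {t t' : ℕ} :
      σ k ≠ [] → Run p σ σ' t → Run (.loop k p) σ' σ'' t' → Run (.loop k p) σ σ'' (t + t' + 1)

/-- `Does p σ σ' t`: `p` goes from `σ` to `σ'` within at most `t` steps. -/
def Does {K : Type} [DecidableEq K] (p : Cmd K) (σ σ' : St K) (t : ℕ) : Prop :=
  ∃ s, s ≤ t ∧ Run p σ σ' s

section basic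

variable {K : Type} [DecidableEq K]

theorem Does.mono {p : Cmd K} {σ σ' : St K} {t t' : ℕ} (h : Does p σ σ' t) (ht : t ≤ t') :
    Does p σ σ' t' := by
  obtain ⟨s, hs, h⟩ := h
  exact ⟨s, hs.trans ht, h⟩

theorem Does.seq {p q : Cmd K} {σ σ' σ'' : St K} {t t' : ℕ} (h : Does p σ σ' t)
    (h' : Does q σ' σ'' t') : Does (.seq p q) σ σ'' (t + t') := by
  obtain ⟨s, hs, h⟩ := h
  obtain ⟨s', hs', h'⟩ := h'
  exact ⟨s + s', by omega, Run.seq h h'⟩

theorem Does.skip (σ : St K) : Does .skip σ σ 1 := ⟨1, le_rfl, Run.skip σ⟩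

theorem Does.push (k : K) (b : Bool) (σ : St K) :
    Does (.push k b) σ (Function.update σ k (b :: σ k)) 1 := ⟨1, le_rfl, Run.push k b σ⟩

theorem Does.pop (k : K) (σ : St K) :
    Does (.pop k) σ (Function.update σ k (σ k).tail) 1 := ⟨1, le_rfl, Run.pop k σ⟩

theorem Does.ifE {k : K} {pe pf pt : Cmd K} {σ σ' : St K} {t : ℕ} (hk : σ k = [])
    (h : Does pe σ σ' t) : Does (.ifTop k pe pf pt) σ σ' (t + 1) := by
  obtain ⟨s, hs, h⟩ := h
  exact ⟨s + 1, by omega, Run.ifE hk h⟩

theorem Does.ifF {k : K} {pe pf pt : Cmd K} {σ σ' : St K} {t : ℕ} {l : List Bool}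
    (hk : σ k = false :: l) (h : Does pf σ σ' t) : Does (.ifTop k pe pf pt) σ σ' (t + 1) := by
  obtain ⟨s, hs, h⟩ := h
  exact ⟨s + 1, by omega, Run.ifF hk h⟩

theorem Does.ifT {k : K} {pe pf pt : Cmd K} {σ σ' : St K} {t : ℕ} {l : List Bool}
    (hk : σ k = true :: l) (h : Does pt σ σ' t) : Does (.ifTop k pe pf pt) σ σ' (t + 1) := by
  obtain ⟨s, hs, h⟩ := h
  exact ⟨s + 1, by omega, Run.ifT hk h⟩

theorem Does.loopDone {k : K} {p : Cmd K} {σ : St K} (hk : σ k = []) :
    Does (.loop k p) σ σ 1 := ⟨1, le_rfl, Run.loopDone hk⟩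

theorem Does.loopStep {k : K} {p : Cmd K} {σ σ' σ'' : St K} {t t' : ℕ} (hk : σ k ≠ [])
    (h : Does p σ σ' t) (h' : Does (.loop k p) σ' σ'' t') :
    Does (.loop k p) σ σ'' (t + t' + 1) := by
  obtain ⟨s, hs, h⟩ := h
  obtain ⟨s', hs', h'⟩ := h'
  exact ⟨s + s' + 1, by omega, Run.loopStep hk h h'⟩

/-- Each stack grows by at most the running time. -/
theorem Run.length_le {p : Cmd K} {σ σ' : St K} {t : ℕ} (h : Run p σ σ' t) (k : K) :
    (σ' k).length ≤ (σ k).length + t := by
  induction h with
  | skip σ => omega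
  | push k' b σ =>
      by_cases hk : k = k'
      · subst hk; simp
      · simp [Function.update_of_ne hk]
  | pop k' σ =>
      by_cases hk : k = k'
      · subst hk; simp; omega
      · simp [Function.update_of_ne hk]
  | seq _ _ ih1 ih2 => omega
  | ifE _ _ ih => omega
  | ifF _ _ ih => omega
  | ifT _ _ ih => omega
  | loopDone _ => omega
  | loopStep _ _ _ ih1 ih2 => omega

theorem Does.length_le {p : Cmd K} {σ σ' : St K} {t : ℕ} (h : Does p σ σ' t) (k : K) :
    (σ' k).length ≤ (σ k).length + t := by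
  obtain ⟨s, hs, h⟩ := h
  have := h.length_le k
  omega

end basic

section rename

/-- Renaming the stacks of a program. -/
def Cmd.map {K L : Type} (ι : K → L) : Cmd K → Cmd L
  | .skip => .skip
  | .push k b => .push (ι k) b
  | .pop k => .pop (ι k)
  | .seq p q => .seq (p.map ι) (q.map ι)
  | .ifTop k pe pf pt => .ifTop (ι k) (pe.map ι) (pf.map ι) (pt.map ι)
  | .loop k p => .loop (ι k) (p.map ι)

variable {K L : Type} [DecidableEq K] [DecidableEq L]

/-- Frame rule: a renamed program acts on the renamed stacks as the original program does, and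
leaves all other stacks alone. -/
theorem Run.map {ι : K → L} (hι : Function.Injective ι) {p : Cmd K} {σ σ' : St K} {t : ℕ}
    (h : Run p σ σ' t) :
    ∀ τ : St L, (∀ k, τ (ι k) = σ k) →
      ∃ τ' : St L, (∀ k, τ' (ι k) = σ' k) ∧ (∀ l, (∀ k, ι k ≠ l) → τ' l = τ l) ∧
        Run (p.map ι) τ τ' t := by
  induction h with
  | skip σ => intro τ hτ; exact ⟨τ, hτ, fun _ _ => rfl, Run.skip τ⟩
  | push k b σ =>
      intro τ hτ
      refine ⟨Function.update τ (ι k) (b :: τ (ι k)), ?_, ?_, Run.push _ _ _⟩
      · intro k'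
        by_cases hk : k' = k
        · subst hk; simp [hτ]
        · rw [Function.update_of_ne (fun h => hk (hι h)), Function.update_of_ne hk, hτ]
      · intro l hl
        rw [Function.update_of_ne (fun h => hl k h.symm)]
  | pop k σ =>
      intro τ hτ
      refine ⟨Function.update τ (ι k) (τ (ι k)).tail, ?_, ?_, Run.pop _ _⟩
      · intro k'
        by_cases hk : k' = k
        · subst hk; simp [hτ]
        · rw [Function.update_of_ne (fun h => hk (hι h)), Function.update_of_ne hk, hτ]
      · intro l hl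
        rw [Function.update_of_ne (fun h => hl k h.symm)]
  | seq _ _ ih1 ih2 =>
      intro τ hτ
      obtain ⟨τ1, h1, h1', r1⟩ := ih1 τ hτ
      obtain ⟨τ2, h2, h2', r2⟩ := ih2 τ1 h1
      exact ⟨τ2, h2, fun l hl => (h2' l hl).trans (h1' l hl), Run.seq r1 r2⟩
  | ifE hk _ ih =>
      intro τ hτ
      obtain ⟨τ1, h1, h1', r1⟩ := ih τ hτ
      exact ⟨τ1, h1, h1', Run.ifE ((hτ _).trans hk) r1⟩
  | ifF hk _ ih =>
      intro τ hτ
      obtain ⟨τ1, h1, h1', r1⟩ := ih τ hτ
      exact ⟨τ1, h1, h1', Run.ifF ((hτ _).trans hk) r1⟩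
  | ifT hk _ ih =>
      intro τ hτ
      obtain ⟨τ1, h1, h1', r1⟩ := ih τ hτ
      exact ⟨τ1, h1, h1', Run.ifT ((hτ _).trans hk) r1⟩
  | loopDone hk =>
      intro τ hτ
      exact ⟨τ, hτ, fun _ _ => rfl, Run.loopDone ((hτ _).trans hk)⟩
  | loopStep hk _ _ ih1 ih2 =>
      intro τ hτ
      obtain ⟨τ1, h1, h1', r1⟩ := ih1 τ hτ
      obtain ⟨τ2, h2, h2', r2⟩ := ih2 τ1 h1
      exact ⟨τ2, h2, fun l hl => (h2' l hl).trans (h1' l hl),
        Run.loopStep (by rw [hτ]; exact hk) r1 r2⟩

theorem Does.map {ι : K → L} (hι : Function.Injective ι) {p : Cmd K} {σ σ' : St K} {t : ℕ}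
    (h : Does p σ σ' t) (τ : St L) (hτ : ∀ k, τ (ι k) = σ k) :
    ∃ τ' : St L, (∀ k, τ' (ι k) = σ' k) ∧ (∀ l, (∀ k, ι k ≠ l) → τ' l = τ l) ∧
      Does (p.map ι) τ τ' t := by
  obtain ⟨s, hs, h⟩ := h
  obtain ⟨τ', h1, h2, h3⟩ := h.map hι τ hτ
  exact ⟨τ', h1, h2, s, hs, h3⟩

end rename

section progs

variable {K : Type} [DecidableEq K]

/-- Move the contents of stack `a` onto stack `b` (reversing them). -/
def mv (a b : K) : Cmd K :=
  .loop a (.ifTop a .skip (.seq (.pop a) (.push b false)) (.seq (.pop a) (.push b true)))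

theorem mv_spec {a b : K} (hab : a ≠ b) (l : List Bool) :
    ∀ σ : St K, σ a = l → ∃ σ' : St K, Does (mv a b) σ σ' (4 * l.length + 1) ∧
      σ' a = [] ∧ σ' b = l.reverse ++ σ b ∧ ∀ k, k ≠ a → k ≠ b → σ' k = σ k := by
  induction l with
  | nil =>
      intro σ h
      exact ⟨σ, Does.loopDone h, h, by simp, fun _ _ _ => rfl⟩
  | cons x l ih =>
      intro σ h
      set σ1 : St K := Function.update σ a l with hσ1
      set σ2 : St K := Function.update σ1 b (x :: σ b) with hσ2
      have hba : b ≠ a := fun h => hab h.symm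
      have e1 : σ2 a = l := by simp [hσ2, hσ1, Function.update_of_ne hab]
      obtain ⟨σ', hd, h1, h2, h3⟩ := ih σ2 e1
      refine ⟨σ', ?_, h1, ?_, ?_⟩
      · have hbody : Does (.ifTop a .skip (.seq (.pop a) (.push b false))
            (.seq (.pop a) (.push b true))) σ σ2 (1 + 1 + 1) := by
          have hp : Does (.pop a) σ σ1 1 := by
            have := Does.pop a σ
            rwa [h, List.tail_cons] at this
          have hq : ∀ y, Does (.push b y) σ1 (Function.update σ1 b (y :: σ b)) 1 := by
            intro y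
            have := Does.push b y σ1
            rwa [show σ1 b = σ b by simp [hσ1, Function.update_of_ne hba]] at this
          cases x with
          | false => exact Does.ifF h (hp.seq (hq false))
          | true => exact Does.ifT h (hp.seq (hq true))
        have := Does.loopStep (k := a) (by rw [h]; simp) hbody hd
        refine this.mono ?_
        simp; omega
      · rw [h2]; simp [hσ2]
      · intro k hka hkb
        rw [h3 k hka hkb, hσ2, Function.update_of_ne hkb, hσ1, Function.update_of_ne hka]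

/-- Move the contents of stack `a` onto both stacks `b` and `c` (reversing them). -/
def mv2 (a b c : K) : Cmd K :=
  .loop a (.ifTop a .skip (.seq (.pop a) (.seq (.push b false) (.push c false)))
    (.seq (.pop a) (.seq (.push b true) (.push c true))))

theorem mv2_spec {a b c : K} (hab : a ≠ b) (hac : a ≠ c) (hbc : b ≠ c) (l : List Bool) :
    ∀ σ : St K, σ a = l → ∃ σ' : St K, Does (mv2 a b c) σ σ' (5 * l.length + 1) ∧
      σ' a = [] ∧ σ' b = l.reverse ++ σ b ∧ σ' c = l.reverse ++ σ c ∧
      ∀ k, k ≠ a → k ≠ b → k ≠ c → σ' k = σ k := by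
  induction l with
  | nil =>
      intro σ h
      exact ⟨σ, Does.loopDone h, h, by simp, by simp, fun _ _ _ _ => rfl⟩
  | cons x l ih =>
      intro σ h
      set σ1 : St K := Function.update σ a l with hσ1
      set σ2 : St K := Function.update σ1 b (x :: σ b) with hσ2
      set σ3 : St K := Function.update σ2 c (x :: σ c) with hσ3
      have hba : b ≠ a := fun h => hab h.symm
      have hca : c ≠ a := fun h => hac h.symm
      have hcb : c ≠ b := fun h => hbc h.symm
      have e1 : σ3 a = l := by
        simp [hσ3, hσ2, hσ1, Function.update_of_ne hab, Function.update_of_ne hac]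
      obtain ⟨σ', hd, h1, h2, h3, h4⟩ := ih σ3 e1
      refine ⟨σ', ?_, h1, ?_, ?_, ?_⟩
      · have hbody : Does (.ifTop a .skip (.seq (.pop a) (.seq (.push b false) (.push c false)))
            (.seq (.pop a) (.seq (.push b true) (.push c true)))) σ σ3 (1 + (1 + 1) + 1) := by
          have hp : Does (.pop a) σ σ1 1 := by
            have := Does.pop a σ
            rwa [h, List.tail_cons] at this
          have hq : ∀ y, Does (.push b y) σ1 (Function.update σ1 b (y :: σ b)) 1 := by
            intro y
            have := Does.push b y σ1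
            rwa [show σ1 b = σ b by simp [hσ1, Function.update_of_ne hba]] at this
          have hr : ∀ y, Does (.push c y) σ2 (Function.update σ2 c (y :: σ c)) 1 := by
            intro y
            have := Does.push c y σ2
            rwa [show σ2 c = σ c by
              simp [hσ2, hσ1, Function.update_of_ne hca, Function.update_of_ne hcb]] at this
          cases x with
          | false => exact Does.ifF h (hp.seq ((hq false).seq (hr false)))
          | true => exact Does.ifT h (hp.seq ((hq true).seq (hr true)))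
        have := Does.loopStep (k := a) (by rw [h]; simp) hbody hd
        refine this.mono ?_
        simp; omega
      · rw [h2]; simp [hσ3, hσ2, Function.update_of_ne hbc]
      · rw [h3]; simp [hσ3]
      · intro k hka hkb hkc
        rw [h4 k hka hkb hkc, hσ3, Function.update_of_ne hkc, hσ2, Function.update_of_ne hkb,
          hσ1, Function.update_of_ne hka]

/-- Empty stack `a`. -/
def clr (a : K) : Cmd K := .loop a (.pop a)

theorem clr_spec {a : K} (l : List Bool) :
    ∀ σ : St K, σ a = l → ∃ σ' : St K, Does (clr a) σ σ' (2 * l.length + 1) ∧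
      σ' a = [] ∧ ∀ k, k ≠ a → σ' k = σ k := by
  induction l with
  | nil =>
      intro σ h
      exact ⟨σ, Does.loopDone h, h, fun _ _ => rfl⟩
  | cons x l ih =>
      intro σ h
      set σ1 : St K := Function.update σ a l with hσ1
      obtain ⟨σ', hd, h1, h2⟩ := ih σ1 (by simp [hσ1])
      refine ⟨σ', ?_, h1, ?_⟩
      · have hp : Does (.pop a) σ σ1 1 := by
          have := Does.pop a σ
          rwa [h, List.tail_cons] at this
        refine (Does.loopStep (k := a) (by rw [h]; simp) hp hd).mono ?_
        simp; omega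
      · intro k hk
        rw [h2 k hk, hσ1, Function.update_of_ne hk]

/-- Push a fixed word onto stack `a` (the last letter ends on top). -/
def pushAll (a : K) : List Bool → Cmd K
  | [] => .skip
  | x :: l => .seq (.push a x) (pushAll a l)

theorem pushAll_spec {a : K} (l : List Bool) :
    ∀ σ : St K, ∃ σ' : St K, Does (pushAll a l) σ σ' (l.length + 1) ∧
      σ' a = l.reverse ++ σ a ∧ ∀ k, k ≠ a → σ' k = σ k := by
  induction l with
  | nil =>
      intro σ
      exact ⟨σ, Does.skip σ, by simp, fun _ _ => rfl⟩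
  | cons x l ih =>
      intro σ
      obtain ⟨σ', hd, h1, h2⟩ := ih (Function.update σ a (x :: σ a))
      refine ⟨σ', ((Does.push a x σ).seq hd).mono (by simp; omega), ?_, ?_⟩
      · rw [h1]; simp
      · intro k hk
        rw [h2 k hk, Function.update_of_ne hk]

end progs

end Pool.Agent.H53
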