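import Pool.Agent.H53.Contr

/-!
# Counting the vertices touched by few contractions
-/

namespace Pool.Agent.H53

variable {V W : Type}

/-- A vertex is touched if it is merged with another one. -/
def Touched (f : V → W) (v : V) : Prop := ∃ u, u ≠ v ∧ f u = f v

theorem not_touched {f : V → W} {v : V} (h : ¬ Touched f v) {u : V} (hu : f u = f v) : u = v := by
  by_contra hne
  exact h ⟨u, hne, hu⟩

section card

variable [Fintype V] [Fintype W] {f : V → W} {k : ℕ}

theorem fiber_card (hs : Function.Surjective f) (hk : Fintype.card V ≤ Fintype.card W + k)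
    (x : V) (s : Finset V) (hx : x ∉ s) (h : ∀ v ∈ s, f v = f x) : s.card ≤ k := by
  classical
  obtain ⟨g, hg⟩ := hs.hasRightInverse
  let g' : W → V := Function.update g (f x) x
  have hg' : ∀ w, f (g' w) = w := by
    intro w
    by_cases hw : w = f x
    · subst hw; simp [g']
    · simp [g', Function.update_of_ne hw, hg w]
  have hinj : Function.Injective g' := Function.LeftInverse.injective (g := f) hg'
  have hdisj : Disjoint s (Finset.univ.image g') := by
    rw [Finset.disjoint_left]
    intro v hv hv'
    obtain ⟨w, _, rfl⟩ := Finset.mem_image.1 hv'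
    have h1 := h _ hv
    rw [hg'] at h1
    subst h1
    apply hx
    simpa [g'] using hv
  have h1 : (s ∪ Finset.univ.image g').card ≤ Fintype.card V := Finset.card_le_univ _
  rw [Finset.card_union_of_disjoint hdisj, Finset.card_image_of_injective _ hinj,
    Finset.card_univ] at h1
  omega

theorem touched_card (hs : Function.Surjective f) (hk : Fintype.card V ≤ Fintype.card W + k)
    (s : Finset V) (h : ∀ v ∈ s, Touched f v) : s.card ≤ 2 * k := by
  classical
  obtain ⟨g, hg⟩ := hs.hasRightInverse
  have hinj : Function.Injective g := Function.LeftInverse.injective (g := f) hg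
  set N : Finset V := (Finset.univ.image g)ᶜ with hN
  have hNcard : N.card ≤ k := by
    rw [hN, Finset.card_compl, Finset.card_image_of_injective _ hinj, Finset.card_univ]
    omega
  have hsub : s ⊆ N ∪ N.image (fun u => g (f u)) := by
    intro v hv
    by_cases hvN : v ∈ N
    · exact Finset.mem_union_left _ hvN
    · apply Finset.mem_union_right
      rw [hN, Finset.mem_compl, not_not, Finset.mem_image] at hvN
      obtain ⟨w, _, rfl⟩ := hvN
      obtain ⟨u, hu, huv⟩ := h _ hv
      rw [Finset.mem_image]
      refine ⟨u, ?_, by rw [huv, hg]⟩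
      rw [hN, Finset.mem_compl, Finset.mem_image]
      rintro ⟨w', _, rfl⟩
      rw [hg, hg] at huv
      exact hu (by rw [huv])
  refine (Finset.card_le_card hsub).trans ((Finset.card_union_le _ _).trans ?_)
  have := Finset.card_image_le (s := N) (f := fun u => g (f u))
  omega

/-- Among more than `2k` disjoint blocks, one is untouched. -/
theorem exists_untouched (hs : Function.Surjective f) (hk : Fintype.card V ≤ Fintype.card W + k)
    {I J : Type} [Fintype I] (g : I → J → V) (hg : ∀ i j i' j', g i j = g i' j' → i = i')
    (hI : 2 * k < Fintype.card I) : ∃ i, ∀ j, ¬ Touched f (g i j) := by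
  classical
  by_contra hcon
  simp only [not_exists, not_forall, not_not] at hcon
  choose j hj using hcon
  have hinj : Function.Injective (fun i => g i (j i)) := fun a b h => hg _ _ _ _ h
  have := touched_card hs hk (Finset.univ.image (fun i => g i (j i))) (by
    intro v hv
    obtain ⟨i, _, rfl⟩ := Finset.mem_image.1 hv
    exact hj i)
  rw [Finset.card_image_of_injective _ hinj, Finset.card_univ] at this
  omega

end card

section adj

variable {G : SimpleGraph V} {f : V → W}

theorem quot_adj_of_adj {u v : V} (h : G.Adj u v) (hne : f u ≠ f v) :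
    (quot G f).Adj (f u) (f v) := ⟨hne, u, v, rfl, rfl, h⟩

theorem quot_adj_left {a : V} (ha : ¬ Touched f a) {w : W} :
    (quot G f).Adj (f a) w ↔ f a ≠ w ∧ ∃ v, f v = w ∧ G.Adj a v := by
  constructor
  · rintro ⟨h, u, v, hu, hv, huv⟩
    rw [not_touched ha hu] at huv
    exact ⟨h, v, hv, huv⟩
  · rintro ⟨h, v, hv, huv⟩
    exact ⟨h, a, v, rfl, hv, huv⟩

theorem quot_adj_untouched {a b : V} (ha : ¬ Touched f a) (hb : ¬ Touched f b) :
    (quot G f).Adj (f a) (f b) ↔ G.Adj a b := by
  rw [quot_adj_left ha]
  constructor
  · rintro ⟨_, v, hv, h⟩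
    rwa [not_touched hb hv] at h
  · intro h
    exact ⟨fun h' => h.ne (not_touched hb h'), b, rfl, h⟩

theorem ne_of_untouched {a b : V} (ha : ¬ Touched f a) (h : a ≠ b) : f a ≠ f b :=
  fun h' => h (not_touched ha h'.symm).symm

end adj

end Pool.Agent.H53
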